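import Pool.Agent.U154.UT.Ti

/-!
Upper tails on the cylinder, uniformly in the tilt.
-/

set_option autoImplicit false

namespace Pool.Agent.U154.UT

open MeasureTheory Real Filter Topology H974 Finset
open Pool.Agent.H863R2.NL (EN IsPs cN vN mu mu_nonneg fN EN_mul EN_const)
open Pool.Agent.H863R2.Cyl (Wd)
open Pool.Agent.H450R4.NL (Ph qt tilt_coef)
open Pool.Agent.W819.EN (dL nuc)

theorem cN_pos' : 0 < cN := by unfold cN; positivity

theorem vN_pos' : 0 < vN := Pool.Agent.H863R2.NL.CLTAux.vN_pos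

/-- the largest number of loops -/
noncomputable def mx (n : ℕ) : ℕ :=
  (Finset.univ : Finset (Wd (2 * n - 1 + 1) × Wd (2 * n - 1 + 1))).sup (fun x => fN x.1.1 x.2.1)

theorem EN_mono_mx {n : ℕ} {g g' : ℕ → ℝ} (h : ∀ m, m ≤ mx n → g m ≤ g' m) : EN n g ≤ EN n g' := by
  unfold EN
  refine Finset.sum_le_sum fun σ _ => Finset.sum_le_sum fun τ _ => ?_
  refine mul_le_mul_of_nonneg_left (h _ ?_) (mul_nonneg (mu_nonneg n σ) (mu_nonneg n τ))
  exact Finset.le_sup (f := fun x : Wd (2 * n - 1 + 1) × Wd (2 * n - 1 + 1) => fN x.1.1 x.2.1)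
    (Finset.mem_univ (σ, τ))

/-- the tilted local probability times the normalisation -/
noncomputable def lc (n : ℕ) (h : ℝ) (k : ℕ) : ℝ := EN n (fun m => if m = k then exp h ^ m else 0)

noncomputable def Zc (n : ℕ) (h : ℝ) : ℝ := EN n (fun m => exp h ^ m)

theorem EN_fsum (n : ℕ) (s : Finset ℕ) (c : ℕ → ℝ) (g : ℕ → ℕ → ℝ) :
    EN n (fun m => ∑ k ∈ s, c k * g k m) = ∑ k ∈ s, c k * EN n (g k) := by
  classical
  induction s using Finset.induction_on with
  | empty => simp only [Finset.sum_empty]; exact EN_const n 0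
  | insert a s ha ih =>
    simp only [Finset.sum_insert ha]
    rw [Pool.Agent.H863R2.NL.EN_add, ih]
    congr 1
    exact EN_mul n (c a) (g a)

theorem wt_ind (h : ℝ) (m k : ℕ) : exp (-(h * k)) * (if m = k then exp h ^ m else 0) =
    if m = k then 1 else 0 := by
  split_ifs with e
  · rw [e, ← exp_nat_mul, ← exp_add]
    have : -(h * (k:ℝ)) + (k:ℝ) * h = 0 := by ring
    rw [this, exp_zero]
  · rw [mul_zero]

/-- the upper tail through the local probabilities -/
theorem up_eq (n M : ℕ) (h : ℝ) : EN n (fun m => ind (M ≤ m)) =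
    ∑ k ∈ Finset.Ico M (max M (mx n) + 1), exp (-(h * k)) * lc n h k := by
  unfold lc
  rw [← EN_fsum]
  have key : ∀ m, m ≤ mx n → ind (M ≤ m) = ∑ k ∈ Finset.Ico M (max M (mx n) + 1),
      exp (-(h * k)) * (if m = k then exp h ^ m else 0) := by
    intro m hm
    simp only [wt_ind]
    rw [Finset.sum_ite_eq]
    by_cases hM : M ≤ m
    · rw [ind_of hM, if_pos (Finset.mem_Ico.2 ⟨hM, by omega⟩)]
    · rw [ind_not_of hM, if_neg (fun h => hM (Finset.mem_Ico.1 h).1)]
  exact le_antisymm (EN_mono_mx fun m hm => (key m hm).le) (EN_mono_mx fun m hm => (key m hm).ge)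

theorem lc_nonneg (n : ℕ) (h : ℝ) (k : ℕ) : 0 ≤ lc n h k := by
  have h1 : EN n (fun _ => (0:ℝ)) ≤ EN n (fun m => if m = k then exp h ^ m else 0) := by
    apply Pool.Agent.H863R2.NL.EN_mono
    intro m
    show (0:ℝ) ≤ if m = k then exp h ^ m else 0
    split_ifs
    · positivity
    · exact le_rfl
  rw [EN_const n 0] at h1
  exact h1

/-- partial sums from below -/
theorem up_ge (n M J : ℕ) (h : ℝ) : ∑ j ∈ Finset.range J, exp (-(h * ((M + j : ℕ) : ℝ))) *
    lc n h (M + j) ≤ EN n (fun m => ind (M ≤ m)) := by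
  have e1 : ∑ j ∈ Finset.range J, exp (-(h * ((M + j : ℕ) : ℝ))) * lc n h (M + j) =
      EN n (fun m => ∑ j ∈ Finset.range J, exp (-(h * ((M + j : ℕ) : ℝ))) *
        (if m = M + j then exp h ^ m else 0)) := by
    unfold lc
    rw [EN_fsum]
  rw [e1]
  apply Pool.Agent.H863R2.NL.EN_mono
  intro m
  simp only [wt_ind]
  by_cases hM : M ≤ m
  · rw [ind_of hM]
    have : ∀ j ∈ Finset.range J, (if m = M + j then (1:ℝ) else 0) = if m - M = j then 1 else 0 := by
      intro j _
      by_cases hj : m = M + j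
      · rw [if_pos hj, if_pos (by omega)]
      · rw [if_neg hj, if_neg (by omega)]
    rw [Finset.sum_congr rfl this, Finset.sum_ite_eq]
    split_ifs <;> norm_num
  · rw [ind_not_of hM]
    apply le_of_eq
    apply Finset.sum_eq_zero
    intro j _
    rw [if_neg (by omega)]

/-- geometric sums with real exponents -/
theorem geo_le {η : ℝ} (hη : 0 < η) (M N : ℕ) :
    ∑ k ∈ Finset.Ico M N, exp (-(η * k)) ≤ exp (-(η * M)) / (1 - exp (-η)) := by
  have h1 : exp (-η) < 1 := exp_lt_one_iff.2 (by linarith)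
  have h0 : 0 < exp (-η) := exp_pos _
  have e : ∀ k : ℕ, exp (-(η * k)) = exp (-η) ^ k := by
    intro k
    rw [← exp_nat_mul]
    congr 1
    ring
  simp only [e]
  rcases le_or_gt N M with h | h
  · rw [Finset.Ico_eq_empty_of_le h, Finset.sum_empty]
    have : 0 < 1 - exp (-η) := by linarith
    positivity
  · rw [geom_sum_Ico h1.ne h.le]
    have h2 : 0 < exp (-η) ^ N := by positivity
    have e2 : (exp (-η) ^ N - exp (-η) ^ M) / (exp (-η) - 1) =
        (exp (-η) ^ M - exp (-η) ^ N) / (1 - exp (-η)) := by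
      rw [← neg_sub (exp (-η) ^ M), ← neg_sub 1 (exp (-η)), neg_div_neg_eq]
    rw [e2]
    apply div_le_div_of_nonneg_right _ (by linarith)
    linarith

theorem one_sub_exp {η H : ℝ} (h0 : 0 ≤ η) (h1 : η ≤ H) : η * exp (-H) ≤ 1 - exp (-η) := by
  have h2 := add_one_le_exp η
  have h3 : exp (-η) * exp η = 1 := by rw [← exp_add]; simp
  have h4 : exp (-η) * (η + 1) ≤ 1 :=
    calc exp (-η) * (η + 1) ≤ exp (-η) * exp η := mul_le_mul_of_nonneg_left h2 (exp_pos _).le
      _ = 1 := h3
  have h5 : exp (-H) ≤ exp (-η) := exp_le_exp.2 (by linarith)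
  have h6 : η * exp (-H) ≤ η * exp (-η) := mul_le_mul_of_nonneg_left h5 h0
  linarith

theorem Zc_eq {n : ℕ} {s : Multiset ℝ} (hs : IsPs n s) (h : ℝ) :
    Zc n h = exp (s.map (fun p => log (1 + p * (exp h - 1)))).sum := by
  unfold Zc
  rw [Pool.Agent.H863R2.NL.PsSumAux.real_id hs, exp_multiset_sum, Multiset.map_map]
  congr 1
  apply Multiset.map_congr rfl
  intro p hp
  simp only [Function.comp_apply]
  rw [exp_log (den_pos' (exp_pos h) (hs.1 p hp).1.le (hs.1 p hp).2)]

/-- the local limit theorem on the cylinder -/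
theorem cyl_llt {H C c : ℝ} {ps : ℕ → Multiset ℝ} (hT : Tilts H C c ps) {ε : ℝ} (hε : 0 < ε) :
    ∀ᶠ n : ℕ in atTop, ∀ h, |h| ≤ H → ∀ (k : ℕ) (μ V : ℝ), μ = ((ps n).map (qt (exp h))).sum →
      V = (((ps n).map (qt (exp h))).map (fun q => q * (1 - q))).sum →
      |lc n h k / Zc n h - exp (-((μ - k) ^ 2 / (2 * V))) / √(2 * π * V)| ≤ ε / √V := by
  have hcN := cN_pos'
  have hC0 := hT.C0
  have hc0 := hT.c0
  obtain ⟨V0, hV0, hllt⟩ := llt (c := C + 1) (ε := ε) (by linarith) hε
  have hLog : Tendsto (fun n : ℕ => log (n : ℝ)) atTop atTop :=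
    tendsto_log_atTop.comp tendsto_natCast_atTop_atTop
  filter_upwards [hLog.eventually_ge_atTop ((V0 / c + C) / cN), eventually_ge_atTop 1] with n h1 h2
  intro h hh k μ V hμ hV
  have h3 := (abs_le.1 (hT.sm n h2)).1
  have h4 := hT.lo h hh n h2
  have h5 : V0 / c + C ≤ cN * log n := by
    rw [div_le_iff₀ hcN] at h1
    linarith
  have hVV : V0 ≤ V := by
    rw [hV]
    refine le_trans ?_ h4
    have : V0 / c ≤ (ps n).sum := by linarith
    rw [div_le_iff₀ hc0] at this
    linarith
  have hV0' : 0 ≤ V := by linarith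
  have h6 := hllt ((ps n).map (qt (exp h))) (hT.mem h hh n h2) V hV hVV (by
    have := hT.mv h hh n h2
    rw [← hV] at this
    linarith) k _ (tilt_coef (hT.isps n h2) (exp_pos h) k)
  rw [← hμ] at h6
  exact h6

/-- the bound of the variance -/
theorem V_bd {H C c : ℝ} {ps : ℕ → Multiset ℝ} (hT : Tilts H C c ps) :
    ∃ v1 v2 : ℝ, 0 < v1 ∧ 0 < v2 ∧ ∀ᶠ n : ℕ in atTop, ∀ h, |h| ≤ H → ∀ V : ℝ,
      V = (((ps n).map (qt (exp h))).map (fun q => q * (1 - q))).sum →
      v1 * log n ≤ V ∧ V ≤ v2 * log n := by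
  have hcN := cN_pos'
  have hC0 := hT.C0
  have hc0 := hT.c0
  have hLog : Tendsto (fun n : ℕ => log (n : ℝ)) atTop atTop :=
    tendsto_log_atTop.comp tendsto_natCast_atTop_atTop
  refine ⟨c * cN / 2, (C + 1) * (cN + C), by positivity, by positivity, ?_⟩
  filter_upwards [hLog.eventually_ge_atTop (2 * C / cN), hLog.eventually_ge_atTop 1,
    eventually_ge_atTop 1] with n h1 h1' h2
  intro h hh V hV
  have h3 := abs_le.1 (hT.sm n h2)
  have h4 := hT.lo h hh n h2
  have h5 := hT.hi h hh n h2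
  rw [← hV] at h4 h5
  have h6 : 2 * C ≤ cN * log n := by
    rw [div_le_iff₀ hcN] at h1
    linarith
  constructor
  · have : cN * log n / 2 ≤ (ps n).sum := by linarith [h3.1]
    nlinarith
  · have h7 : (ps n).sum ≤ (cN + C) * log n := by nlinarith [h3.2]
    have h8 : 0 ≤ (cN + C) * log n := by positivity
    nlinarith

/-- the additive constant -/
noncomputable def x0 : ℝ := 1 / (4 * cN ^ 2)

theorem x0_pos : 0 < x0 := by
  have := cN_pos'
  unfold x0
  positivity

theorem min_le {a x : ℝ} (ha : 0 ≤ a) (hx : 0 ≤ x) {y : ℝ} (h1 : y ≤ 1) (h2 : y * x ≤ a) :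
    y ≤ (1 + a) / (1 + x) := by
  rw [le_div_iff₀ (by linarith)]
  linarith

/-- the upper bound of the upper tail on the cylinder -/
theorem cyl_tail_le {H C c : ℝ} {ps : ℕ → Multiset ℝ} (hH : 0 < H) (hT : Tilts H C c ps) :
    ∃ K : ℝ, 0 < K ∧ ∀ n : ℕ, 1 ≤ n → ∀ h, 0 ≤ h → h ≤ H → ∀ M : ℕ,
      EN n (fun m => ind (M ≤ m)) ≤
        K * (exp (-(h * M) + Lm h * log n) / (1 + h * √(log n + x0))) := by
  have hC0 := hT.C0
  have hx0 := x0_pos
  obtain ⟨v1, v2, hv1, hv2, hV⟩ := V_bd hT
  have hLog : Tendsto (fun n : ℕ => log (n : ℝ)) atTop atTop :=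
    tendsto_log_atTop.comp tendsto_natCast_atTop_atTop
  have hev := (cyl_llt hT (ε := 1 / 2) (by norm_num)).and (hV.and
    ((hLog.eventually_ge_atTop (max 1 x0)).and (eventually_ge_atTop 1)))
  obtain ⟨n0, hn0⟩ := eventually_atTop.1 hev
  obtain ⟨a, ha⟩ : ∃ a : ℝ, a = exp H * √2 / √v1 := ⟨_, rfl⟩
  have ha0 : 0 < a := by rw [ha]; positivity
  obtain ⟨a', ha'⟩ : ∃ a' : ℝ, a' = H * √(log (n0 + 1 : ℕ) + x0) := ⟨_, rfl⟩
  have ha'0 : 0 ≤ a' := by rw [ha']; positivity
  refine ⟨exp (C * H) * (1 + (a + a')), by positivity, ?_⟩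
  intro n hn h h0 hhH M
  have hh : |h| ≤ H := by rwa [abs_of_nonneg h0]
  have hln : 0 ≤ log (n : ℝ) := log_nonneg (by exact_mod_cast hn)
  obtain ⟨P, hP⟩ : ∃ P, P = EN n (fun m => ind (M ≤ m)) := ⟨_, rfl⟩
  have hZ0 : 0 < Zc n h := by rw [Zc_eq (hT.isps n hn) h]; exact exp_pos _
  have hZ : Zc n h ≤ exp (C * H) * exp (Lm h * log n) := by
    rw [Zc_eq (hT.isps n hn) h, ← exp_add]
    apply exp_le_exp.2
    have h1 := (abs_le.1 (hT.lg h hh n hn)).2
    have h2 : C * |h| ≤ C * H := mul_le_mul_of_nonneg_left hh hC0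
    linarith
  -- Chernoff
  have c1 : P ≤ exp (-(h * M)) * Zc n h := by
    rw [hP]
    unfold Zc
    rw [← EN_mul]
    apply Pool.Agent.H863R2.NL.EN_mono
    intro m
    rw [← exp_nat_mul, ← exp_add]
    by_cases hM : M ≤ m
    · rw [ind_of hM]
      apply one_le_exp
      have : (M : ℝ) ≤ m := by exact_mod_cast hM
      nlinarith
    · rw [ind_not_of hM]
      exact (exp_pos _).le
  obtain ⟨y, hy⟩ : ∃ y, y = P / (exp (-(h * M)) * Zc n h) := ⟨_, rfl⟩
  have hpos : 0 < exp (-(h * M)) * Zc n h := by positivity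
  have hPy : P = y * (exp (-(h * M)) * Zc n h) := by rw [hy]; field_simp
  have hy1 : y ≤ 1 := by rw [hy, div_le_one hpos]; exact c1
  have hP0 : 0 ≤ P := by
    have h1 : EN n (fun _ => (0:ℝ)) ≤ EN n (fun m => ind (M ≤ m)) :=
      Pool.Agent.H863R2.NL.EN_mono fun m => ind_nonneg _
    rw [EN_const n 0] at h1
    rw [hP]
    exact h1
  have hy0 : 0 ≤ y := by rw [hy]; positivity
  have hy2 : y * (h * √(log n + x0)) ≤ a + a' := by
    rcases Nat.lt_or_ge n n0 with hs | hs
    · have h1 : h * √(log n + x0) ≤ a' := by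
        rw [ha']
        apply mul_le_mul hhH _ (sqrt_nonneg _) hH.le
        apply sqrt_le_sqrt
        have : log (n : ℝ) ≤ log ((n0 + 1 : ℕ) : ℝ) :=
          log_le_log (by exact_mod_cast hn) (by exact_mod_cast (by omega : n ≤ n0 + 1))
        linarith
      have h2 : y * (h * √(log n + x0)) ≤ 1 * a' :=
        mul_le_mul hy1 h1 (by positivity) (by norm_num)
      linarith
    · rcases eq_or_lt_of_le h0 with h00 | h00
      · rw [← h00]
        simp only [zero_mul, mul_zero]
        positivity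
      · obtain ⟨k1, k2, k3, k4⟩ := hn0 n hs
        obtain ⟨V, hVd⟩ : ∃ V, V = (((ps n).map (qt (exp h))).map (fun q => q * (1 - q))).sum :=
          ⟨_, rfl⟩
        have k5 := k2 h hh V hVd
        have hL1 : 1 ≤ log (n : ℝ) := (le_max_left _ _).trans k3
        have hL2 : x0 ≤ log (n : ℝ) := (le_max_right _ _).trans k3
        have hVp : 0 < V := lt_of_lt_of_le (by positivity) k5.1
        have hsV : 0 < √V := sqrt_pos.2 hVp
        have k6 : ∀ k, lc n h k ≤ Zc n h * (1 / √V) := by
          intro k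
          have h1 := (abs_le.1 (k1 h hh k _ V rfl hVd)).2
          have h2 : exp (-((((ps n).map (qt (exp h))).sum - k) ^ 2 / (2 * V))) / √(2 * π * V) ≤
              1 / 2 * (1 / √V) := by
            rw [sqrt_mul (by positivity)]
            have h3 : exp (-((((ps n).map (qt (exp h))).sum - k) ^ 2 / (2 * V))) ≤ 1 := by
              apply exp_le_one_iff.2
              have : 0 ≤ (((ps n).map (qt (exp h))).sum - k) ^ 2 / (2 * V) := by positivity
              linarith
            have h4 : 2 ≤ √(2 * π) := by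
              apply le_sqrt_of_sq_le
              linarith [pi_gt_three]
            rw [div_le_iff₀ (by positivity)]
            have e : 1 / 2 * (1 / √V) * (√(2 * π) * √V) = √(2 * π) / 2 := by field_simp
            rw [e]
            linarith
          have h3 : lc n h k / Zc n h ≤ 1 / √V := by
            have : (1:ℝ) / 2 / √V = 1 / 2 * (1 / √V) := by ring
            linarith
          rw [div_le_iff₀ hZ0] at h3
          linarith
        have k7 : P ≤ Zc n h * (1 / √V) * (exp (-(h * M)) / (1 - exp (-h))) := by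
          rw [hP, up_eq n M h]
          have h1 : ∑ k ∈ Finset.Ico M (max M (mx n) + 1), exp (-(h * k)) * lc n h k ≤
              ∑ k ∈ Finset.Ico M (max M (mx n) + 1), exp (-(h * k)) * (Zc n h * (1 / √V)) :=
            Finset.sum_le_sum fun k _ => mul_le_mul_of_nonneg_left (k6 k) (exp_pos _).le
          rw [← Finset.sum_mul] at h1
          refine h1.trans ?_
          rw [mul_comm]
          exact mul_le_mul_of_nonneg_left (geo_le h00 M _) (by positivity)
        have hd : 0 < 1 - exp (-h) := by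
          have := exp_lt_one_iff.2 (show -h < 0 by linarith)
          linarith
        have k8 : y ≤ 1 / √V / (1 - exp (-h)) := by
          rw [hy, div_le_iff₀ hpos]
          refine k7.trans (le_of_eq ?_)
          field_simp
        have k9 : h * exp (-H) ≤ 1 - exp (-h) := one_sub_exp h0 hhH
        have k10 : √(log n + x0) ≤ √2 / √v1 * √V := by
          have h1 : log n + x0 ≤ 2 / v1 * V := by
            rw [div_mul_eq_mul_div, le_div_iff₀ hv1]
            nlinarith
          calc √(log n + x0) ≤ √(2 / v1 * V) := sqrt_le_sqrt h1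
            _ = √2 / √v1 * √V := by rw [sqrt_mul (by positivity), sqrt_div (by norm_num)]
        have k11 : y * (h * √(log n + x0)) ≤ a := by
          have h1 : y * h ≤ exp H / √V := by
            have h2 : y * (1 - exp (-h)) ≤ 1 / √V := by
              rw [le_div_iff₀ hd] at k8
              exact k8
            have h3 : y * (h * exp (-H)) ≤ 1 / √V :=
              (mul_le_mul_of_nonneg_left k9 hy0).trans h2
            have h4 : exp (-H) * exp H = 1 := by rw [← exp_add]; simp
            calc y * h = y * (h * exp (-H)) * exp H := by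
                  rw [mul_assoc, mul_assoc, h4, mul_one]
              _ ≤ 1 / √V * exp H := mul_le_mul_of_nonneg_right h3 (exp_pos _).le
              _ = _ := by ring
          calc y * (h * √(log n + x0)) = (y * h) * √(log n + x0) := by ring
            _ ≤ exp H / √V * (√2 / √v1 * √V) :=
                mul_le_mul h1 k10 (sqrt_nonneg _) (by positivity)
            _ = a := by rw [ha]; field_simp
        linarith
  have hy3 := min_le (a := a + a') (x := h * √(log n + x0)) (by positivity) (by positivity) hy1 hy2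
  rw [← hP, hPy]
  calc y * (exp (-(h * M)) * Zc n h) ≤ (1 + (a + a')) / (1 + h * √(log n + x0)) *
        (exp (-(h * M)) * (exp (C * H) * exp (Lm h * log n))) := by
        apply mul_le_mul hy3 _ hpos.le (by positivity)
        exact mul_le_mul_of_nonneg_left hZ (exp_pos _).le
    _ = _ := by
        rw [exp_add]
        ring

end Pool.Agent.U154.UT
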