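import Pool.Agent.U154.UT.Dec
import Pool.Agent.W819.EN.BadT
import Pool.Agent.H863R2.NL.Cmp

/-!
Decoupling on the cylinder, comparison of the cylinder with the plane for increasing functions.
-/

set_option autoImplicit false

namespace Pool.Agent.U154.UT

open H974 H906.Cyl Finset Pool.Agent.W819.EN Real
open Pool.Agent.H863R2.NL (EN ET TT Good mu fN EN_avg Ex_per mu_nonneg mu_sum f_le fN_spec
  TT_local good_top good_mono)
open Pool.Agent.H863R2.Cyl (Wd rows)

/-- the six rectangles are disjoint from the periodic copies of the inner box -/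
theorem pf_eq {a : ℕ} {S : Finset Edg}
    (hd : ∀ x y x' y' : ℤ, ∀ t : Bool, x < 2 * a → -(2 * a : ℤ) < x → y < 2 * a →
      -(2 * a : ℤ) < y → ∀ m : ℤ, x' = x + 10 * a * m → y' = y + 10 * a * m →
      ((x', y', t) : Edg) ∈ S → False) {F F' : Finset Edg}
    (h : ∀ x, (∀ e ∈ B (2 * a - 1), x ≠ red (10 * a) e) → (x ∈ F ↔ x ∈ F')) :
    pf (10 * a) S F = pf (10 * a) S F' := by
  have key : ∀ e ∈ S, (red (10 * a) e ∈ F ↔ red (10 * a) e ∈ F') := by
    rintro ⟨x', y', t'⟩ he'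
    apply h
    rintro ⟨x, y, t⟩ he hne
    obtain ⟨m, h1, h2, h3⟩ := Pool.Agent.H863R2.NL.BadAux.red_eq hne.symm
    simp only at h1 h2 h3
    have hx : (x < 2 * a ∧ -(2 * a : ℤ) < x) ∧ (y < 2 * a ∧ -(2 * a : ℤ) < y) := by
      unfold B bx at he
      cases t
      · simp only [mem_RE_false] at he
        omega
      · simp only [mem_RE_true] at he
        omega
    push_cast at h1 h2
    exact hd x y x' y' t' hx.1.1 hx.1.2 hx.2.1 hx.2.2 m h1 h2 he'
  ext e
  rw [mem_pf, mem_pf]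
  exact and_congr_right fun he => key e he

theorem good_congr {a k : ℕ} (ha : 0 < a) {F F' : Finset Edg}
    (h : ∀ x, (∀ e ∈ B (2 * a - 1), x ≠ red (10 * a) e) → (x ∈ F ↔ x ∈ F')) :
    Good (10 * a) (2 * a) k F ↔ Good (10 * a) (2 * a) k F' := by
  obtain ⟨b, hb⟩ : ∃ b : ℤ, b = ((2 * a : ℕ) : ℤ) := ⟨_, rfl⟩
  obtain ⟨n, hn⟩ : ∃ n : ℤ, n = ((10 * a : ℕ) : ℤ) := ⟨_, rfl⟩
  have hb' : b = 2 * (a : ℤ) := by rw [hb]; push_cast; ring
  have hn' : n = 10 * (a : ℤ) := by rw [hn]; push_cast; ring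
  have ha' : (0 : ℤ) < a := by exact_mod_cast ha
  have b1 : pf (10 * a) (LRE (-(2 * b)) (2 * b) b (2 * b)) F =
      pf (10 * a) (LRE (-(2 * b)) (2 * b) b (2 * b)) F' := by
    refine pf_eq ?_ h
    intro x y x' y' t h1 h2 h3 h4 m h5 h6 h7
    have h8 : 2 * (a : ℤ) ≤ y' ∧ y' ≤ 4 * a := by
      cases t
      · rw [mem_LRE_false] at h7; omega
      · rw [mem_LRE_true] at h7; omega
    have h9 : -(4 * (a : ℤ)) ≤ x' ∧ x' ≤ 4 * a := by
      cases t
      · rw [mem_LRE_false] at h7; omega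
      · rw [mem_LRE_true] at h7; omega
    rcases lt_trichotomy m 0 with hm | hm | hm
    · nlinarith
    · subst hm; omega
    · nlinarith
  have b2 : pf (10 * a) (LRE (-(2 * b)) (2 * b) (-(2 * b)) (-b)) F =
      pf (10 * a) (LRE (-(2 * b)) (2 * b) (-(2 * b)) (-b)) F' := by
    refine pf_eq ?_ h
    intro x y x' y' t h1 h2 h3 h4 m h5 h6 h7
    have h8 : -(4 * (a : ℤ)) ≤ y' ∧ y' ≤ -(2 * a) := by
      cases t
      · rw [mem_LRE_false] at h7; omega
      · rw [mem_LRE_true] at h7; omega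
    have h9 : -(4 * (a : ℤ)) ≤ x' ∧ x' ≤ 4 * a := by
      cases t
      · rw [mem_LRE_false] at h7; omega
      · rw [mem_LRE_true] at h7; omega
    rcases lt_trichotomy m 0 with hm | hm | hm
    · nlinarith
    · subst hm; omega
    · nlinarith
  have b3 : pf (10 * a) (TBE b (2 * b) (-(2 * b)) (2 * b)) F =
      pf (10 * a) (TBE b (2 * b) (-(2 * b)) (2 * b)) F' := by
    refine pf_eq ?_ h
    intro x y x' y' t h1 h2 h3 h4 m h5 h6 h7
    have h8 : 2 * (a : ℤ) ≤ x' ∧ x' ≤ 4 * a := by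
      cases t
      · rw [mem_TBE_false] at h7; omega
      · rw [mem_TBE_true] at h7; omega
    rcases lt_trichotomy m 0 with hm | hm | hm
    · nlinarith
    · subst hm; omega
    · nlinarith
  have b4 : pf (10 * a) (TBE (-(2 * b)) (-b) (-(2 * b)) (2 * b)) F =
      pf (10 * a) (TBE (-(2 * b)) (-b) (-(2 * b)) (2 * b)) F' := by
    refine pf_eq ?_ h
    intro x y x' y' t h1 h2 h3 h4 m h5 h6 h7
    have h8 : -(4 * (a : ℤ)) ≤ x' ∧ x' ≤ -(2 * a) := by
      cases t
      · rw [mem_TBE_false] at h7; omega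
      · rw [mem_TBE_true] at h7; omega
    rcases lt_trichotomy m 0 with hm | hm | hm
    · nlinarith
    · subst hm; omega
    · nlinarith
  have b5 : pf (10 * a) (LRE b (n + 2 * b) (-b) b) F =
      pf (10 * a) (LRE b (n + 2 * b) (-b) b) F' := by
    refine pf_eq ?_ h
    intro x y x' y' t h1 h2 h3 h4 m h5 h6 h7
    have h8 : 2 * (a : ℤ) ≤ x' ∧ (-(2 * (a : ℤ)) ≤ y' ∧ y' ≤ 2 * a) := by
      cases t
      · rw [mem_LRE_false] at h7; omega
      · rw [mem_LRE_true] at h7; omega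
    rcases lt_trichotomy m 0 with hm | hm | hm
    · nlinarith
    · subst hm; omega
    · nlinarith
  have b6 : pf (10 * a) (TBE (n - b) (n + b) (-(2 * b)) (n - b)) F =
      pf (10 * a) (TBE (n - b) (n + b) (-(2 * b)) (n - b)) F' := by
    refine pf_eq ?_ h
    intro x y x' y' t h1 h2 h3 h4 m h5 h6 h7
    have h8 : (8 * (a : ℤ) ≤ x' ∧ x' ≤ 12 * a) ∧ (-(4 * (a : ℤ)) ≤ y' ∧ y' ≤ 8 * a) := by
      cases t
      · rw [mem_TBE_false] at h7; omega
      · rw [mem_TBE_true] at h7; omega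
    rcases lt_trichotomy m 0 with hm | hm | hm
    · nlinarith
    · subst hm; omega
    · rcases (show m = 1 ∨ 2 ≤ m by omega) with h9 | h9
      · subst h9; omega
      · nlinarith
  unfold Good
  rw [← hb, ← hn, b1, b2, b3, b4, b5, b6]

theorem T_eq (R : ℕ) (F : Finset Edg) : T R F = TT (↑F : Set Edg) R := by
  unfold T
  rw [NA_eq, NS_zero]

theorem B_eq (k : ℕ) : B k = boxE k := bx_zero k

/-- decoupling on the cylinder -/
theorem cyl_dec {K : ℝ} (hK : 0 ≤ K) {h : ℕ → ℝ} {A : ℕ → ℕ → ℝ} {a : ℕ} (ha : 9 ≤ a)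
    (hc : Cl K h A (2 * a)) (k z : ℕ) (hA : 0 ≤ A (2 * a) z) :
    Ex P2 (CE (10 * a) (20 * a)) (fun F => h (TT (per (10 * a) F) (4 * a) + z) *
      ind (¬ Good (10 * a) (2 * a) k F)) ≤
      K * A (2 * a) z *
        √(Ex P2 (CE (10 * a) (20 * a)) (fun F => ind (¬ Good (10 * a) (2 * a) k F))) := by
  obtain ⟨n, hn⟩ : ∃ n, n = 10 * a := ⟨_, rfl⟩
  obtain ⟨C, hC⟩ : ∃ C, C = CE (10 * a) (20 * a) := ⟨_, rfl⟩
  obtain ⟨X0, hX0⟩ : ∃ X0, X0 = B (4 * a + 8) := ⟨_, rfl⟩
  obtain ⟨I, hI⟩ : ∃ I, I = X0.image (red (10 * a)) := ⟨_, rfl⟩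
  have hinj : Set.InjOn (red (10 * a)) X0 := by
    rw [hX0]
    unfold B bx
    exact red_inj_x (by push_cast; omega)
  have hIC : I ⊆ C := by
    rw [hI, hC, hX0]
    unfold B bx
    exact image_red_sub (by omega) (by push_cast; omega) (by push_cast; omega)
  have hS : C = (C \ I) ∪ I := by rw [Finset.sdiff_union_of_subset hIC]
  have hd : Disjoint (C \ I) I := Finset.sdiff_disjoint
  have e0 : ∀ f : Finset Edg → ℝ, Ex P2 C f =
      Ex P2 (C \ I) (fun X => Ex P2 X0 (fun G => f (X ∪ G.image (red (10 * a))))) := by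
    intro f
    conv_lhs => rw [hS]
    rw [Ex_union hd f]
    apply Ex_congr
    intro X _
    rw [hI, Ex_image _ _ _ hinj]
  rw [← hC, e0, e0 (fun F => ind (¬ Good (10 * a) (2 * a) k F))]
  -- the number of changes
  have e1 : ∀ X, X ⊆ C \ I → ∀ G, G ⊆ X0 →
      TT (per (10 * a) (X ∪ G.image (red (10 * a)))) (4 * a) = T (2 * (2 * a)) G := by
    intro X hX G hG
    rw [T_eq, show 2 * (2 * a) = 4 * a by ring]
    apply TT_local
    intro e he
    rw [← B_eq] at he
    have he0 : e ∈ X0 := by rw [hX0]; exact B_mono (by push_cast; omega) he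
    show red (10 * a) e ∈ X ∪ G.image (red (10 * a)) ↔ e ∈ (↑G : Set Edg)
    rw [mem_union, Finset.mem_coe]
    constructor
    · rintro (h1 | h1)
      · exfalso
        exact (mem_sdiff.1 (hX h1)).2 (by rw [hI]; exact mem_image_of_mem _ he0)
      · obtain ⟨e', he', h2⟩ := mem_image.1 h1
        have := hinj (Finset.mem_coe.2 (hG he')) (Finset.mem_coe.2 he0) h2
        exact this ▸ he'
    · intro h1
      exact Or.inr (mem_image_of_mem _ h1)
  have e2 : ∀ X, X ⊆ C \ I → Ex P2 X0 (fun G =>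
      h (TT (per (10 * a) (X ∪ G.image (red (10 * a)))) (4 * a) + z) *
        ind (¬ Good (10 * a) (2 * a) k (X ∪ G.image (red (10 * a))))) ≤
      K * A (2 * a) z * √(Ex P2 X0 (fun G =>
        ind (¬ Good (10 * a) (2 * a) k (X ∪ G.image (red (10 * a)))))) := by
    intro X hX
    have k1 := hc X0 (by rw [hX0]; exact B_mono (by push_cast; omega))
      (fun G => ind (¬ Good (10 * a) (2 * a) k (X ∪ G.image (red (10 * a)))))
      (fun _ => ind_nonneg _) (fun G => by
        apply ind_congr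
        apply not_congr
        apply good_congr (by omega)
        intro x hx
        simp only [mem_union, mem_image, mem_sdiff]
        constructor
        · rintro (h1 | ⟨e, h1, h2⟩)
          · exact Or.inl h1
          · refine Or.inr ⟨e, ⟨h1, fun h3 => hx e ?_ h2.symm⟩, h2⟩
            have e3 : ((2 * a : ℕ) : ℤ) - 1 = 2 * (a : ℤ) - 1 := by push_cast; ring
            rwa [e3] at h3
        · rintro (h1 | ⟨e, h1, h2⟩)
          · exact Or.inl h1
          · exact Or.inr ⟨e, h1.1, h2⟩) z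
    simp only [ind_pow] at k1
    refine le_trans (le_of_eq ?_) k1
    apply Ex_congr
    intro G hG
    rw [e1 X hX G hG]
  refine (Ex_mono ok2 e2).trans ?_
  rw [Ex_mul_left]
  refine mul_le_mul_of_nonneg_left ?_ (mul_nonneg hK hA)
  refine (Ex_le_sqrt _ _).trans (le_of_eq ?_)
  congr 1
  apply Ex_congr
  intro X _
  exact Real.sq_sqrt (Ex_nonneg ok2 fun _ _ => ind_nonneg _)

/-- comparison of the cylinder with the plane for increasing functions -/
theorem cyl_up {t : ℝ} (ht : 1 ≤ t) : ∃ K : ℝ, 0 < K ∧ ∀ (h : ℕ → ℝ) (A : ℕ → ℕ → ℝ),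
    Hyp t h A → ∀ a κ z : ℕ, 9 ≤ a →
    EN (10 * a) (fun m => h (m + z)) ≤ ET (4 * a) (fun m => h (m + (z + 1 + 10 * κ))) +
      K * (1 / 2) ^ κ * A (2 * a) z := by
  have ht0 : 0 < t := by linarith
  obtain ⟨r, hr⟩ : ∃ r : ℝ, r = 1 / (2 * t ^ 10) := ⟨_, rfl⟩
  have hr0 : 0 < r := by rw [hr]; positivity
  have hr1 : t ^ 10 * r = 1 / 2 := by rw [hr]; field_simp
  obtain ⟨K, hK, hdec⟩ := dec ht
  obtain ⟨C, hC, hbad⟩ := Pool.Agent.W819.EN.BadT.bad_tail tailAll (ρ := r ^ 2) (by positivity)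
  refine ⟨K * (t ^ 11 * √C) * 2, by positivity, ?_⟩
  intro h A hh a κ z ha
  have hcl := hdec h A hh (2 * a) (by omega)
  have hA0 := hh.A0 (b := 2 * a) (by omega)
  obtain ⟨N, hN⟩ : ∃ N : ℕ, ∀ k, N ≤ k → ∀ F, Good (10 * a) (2 * a) k F :=
    ⟨_, fun k hk F => good_top (by omega) (by omega) F hk⟩
  have key : ∀ F, F ⊆ CE (10 * a) (20 * a) →
      ∑ σ, ∑ τ, mu (10 * a) σ * mu (10 * a) τ *
        h (fN (rows (2 * (10 * a) - 1) (dn (10 * a) (20 * a) F) (20 * a) σ).1
          (rows (2 * (10 * a) - 1) (up (10 * a) (20 * a) F) (20 * a) τ).1 + z) ≤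
      h (TT (per (10 * a) F) (4 * a) + (z + 1 + 10 * κ)) +
        ∑ k ∈ Finset.Ico κ N, h (TT (per (10 * a) F) (4 * a) + (z + 11 + 10 * k)) *
          ind (¬ Good (10 * a) (2 * a) k F) := by
    classical
    intro F _
    have hex : ∃ k, Good (10 * a) (2 * a) k F := ⟨N, hN N le_rfl F⟩
    obtain ⟨k0, hk0⟩ : ∃ k0, k0 = Nat.find hex := ⟨_, rfl⟩
    have h1 : Good (10 * a) (2 * a) k0 F := by rw [hk0]; exact Nat.find_spec hex
    have h2 : k0 ≤ N := by rw [hk0]; exact Nat.find_min' hex (hN N le_rfl F)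
    have hnn : ∀ k ∈ Finset.Ico κ N, 0 ≤ h (TT (per (10 * a) F) (4 * a) + (z + 11 + 10 * k)) *
        ind (¬ Good (10 * a) (2 * a) k F) :=
      fun k _ => mul_nonneg (hh.nn _) (ind_nonneg _)
    apply Pool.Agent.H863R2.NL.CmpAux.avg_le
    intro σ τ
    have h3 := f_le fN_spec (by omega) (le_refl (20 * a)) h1 σ τ
    by_cases hk : k0 ≤ κ
    · have h4 : h (fN (rows (2 * (10 * a) - 1) (dn (10 * a) (20 * a) F) (20 * a) σ).1
          (rows (2 * (10 * a) - 1) (up (10 * a) (20 * a) F) (20 * a) τ).1 + z) ≤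
          h (TT (per (10 * a) F) (4 * a) + (z + 1 + 10 * κ)) := hh.mono (by omega)
      have h5 := Finset.sum_nonneg hnn
      linarith
    · have h4 : ¬ Good (10 * a) (2 * a) (k0 - 1) F := by
        rw [hk0]
        exact Nat.find_min hex (by omega)
      have h5 : h (fN (rows (2 * (10 * a) - 1) (dn (10 * a) (20 * a) F) (20 * a) σ).1
          (rows (2 * (10 * a) - 1) (up (10 * a) (20 * a) F) (20 * a) τ).1 + z) ≤
          h (TT (per (10 * a) F) (4 * a) + (z + 11 + 10 * (k0 - 1))) *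
            ind (¬ Good (10 * a) (2 * a) (k0 - 1) F) := by
        rw [ind_of h4, mul_one]
        exact hh.mono (by omega)
      have h6 := Finset.single_le_sum hnn
        (Finset.mem_Ico.2 ⟨by omega, by omega⟩ : k0 - 1 ∈ Ico κ N)
      have h7 := hh.nn (TT (per (10 * a) F) (4 * a) + (z + 1 + 10 * κ))
      linarith
  rw [EN_avg (n := 10 * a) (by omega) (20 * a) (fun m => h (m + z)),
    ← Ex_per (n := 10 * a) (k := 4 * a) (M := 20 * a) (by omega) (by omega)
      (fun m => h (m + (z + 1 + 10 * κ)))]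
  refine (Ex_mono ok2 key).trans ?_
  rw [Ex_add, Ex_sum]
  refine add_le_add le_rfl ?_
  have p3 : ∀ k ∈ Finset.Ico κ N, Ex P2 (CE (10 * a) (20 * a)) (fun F =>
      h (TT (per (10 * a) F) (4 * a) + (z + 11 + 10 * k)) * ind (¬ Good (10 * a) (2 * a) k F)) ≤
      K * A (2 * a) z * (t ^ 11 * √C) * (1 / 2) ^ k := by
    intro k _
    refine (cyl_dec hK.le ha hcl k (z + 11 + 10 * k) (hA0 _)).trans ?_
    have i2 : √(Ex P2 (CE (10 * a) (20 * a)) (fun F => ind (¬ Good (10 * a) (2 * a) k F))) ≤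
        √C * r ^ k := by
      have := Real.sqrt_le_sqrt (hbad a (by omega) k)
      rwa [Real.sqrt_mul hC.le, ← pow_mul, mul_comm 2 k, pow_mul, Real.sqrt_sq (by positivity)]
        at this
    have i3 : A (2 * a) (z + 11 + 10 * k) ≤ t ^ (11 + 10 * k) * A (2 * a) z := by
      have := hh.sh (2 * a) z (11 + 10 * k) (by omega)
      rwa [← add_assoc] at this
    have i4 := hA0 z
    calc K * A (2 * a) (z + 11 + 10 * k) *
          √(Ex P2 (CE (10 * a) (20 * a)) (fun F => ind (¬ Good (10 * a) (2 * a) k F))) ≤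
        K * (t ^ (11 + 10 * k) * A (2 * a) z) * (√C * r ^ k) := by
          apply mul_le_mul (mul_le_mul_of_nonneg_left i3 hK.le) i2 (Real.sqrt_nonneg _)
            (by positivity)
      _ = K * A (2 * a) z * (t ^ 11 * √C) * ((t ^ 10 * r) ^ k) := by
          rw [pow_add, pow_mul t 10 k, mul_pow]
          ring
      _ = _ := by rw [hr1]
  have p4 := Finset.sum_le_sum p3
  rw [← Finset.mul_sum] at p4
  refine p4.trans ?_
  have i4 := hA0 z
  calc K * A (2 * a) z * (t ^ 11 * √C) * ∑ k ∈ Finset.Ico κ N, (1 / 2 : ℝ) ^ k ≤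
      K * A (2 * a) z * (t ^ 11 * √C) * (2 * (1 / 2) ^ κ) :=
        mul_le_mul_of_nonneg_left (half_sum κ N) (by positivity)
    _ = _ := by ring

end Pool.Agent.U154.UT
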