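import Pool.Agent.U154.UT.Cy
import Pool.Agent.W819.EN.OneP
import Pool.Agent.W762.EN.Int
import Pool.Agent.H863R2.NL.Inf

/-!
Exponential moments of the number of changes, `t > 1`, up to constants.
-/

set_option autoImplicit false

namespace Pool.Agent.U154.UT

open H974 H906.Cyl Finset Pool.Agent.W819.EN Real MeasureTheory
open Pool.Agent.H863R2.NL (EN ET TT ET_mono ET_const ET_le_ET ET_mul changes int_changes EN_mul)

theorem ET_T (R : ℕ) (g : ℕ → ℝ) : ET R g = Ex P2 (B R) (fun F => g (T R F)) := ET_eq R g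

theorem ET_T' (R : ℕ) (g : ℕ → ℝ) : ET (2 * R) g = Ex P2 (B (2 * R)) (fun F => g (T (2 * R) F)) := by
  rw [ET_T]
  push_cast
  rfl

/-- the hypotheses for the powers -/
theorem hyp_pow {t : ℝ} (ht : 1 ≤ t) :
    Hyp t (fun m => t ^ m) (fun b z => t ^ z * ET (2 * b) (fun m => t ^ m)) where
  mono := fun _ _ hab => pow_le_pow_right₀ ht hab
  nn := fun x => by positivity
  up := by
    intro b z _
    rw [ET_T', ← Ex_mul_left]
    refine le_of_eq (Ex_congr fun F _ => ?_)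
    rw [pow_add, mul_comm]
  sh := by
    intro b z w _
    rw [pow_add]
    exact le_of_eq (by ring)
  inc := by
    intro b b' z _ hb
    refine mul_le_mul_of_nonneg_left (ET_mono (by omega) ?_) (by positivity)
    exact fun _ _ hab => pow_le_pow_right₀ ht hab

/-- lower bound for the exponential moments -/
theorem mom_low {t : ℝ} (ht : 1 < t) : ∃ c : ℝ, 0 < c ∧ ∀ n : ℕ, 1 ≤ n →
    c * (n : ℝ) ^ Psi t ≤ ET n (fun m => t ^ m) := by
  have ht0 : 0 < t := by linarith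
  obtain ⟨c1, C1, hc1, hC1, h1⟩ := Cyl.cyl Pool.Agent.W762.EN.t_INT ht0
  obtain ⟨K, hK, hup⟩ := cyl_up ht.le
  have hmono : Monotone (fun m : ℕ => t ^ m) := fun _ _ hab => pow_le_pow_right₀ ht.le hab
  obtain ⟨x, hx⟩ : ∃ x, x = Psi t := ⟨_, rfl⟩
  rw [← hx] at h1 ⊢
  refine ⟨min ((36:ℝ) ^ (-|x|)) (c1 / (t + K) * 3 ^ (-|x|)), by positivity, fun n hn => ?_⟩
  have hn1 : (1 : ℝ) ≤ n := by exact_mod_cast hn
  have hnp : 0 < (n : ℝ) ^ x := by positivity
  rcases Nat.lt_or_ge n 36 with hs | hs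
  · have k1 : (1 : ℝ) ≤ ET n (fun m => t ^ m) := by
      rw [← ET_const n 1]
      exact ET_le_ET fun m => one_le_pow₀ ht.le
    have hs' : (n : ℝ) ≤ 36 := by exact_mod_cast hs.le
    have k2 : (n : ℝ) ^ x ≤ (36:ℝ) ^ |x| :=
      (Real.rpow_le_rpow_of_exponent_le hn1 (le_abs_self x)).trans
        (Real.rpow_le_rpow (by positivity) hs' (abs_nonneg x))
    calc min ((36:ℝ) ^ (-|x|)) (c1 / (t + K) * 3 ^ (-|x|)) * (n : ℝ) ^ x
        ≤ (36:ℝ) ^ (-|x|) * (36:ℝ) ^ |x| := by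
          apply mul_le_mul (min_le_left _ _) k2 hnp.le (by positivity)
      _ = 1 := by
          rw [← Real.rpow_add (by norm_num)]
          simp
      _ ≤ _ := k1
  · obtain ⟨a, ha⟩ : ∃ a, a = n / 4 := ⟨_, rfl⟩
    have ha9 : 9 ≤ a := by omega
    have k0 := hup _ _ (hyp_pow ht.le) a 0 0 ha9
    have k1 := (h1 (10 * a) (by omega)).1
    simp only [add_zero, pow_zero, mul_one, one_mul, mul_zero, zero_add] at k0
    have e1 : ET (4 * a) (fun m => t ^ (m + 1)) = t * ET (4 * a) (fun m => t ^ m) := by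
      rw [← ET_mul]
      congr 1
      funext m
      rw [pow_succ]
      ring
    rw [e1, show 2 * (2 * a) = 4 * a by ring] at k0
    have k2 : ET (4 * a) (fun m => t ^ m) ≤ ET n (fun m => t ^ m) := ET_mono (by omega) hmono
    have hn1' : (n : ℝ) ≤ ((10 * a : ℕ) : ℝ) := by exact_mod_cast (by omega : n ≤ 10 * a)
    have hn2 : ((10 * a : ℕ) : ℝ) ≤ 3 * n := by exact_mod_cast (by omega : 10 * a ≤ 3 * n)
    have k3 : (3 : ℝ) ^ (-|x|) * (n : ℝ) ^ x ≤ ((10 * a : ℕ) : ℝ) ^ x := by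
      rcases le_total 0 x with h0 | h0
      · have : (3 : ℝ) ^ (-|x|) ≤ 1 :=
          Real.rpow_le_one_of_one_le_of_nonpos (by norm_num) (by simp)
        calc (3 : ℝ) ^ (-|x|) * (n : ℝ) ^ x ≤ 1 * (n : ℝ) ^ x :=
              mul_le_mul_of_nonneg_right this hnp.le
          _ = (n : ℝ) ^ x := one_mul _
          _ ≤ _ := Real.rpow_le_rpow (by positivity) hn1' h0
      · rw [abs_of_nonpos h0, neg_neg, ← Real.mul_rpow (by norm_num) (by positivity)]
        exact Real.rpow_le_rpow_of_nonpos (by positivity) hn2 h0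
    have k4 : c1 * ((10 * a : ℕ) : ℝ) ^ x ≤ (t + K) * ET (4 * a) (fun m => t ^ m) := by linarith
    have k5 : c1 / (t + K) * ((10 * a : ℕ) : ℝ) ^ x ≤ ET (4 * a) (fun m => t ^ m) := by
      rw [div_mul_eq_mul_div, div_le_iff₀ (by positivity)]
      linarith
    calc min ((36:ℝ) ^ (-|x|)) (c1 / (t + K) * 3 ^ (-|x|)) * (n : ℝ) ^ x
        ≤ (c1 / (t + K) * 3 ^ (-|x|)) * (n : ℝ) ^ x :=
          mul_le_mul_of_nonneg_right (min_le_right _ _) hnp.le
      _ = c1 / (t + K) * (3 ^ (-|x|) * (n : ℝ) ^ x) := by ring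
      _ ≤ c1 / (t + K) * ((10 * a : ℕ) : ℝ) ^ x := mul_le_mul_of_nonneg_left k3 (by positivity)
      _ ≤ _ := k5.trans k2

/-- the exponential moments up to constants, `t > 1` -/
theorem moments {t : ℝ} (ht : 1 < t) : ∃ c C : ℝ, 0 < c ∧ 0 < C ∧ ∀ n : ℕ, 1 ≤ n →
    c * (n : ℝ) ^ Psi t ≤ ∫ ω, t ^ changes n ω ∂(bondLaw hlf) ∧
    ∫ ω, t ^ changes n ω ∂(bondLaw hlf) ≤ C * (n : ℝ) ^ Psi t := by
  obtain ⟨c, hc, h1⟩ := mom_low ht
  obtain ⟨C, hC, h2⟩ := OneP.up Pool.Agent.W762.EN.t_INT (s := log t) (log_pos ht)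
  refine ⟨c, C, hc, hC, fun n hn => ?_⟩
  rw [int_changes n (fun m => t ^ m)]
  refine ⟨h1 n hn, ?_⟩
  have h3 := h2 n hn
  have e1 : Real.exp (Real.log t) = t := Real.exp_log (by linarith)
  have e2 : Pool.Agent.W819.EN.Lam (Real.log t) = Psi t := by unfold Pool.Agent.W819.EN.Lam; rw [e1]
  rw [e1, e2] at h3
  exact h3

end Pool.Agent.U154.UT
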