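import Pool.Agent.U154.UT.Cg
import Pool.Agent.U154.UT.Mo
import Pool.Agent.W933.EN.LegB

/-!
Upper tails in the plane, uniformly in the tilt.
-/

set_option autoImplicit false

namespace Pool.Agent.U154.UT

open MeasureTheory Real Filter Topology H974 Finset H906.Cyl
open Pool.Agent.H863R2.NL (EN ET IsPs cN vN ET_mono ET_const ET_le_ET ET_le changes prob_changes)
open Pool.Agent.H450R4.NL (Ph qt tilt_coef)
open Pool.Agent.W819.EN (dL nuc P2 LegA LegB Rate Lam gam)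

theorem legB : LegB := Pool.Agent.W933.EN.t_LEGB legA

theorem Lm_zero : Lm 0 = 0 := legA.zero

theorem dL_zero : dL 0 = cN := by rw [legA.typ, nuc_eq]

theorem Lm_ge (h : ℝ) : cN * h ≤ Lm h := by
  have := Pool.Agent.W933.EN.conv legA 0 h
  rw [dL_zero, legA.zero] at this
  unfold Lm
  linarith

theorem Lm_mono {h H : ℝ} (hh : h ≤ H) : Lm h ≤ Lm H := by
  have h1 := Pool.Agent.W933.EN.conv legA h H
  have h2 := Pool.Agent.W933.EN.dL_pos legA h
  unfold Lm
  nlinarith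

theorem sqrt_x0 : √x0 = 1 / (2 * cN) := by
  have h := cN_pos'
  rw [sqrt_eq_iff_mul_self_eq (x0_pos.le) (by positivity)]
  unfold x0
  field_simp
  norm_num

/-- the profile -/
noncomputable def pf0 (h y : ℝ) : ℝ := exp (Lm h * y) / (1 + h * √(y + x0))

theorem pf0_pos {h : ℝ} (h0 : 0 ≤ h) (y : ℝ) : 0 < pf0 h y := by
  unfold pf0
  positivity

theorem pf0_mono {h : ℝ} (h0 : 0 ≤ h) {x y : ℝ} (hx : 0 ≤ x) (hxy : x ≤ y) :
    pf0 h x ≤ pf0 h y := by
  have hc := cN_pos'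
  have hx0 := x0_pos
  unfold pf0
  have hd : 0 < 1 + h * √(x + x0) := by positivity
  have hd' : 0 < 1 + h * √(y + x0) := by positivity
  rw [div_le_div_iff₀ hd hd']
  -- the increment of the square root
  have h1 : √(y + x0) - √(x + x0) ≤ cN * (y - x) := by
    have a1 : √x0 ≤ √(x + x0) := sqrt_le_sqrt (by linarith)
    have a2 : √(x + x0) ≤ √(y + x0) := sqrt_le_sqrt (by linarith)
    have a3 : √(x + x0) ^ 2 = x + x0 := sq_sqrt (by linarith)
    have a4 : √(y + x0) ^ 2 = y + x0 := sq_sqrt (by linarith)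
    rw [sqrt_x0] at a1
    have a5 : (√(y + x0) - √(x + x0)) * (√(y + x0) + √(x + x0)) = y - x := by
      have : (√(y + x0) - √(x + x0)) * (√(y + x0) + √(x + x0)) =
          √(y + x0) ^ 2 - √(x + x0) ^ 2 := by ring
      rw [this, a3, a4]
      ring
    have a6 : 1 / cN ≤ √(y + x0) + √(x + x0) := by
      have : 1 / cN = 1 / (2 * cN) + 1 / (2 * cN) := by field_simp; norm_num
      linarith
    have a7 : (√(y + x0) - √(x + x0)) * (1 / cN) ≤ y - x := by
      rw [← a5]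
      exact mul_le_mul_of_nonneg_left a6 (by linarith)
    rw [mul_one_div, div_le_iff₀ hc] at a7
    linarith
  have h2 : 1 + h * √(y + x0) ≤ (1 + h * √(x + x0)) * exp (cN * h * (y - x)) := by
    have b1 := add_one_le_exp (cN * h * (y - x))
    have b2 : 0 ≤ cN * h * (y - x) := mul_nonneg (mul_nonneg hc.le h0) (by linarith)
    have b3 : 1 + h * √(y + x0) ≤ 1 + h * √(x + x0) + cN * h * (y - x) := by
      have := mul_le_mul_of_nonneg_left h1 h0
      nlinarith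
    have b4 : 0 ≤ h * √(x + x0) := by positivity
    calc 1 + h * √(y + x0) ≤ 1 + h * √(x + x0) + cN * h * (y - x) := b3
      _ ≤ (1 + h * √(x + x0)) * (cN * h * (y - x) + 1) := by nlinarith [mul_nonneg b4 b2]
      _ ≤ _ := mul_le_mul_of_nonneg_left b1 hd.le
  have h3 : exp (cN * h * (y - x)) ≤ exp (Lm h * (y - x)) := by
    apply exp_le_exp.2
    exact mul_le_mul_of_nonneg_right (Lm_ge h) (by linarith)
  calc exp (Lm h * x) * (1 + h * √(y + x0)) ≤
      exp (Lm h * x) * ((1 + h * √(x + x0)) * exp (Lm h * (y - x))) := by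
        apply mul_le_mul_of_nonneg_left _ (exp_pos _).le
        exact h2.trans (mul_le_mul_of_nonneg_left h3 hd.le)
    _ = (exp (Lm h * x) * exp (Lm h * (y - x))) * (1 + h * √(x + x0)) := by ring
    _ = _ := by
        rw [← exp_add]
        congr 2
        ring

theorem pf_eq0 (h M : ℝ) (y : ℝ) : exp (-(h * M) + Lm h * y) / (1 + h * √(y + x0)) =
    exp (-(h * M)) * pf0 h y := by
  unfold pf0
  rw [exp_add]
  ring

/-- the upper bound in the plane -/
theorem pl_up {H C c : ℝ} {ps : ℕ → Multiset ℝ} (hH : 0 < H) (hT : Tilts H C c ps) :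
    ∃ K : ℝ, 0 < K ∧ ∀ n : ℕ, 1 ≤ n → ∀ h, 0 ≤ h → h ≤ H → ∀ M : ℕ,
      ET n (fun m => ind (M ≤ m)) ≤ K * (exp (-(h * M)) * pf0 h (log n)) := by
  obtain ⟨K, hK, h1⟩ := cyl_tail_le hH hT
  refine ⟨K * exp (Lm H * log 3), by positivity, ?_⟩
  intro n hn h h0 hhH M
  have hm : Monotone (fun m : ℕ => ind (M ≤ m)) := by
    intro a b hab
    show ind (M ≤ a) ≤ ind (M ≤ b)
    by_cases hM : M ≤ a
    · rw [ind_of hM, ind_of (hM.trans hab)]
    · rw [ind_not_of hM]; exact ind_nonneg _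
  have h2 := ET_le (n := 2 * n + 1) (k := n) (by omega) hm
  have h3 := h1 (2 * n + 1) (by omega) h h0 hhH M
  rw [pf_eq0] at h3
  refine (h2.trans h3).trans ?_
  rw [mul_assoc]
  apply mul_le_mul_of_nonneg_left _ hK.le
  have hn0 : (0:ℝ) < n := by exact_mod_cast (by omega : 0 < n)
  have hn1 : (1:ℝ) ≤ n := by exact_mod_cast hn
  have hl : 0 ≤ log (n:ℝ) := log_nonneg hn1
  have hx0 := x0_pos
  have h4 : log ((2 * n + 1 : ℕ) : ℝ) ≤ log n + log 3 := by
    rw [← log_mul hn0.ne' (by norm_num)]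
    apply log_le_log (by positivity)
    push_cast
    linarith
  have h5 : log (n:ℝ) ≤ log ((2 * n + 1 : ℕ) : ℝ) := by
    apply log_le_log hn0
    push_cast
    linarith
  have hL0 : 0 ≤ Lm h := (mul_nonneg cN_pos'.le h0).trans (Lm_ge h)
  have hL1 := Lm_mono hhH
  have h6 : pf0 h (log ((2 * n + 1 : ℕ) : ℝ)) ≤ exp (Lm H * log 3) * pf0 h (log n) := by
    unfold pf0
    rw [← mul_div_assoc, ← exp_add]
    apply div_le_div₀ (exp_pos _).le _ (by positivity)
    · have := sqrt_le_sqrt (show log (n:ℝ) + x0 ≤ log ((2 * n + 1 : ℕ) : ℝ) + x0 by linarith)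
      have := mul_le_mul_of_nonneg_left this h0
      linarith
    · apply exp_le_exp.2
      have l3 : 0 ≤ log (3:ℝ) := log_nonneg (by norm_num)
      have a1 := mul_le_mul_of_nonneg_left h4 hL0
      have a2 := mul_le_mul_of_nonneg_right hL1 l3
      nlinarith
  calc exp (-(h * M)) * pf0 h (log ((2 * n + 1 : ℕ) : ℝ)) ≤
      exp (-(h * M)) * (exp (Lm H * log 3) * pf0 h (log n)) :=
        mul_le_mul_of_nonneg_left h6 (exp_pos _).le
    _ = _ := by ring

/-- the hypotheses for the indicator functions -/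
theorem hyp_ind {H K : ℝ} (hH : 0 < H) (hK : 0 < K)
    (h1 : ∀ n : ℕ, 1 ≤ n → ∀ h, 0 ≤ h → h ≤ H → ∀ M : ℕ,
      ET n (fun m => ind (M ≤ m)) ≤ K * (exp (-(h * M)) * pf0 h (log n)))
    {h : ℝ} (h0 : 0 ≤ h) (hhH : h ≤ H) (M : ℕ) :
    Hyp (exp H) (fun m => ind (M ≤ m))
      (fun b z => K * (exp (h * z) * exp (-(h * M)) * pf0 h (log ((2 * b : ℕ) : ℝ)))) where
  mono := by
    intro a b hab
    show ind (M ≤ a) ≤ ind (M ≤ b)
    by_cases hM : M ≤ a
    · rw [ind_of hM, ind_of (hM.trans hab)]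
    · rw [ind_not_of hM]; exact ind_nonneg _
  nn := fun x => ind_nonneg _
  up := by
    intro b z hb
    have h2 := h1 (2 * b) (by omega) h h0 hhH (M - z)
    rw [ET_T'] at h2
    have e1 : Ex P2 (B (2 * b)) (fun F => ind (M ≤ T (2 * b) F + z)) =
        Ex P2 (B (2 * b)) (fun F => ind (M - z ≤ T (2 * b) F)) := by
      apply Ex_congr
      intro F _
      exact ind_congr (by omega)
    rw [e1]
    refine h2.trans ?_
    apply mul_le_mul_of_nonneg_left _ hK.le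
    apply mul_le_mul_of_nonneg_right _ (pf0_pos h0 _).le
    rw [← exp_add]
    apply exp_le_exp.2
    have h3 : (M : ℝ) - z ≤ ((M - z : ℕ) : ℝ) := by
      rw [sub_le_iff_le_add]
      exact_mod_cast (by omega : M ≤ M - z + z)
    have := mul_le_mul_of_nonneg_left h3 h0
    linarith
  sh := by
    intro b z w hb
    have h3 : exp (h * ((z + w : ℕ) : ℝ)) ≤ exp H ^ w * exp (h * z) := by
      rw [← exp_nat_mul, ← exp_add]
      apply exp_le_exp.2
      push_cast
      have : h * (w:ℝ) ≤ H * w := mul_le_mul_of_nonneg_right hhH (Nat.cast_nonneg w)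
      linarith
    have h4 := pf0_pos h0 (log ((2 * b : ℕ) : ℝ))
    calc K * (exp (h * ((z + w : ℕ) : ℝ)) * exp (-(h * M)) * pf0 h (log ((2 * b : ℕ) : ℝ))) =
        exp (h * ((z + w : ℕ) : ℝ)) * (K * (exp (-(h * M)) * pf0 h (log ((2 * b : ℕ) : ℝ)))) := by
          ring
      _ ≤ (exp H ^ w * exp (h * z)) *
          (K * (exp (-(h * M)) * pf0 h (log ((2 * b : ℕ) : ℝ)))) :=
          mul_le_mul_of_nonneg_right h3 (by positivity)
      _ = _ := by ring
  inc := by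
    intro b b' z hb hbb
    apply mul_le_mul_of_nonneg_left _ hK.le
    apply mul_le_mul_of_nonneg_left _ (by positivity)
    apply pf0_mono h0
    · apply log_nonneg
      exact_mod_cast (by omega : 1 ≤ 2 * b)
    · apply log_le_log
      · exact_mod_cast (by omega : 0 < 2 * b)
      · exact_mod_cast (by omega : 2 * b ≤ 2 * b')

/-- the lower bound in the plane -/
theorem pl_low {H C c : ℝ} {ps : ℕ → Multiset ℝ} (hH : 0 < H) (hT : Tilts H C c ps) :
    ∃ k : ℝ, 0 < k ∧ ∀ᶠ n : ℕ in atTop, ∀ h, 0 ≤ h → h ≤ H → ∀ M : ℕ,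
      |dL h * log n - M| ≤ 1 →
      k * (exp (-(h * M)) * pf0 h (log n)) ≤ ET n (fun m => ind (M ≤ m)) := by
  obtain ⟨K, hK, h1⟩ := pl_up hH hT
  obtain ⟨k0, hk0, h2⟩ := cyl_tail_ge hH hT
  obtain ⟨K', hK', h3⟩ := cyl_up (t := exp H) (one_le_exp hH.le)
  obtain ⟨κ, hκ⟩ : ∃ κ : ℕ, K' * (1 / 2) ^ κ * K ≤ k0 / 2 := by
    obtain ⟨κ, hκ⟩ := exists_pow_lt_of_lt_one (show 0 < k0 / 2 / (K' * K) by positivity)
      (show (1 / 2 : ℝ) < 1 by norm_num)
    refine ⟨κ, ?_⟩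
    rw [lt_div_iff₀ (by positivity)] at hκ
    linarith
  obtain ⟨D, hD⟩ : ∃ D : ℝ, D = 1 + dL H * log 3 + (1 + 10 * κ) := ⟨_, rfl⟩
  have hdH := Pool.Agent.W933.EN.dL_pos legA H
  have l3 : 0 ≤ log (3:ℝ) := log_nonneg (by norm_num)
  have hD0 : 0 ≤ D := by rw [hD]; positivity
  obtain ⟨n1, hn1⟩ := eventually_atTop.1 (h2 D hD0)
  refine ⟨k0 / 2 * exp (-(H * (1 + 10 * κ))), by positivity, ?_⟩
  filter_upwards [eventually_ge_atTop (max 36 n1)] with n hn
  have hn36 : 36 ≤ n := (le_max_left _ _).trans hn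
  have hnn1 : n1 ≤ n := (le_max_right _ _).trans hn
  intro h h0 hhH M hM
  obtain ⟨a, ha⟩ : ∃ a, a = n / 4 := ⟨_, rfl⟩
  have ha9 : 9 ≤ a := by omega
  obtain ⟨M', hM'⟩ : ∃ M', M' = M + (1 + 10 * κ) := ⟨_, rfl⟩
  have hmono : Monotone (fun m : ℕ => ind (M ≤ m)) := by
    intro a b hab
    show ind (M ≤ a) ≤ ind (M ≤ b)
    by_cases hM : M ≤ a
    · rw [ind_of hM, ind_of (hM.trans hab)]
    · rw [ind_not_of hM]; exact ind_nonneg _
  have k1 := h3 _ _ (hyp_ind hH hK h1 h0 hhH M') a κ 0 ha9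
  simp only [add_zero, zero_add] at k1
  have e1 : ET (4 * a) (fun m => ind (M' ≤ m + (1 + 10 * κ))) = ET (4 * a) (fun m => ind (M ≤ m)) := by
    congr 1
    funext m
    exact ind_congr (by omega)
  rw [e1, show 2 * (2 * a) = 4 * a by ring] at k1
  have k2 : ET (4 * a) (fun m => ind (M ≤ m)) ≤ ET n (fun m => ind (M ≤ m)) :=
    ET_mono (by omega) hmono
  have hnR : (36:ℝ) ≤ n := by exact_mod_cast hn36
  have hn0 : (0:ℝ) < n := by linarith
  have q1 : (n : ℝ) ≤ ((10 * a : ℕ) : ℝ) := by exact_mod_cast (by omega : n ≤ 10 * a)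
  have q2 : ((10 * a : ℕ) : ℝ) ≤ 3 * n := by exact_mod_cast (by omega : 10 * a ≤ 3 * n)
  have q3 : log (n:ℝ) ≤ log ((10 * a : ℕ) : ℝ) := log_le_log hn0 q1
  have q4 : log ((10 * a : ℕ) : ℝ) ≤ log 3 + log n := by
    rw [← log_mul (by norm_num) hn0.ne']
    exact log_le_log (by linarith) q2
  have hln : 0 ≤ log (n:ℝ) := log_nonneg (by linarith)
  have k3 : |dL h * log ((10 * a : ℕ) : ℝ) - M'| ≤ D := by
    have hd1 : dL h ≤ dL H := legA.mono.monotone hhH
    have hd0 := Pool.Agent.W933.EN.dL_pos legA h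
    have e2 : dL h * log ((10 * a : ℕ) : ℝ) - M' =
        (dL h * log n - M) + dL h * (log ((10 * a : ℕ) : ℝ) - log n) - (1 + 10 * κ) := by
      rw [hM']
      push_cast
      ring
    have a1 : 0 ≤ dL h * (log ((10 * a : ℕ) : ℝ) - log n) := mul_nonneg hd0.le (by linarith)
    have a2 : dL h * (log ((10 * a : ℕ) : ℝ) - log n) ≤ dL H * log 3 :=
      mul_le_mul hd1 (by linarith) (by linarith) hdH.le
    have a3 := abs_le.1 hM
    have a4 : (0:ℝ) ≤ 1 + 10 * κ := by positivity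
    rw [e2, abs_le, hD]
    constructor
    · have : 0 ≤ dL H * log 3 := by positivity
      linarith
    · linarith
  have k4 := hn1 (10 * a) (by omega) h h0 hhH M' k3
  rw [pf_eq0] at k4
  have p1 : pf0 h (log ((4 * a : ℕ) : ℝ)) ≤ pf0 h (log ((10 * a : ℕ) : ℝ)) := by
    apply pf0_mono h0
    · apply log_nonneg
      exact_mod_cast (by omega : 1 ≤ 4 * a)
    · apply log_le_log
      · exact_mod_cast (by omega : 0 < 4 * a)
      · exact_mod_cast (by omega : 4 * a ≤ 10 * a)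
  have p2 : pf0 h (log n) ≤ pf0 h (log ((10 * a : ℕ) : ℝ)) := pf0_mono h0 hln q3
  obtain ⟨E, hE⟩ : ∃ E, E = exp (-(h * M')) * pf0 h (log ((10 * a : ℕ) : ℝ)) := ⟨_, rfl⟩
  have hE0 : 0 < E := by rw [hE]; exact mul_pos (exp_pos _) (pf0_pos h0 _)
  have k5 : K' * (1 / 2) ^ κ * (K * (exp (h * ((0:ℕ):ℝ)) * exp (-(h * M')) *
      pf0 h (log ((4 * a : ℕ) : ℝ)))) ≤ k0 / 2 * E := by
    have : exp (h * ((0:ℕ):ℝ)) * exp (-(h * M')) * pf0 h (log ((4 * a : ℕ) : ℝ)) ≤ E := by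
      rw [hE]
      simp only [Nat.cast_zero, mul_zero, exp_zero, one_mul]
      exact mul_le_mul_of_nonneg_left p1 (exp_pos _).le
    calc K' * (1 / 2) ^ κ * (K * (exp (h * ((0:ℕ):ℝ)) * exp (-(h * M')) *
          pf0 h (log ((4 * a : ℕ) : ℝ)))) = K' * (1 / 2) ^ κ * K * (exp (h * ((0:ℕ):ℝ)) *
          exp (-(h * M')) * pf0 h (log ((4 * a : ℕ) : ℝ))) := by ring
      _ ≤ K' * (1 / 2) ^ κ * K * E := mul_le_mul_of_nonneg_left this (by positivity)
      _ ≤ _ := mul_le_mul_of_nonneg_right hκ hE0.le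
  rw [← hE] at k4
  have k6 : k0 / 2 * E ≤ ET n (fun m => ind (M ≤ m)) := by linarith
  refine le_trans ?_ k6
  have k7 : exp (-(H * (1 + 10 * κ))) * (exp (-(h * M)) * pf0 h (log n)) ≤ E := by
    rw [hE, ← mul_assoc, ← exp_add]
    apply mul_le_mul _ p2 (pf0_pos h0 _).le (exp_pos _).le
    apply exp_le_exp.2
    rw [hM']
    push_cast
    have : h * (1 + 10 * (κ:ℝ)) ≤ H * (1 + 10 * κ) :=
      mul_le_mul_of_nonneg_right hhH (by positivity)
    linarith
  calc k0 / 2 * exp (-(H * (1 + 10 * κ))) * (exp (-(h * M)) * pf0 h (log n)) =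
      k0 / 2 * (exp (-(H * (1 + 10 * κ))) * (exp (-(h * M)) * pf0 h (log n))) := by ring
    _ ≤ _ := mul_le_mul_of_nonneg_left k7 (by positivity)

end Pool.Agent.U154.UT
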