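import Pool.Agent.U154.UT.Ct

/-!
Lower bound for the upper tails on the cylinder, uniformly in the tilt.
-/

set_option autoImplicit false

namespace Pool.Agent.U154.UT

open MeasureTheory Real Filter Topology H974 Finset
open Pool.Agent.H863R2.NL (EN IsPs cN vN mu mu_nonneg fN EN_mul EN_const)
open Pool.Agent.H450R4.NL (Ph qt tilt_coef)
open Pool.Agent.W819.EN (dL nuc)

theorem cyl_tail_ge {H C c : ℝ} {ps : ℕ → Multiset ℝ} (hH : 0 < H) (hT : Tilts H C c ps) :
    ∃ k0 : ℝ, 0 < k0 ∧ ∀ D : ℝ, 0 ≤ D → ∀ᶠ n : ℕ in atTop, ∀ h, 0 ≤ h → h ≤ H → ∀ M : ℕ,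
      |dL h * log n - M| ≤ D →
      k0 * (exp (-(h * M) + Lm h * log n) / (1 + h * √(log n + x0))) ≤
        EN n (fun m => ind (M ≤ m)) := by
  have hC0 := hT.C0
  have hx0 := x0_pos
  obtain ⟨v1, v2, hv1, hv2, hV⟩ := V_bd hT
  have hLog : Tendsto (fun n : ℕ => log (n : ℝ)) atTop atTop :=
    tendsto_log_atTop.comp tendsto_natCast_atTop_atTop
  obtain ⟨c1, hc1⟩ : ∃ c1 : ℝ, c1 = exp (-1) / √(2 * π) := ⟨_, rfl⟩
  have hc1p : 0 < c1 := by rw [hc1]; positivity
  obtain ⟨w, hw⟩ : ∃ w : ℝ, w = 1 + √v2 := ⟨_, rfl⟩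
  have hw1 : 1 ≤ w := by rw [hw]; linarith [sqrt_nonneg v2]
  have hw2 : √v2 ≤ w := by rw [hw]; linarith
  refine ⟨exp (-1) * (c1 / 2) * exp (-(C * H)) / w, by positivity, ?_⟩
  intro D hD
  filter_upwards [cyl_llt hT (ε := c1 / 2) (by positivity), hV,
    hLog.eventually_ge_atTop ((3 * (C + D)) ^ 2 / v1), hLog.eventually_ge_atTop 1,
    eventually_ge_atTop 1] with n k1 k2 k3 k4 hn
  intro h h0 hhH M hM
  have hh : |h| ≤ H := by rwa [abs_of_nonneg h0]
  obtain ⟨μ, hμ⟩ : ∃ μ, μ = ((ps n).map (qt (exp h))).sum := ⟨_, rfl⟩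
  obtain ⟨V, hVd⟩ : ∃ V, V = (((ps n).map (qt (exp h))).map (fun q => q * (1 - q))).sum :=
    ⟨_, rfl⟩
  have k5 := k2 h hh V hVd
  have hL : 0 < log (n : ℝ) := by linarith
  have hVp : 0 < V := lt_of_lt_of_le (by positivity) k5.1
  obtain ⟨s, hs⟩ : ∃ s, s = √V := ⟨_, rfl⟩
  have hs0 : 0 < s := by rw [hs]; exact sqrt_pos.2 hVp
  have hs2 : s ^ 2 = V := by rw [hs]; exact sq_sqrt hVp.le
  have hsC : 3 * (C + D) ≤ s := by
    rw [hs]
    apply le_sqrt_of_sq_le
    rw [div_le_iff₀ hv1] at k3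
    linarith [k5.1]
  have hZ0 : 0 < Zc n h := by rw [Zc_eq (hT.isps n hn) h]; exact exp_pos _
  have hZ : exp (-(C * H)) * exp (Lm h * log n) ≤ Zc n h := by
    rw [Zc_eq (hT.isps n hn) h, ← exp_add]
    apply exp_le_exp.2
    have h1 := (abs_le.1 (hT.lg h hh n hn)).1
    have h2 : C * |h| ≤ C * H := mul_le_mul_of_nonneg_left hh hC0
    linarith
  have hmean := hT.mean h hh n hn
  rw [← hμ] at hmean
  have h1hs : 0 < 1 + h * s := by positivity
  obtain ⟨J, hJ⟩ : ∃ J : ℕ, J = ⌈s / (1 + h * s)⌉₊ := ⟨_, rfl⟩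
  have hJ1 : s / (1 + h * s) ≤ J := by rw [hJ]; exact Nat.le_ceil _
  have key : ∀ j ∈ Finset.range J, exp (-(h * M)) * exp (-1) * (Zc n h * (c1 / 2 / s)) ≤
      exp (-(h * ((M + j : ℕ) : ℝ))) * lc n h (M + j) := by
    intro j hj
    have hj1 : (j : ℝ) < s / (1 + h * s) := by
      rw [mem_range, hJ, Nat.lt_ceil] at hj
      exact hj
    have hj0 : (0:ℝ) ≤ j := Nat.cast_nonneg j
    rw [lt_div_iff₀ h1hs] at hj1
    have hj2 : (j : ℝ) ≤ s := by nlinarith [mul_nonneg hj0 (mul_nonneg h0 hs0.le)]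
    have hj3 : h * j ≤ 1 := by
      have : (h * j) * s ≤ 1 * s := by nlinarith
      exact le_of_mul_le_mul_right this hs0
    have e1 : exp (-(h * M)) * exp (-1) ≤ exp (-(h * ((M + j : ℕ) : ℝ))) := by
      rw [← exp_add]
      apply exp_le_exp.2
      push_cast
      linarith
    have e2 : Zc n h * (c1 / 2 / s) ≤ lc n h (M + j) := by
      have h1 := (abs_le.1 (k1 h hh (M + j) μ V hμ hVd)).1
      rw [← hs] at h1
      have h2 : (μ - ((M + j : ℕ) : ℝ)) ^ 2 / (2 * V) ≤ 1 := by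
        rw [div_le_one (by positivity), ← hs2]
        have h3 : |μ - ((M + j : ℕ) : ℝ)| ≤ C + D + s := by
          push_cast
          have h4 := abs_le.1 hmean
          have h5 := abs_le.1 hM
          rw [abs_le]
          constructor <;> linarith
        have h6 : (μ - ((M + j : ℕ) : ℝ)) ^ 2 ≤ (C + D + s) ^ 2 := sq_le_sq' (by linarith [abs_le.1 h3]) (abs_le.1 h3).2
        have h7 : C + D + s ≤ 4 / 3 * s := by linarith
        have h8 : (C + D + s) ^ 2 ≤ (4 / 3 * s) ^ 2 := by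
          apply pow_le_pow_left₀ (by positivity) h7
        nlinarith [sq_nonneg s]
      have h9 : c1 / s ≤ exp (-((μ - ((M + j : ℕ) : ℝ)) ^ 2 / (2 * V))) / √(2 * π * V) := by
        rw [sqrt_mul (by positivity), ← hs, hc1, div_div]
        apply div_le_div_of_nonneg_right _ (by positivity)
        apply exp_le_exp.2
        linarith
      have h10 : c1 / 2 / s ≤ lc n h (M + j) / Zc n h := by
        have : c1 / s = c1 / 2 / s + c1 / 2 / s := by ring
        linarith
      rw [le_div_iff₀ hZ0] at h10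
      linarith
    exact mul_le_mul e1 e2 (by positivity) (exp_pos _).le
  have hsum := Finset.sum_le_sum key
  rw [Finset.sum_const, card_range, nsmul_eq_mul] at hsum
  refine le_trans ?_ (hsum.trans (up_ge n M J h))
  have f1 : s / (1 + h * s) * (exp (-(h * M)) * exp (-1) * (Zc n h * (c1 / 2 / s))) ≤
      (J : ℝ) * (exp (-(h * M)) * exp (-1) * (Zc n h * (c1 / 2 / s))) :=
    mul_le_mul_of_nonneg_right hJ1 (by positivity)
  refine le_trans ?_ f1
  have f2 : s / (1 + h * s) * (exp (-(h * M)) * exp (-1) * (Zc n h * (c1 / 2 / s))) =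
      exp (-(h * M)) * exp (-1) * (c1 / 2) * Zc n h / (1 + h * s) := by
    field_simp
  rw [f2]
  have f3 : 1 + h * s ≤ w * (1 + h * √(log n + x0)) := by
    have g1 : s ≤ w * √(log n + x0) := by
      calc s = √V := hs
        _ ≤ √(v2 * log n) := sqrt_le_sqrt k5.2
        _ = √v2 * √(log n) := by rw [sqrt_mul hv2.le]
        _ ≤ w * √(log n + x0) := by
          apply mul_le_mul hw2 _ (sqrt_nonneg _) (by linarith)
          apply sqrt_le_sqrt
          linarith
    have g2 : h * s ≤ h * (w * √(log n + x0)) := mul_le_mul_of_nonneg_left g1 h0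
    nlinarith
  have f4 : 0 < 1 + h * √(log n + x0) := by positivity
  calc exp (-1) * (c1 / 2) * exp (-(C * H)) / w *
        (exp (-(h * M) + Lm h * log n) / (1 + h * √(log n + x0)))
      = exp (-(h * M)) * exp (-1) * (c1 / 2) * (exp (-(C * H)) * exp (Lm h * log n)) /
        (w * (1 + h * √(log n + x0))) := by
        rw [exp_add]
        field_simp
    _ ≤ exp (-(h * M)) * exp (-1) * (c1 / 2) * Zc n h / (1 + h * s) := by
        apply div_le_div₀ (by positivity) _ h1hs f3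
        exact mul_le_mul_of_nonneg_left hZ (by positivity)

end Pool.Agent.U154.UT
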