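import Pool.Agent.U154.UT.Lk

/-!
Decoupling: the number of changes inside a box and the edges outside half of the box.
-/

set_option autoImplicit false

namespace Pool.Agent.U154.UT

open H974 Finset Pool.Agent.W819.EN Real

/-- pointwise bound -/
theorem pt {b κ N : ℕ} (hb : 1 ≤ b) (hN : ∀ k, N ≤ k → ∀ F, Lk b k F) {h : ℕ → ℝ}
    (hm : Monotone h) (h0 : ∀ x, 0 ≤ h x) (z : ℕ) (F : Finset Edg) :
    h (T (8 * b) F + z) ≤ h (T (2 * b) F + (z + 2 + 10 * κ)) +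
      ∑ k ∈ Finset.Ico κ N, h (T (2 * b) F + (z + 12 + 10 * k)) * ind (¬ Lk b k F) := by
  classical
  have hex : ∃ k, Lk b k F := ⟨N, hN N le_rfl F⟩
  obtain ⟨k0, hk0⟩ : ∃ k0, k0 = Nat.find hex := ⟨_, rfl⟩
  have h1 : Lk b k0 F := by rw [hk0]; exact Nat.find_spec hex
  have h2 : k0 ≤ N := by rw [hk0]; exact Nat.find_min' hex (hN N le_rfl F)
  have h3 := lk_bound hb h1
  have hnn : ∀ k ∈ Finset.Ico κ N, 0 ≤ h (T (2 * b) F + (z + 12 + 10 * k)) * ind (¬ Lk b k F) :=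
    fun k _ => mul_nonneg (h0 _) (ind_nonneg _)
  by_cases hk : k0 ≤ κ
  · have h4 : h (T (8 * b) F + z) ≤ h (T (2 * b) F + (z + 2 + 10 * κ)) := hm (by omega)
    have h5 := Finset.sum_nonneg hnn
    linarith
  · have h4 : ¬ Lk b (k0 - 1) F := by
      rw [hk0]
      exact Nat.find_min hex (by omega)
    have h5 : h (T (8 * b) F + z) ≤
        h (T (2 * b) F + (z + 12 + 10 * (k0 - 1))) * ind (¬ Lk b (k0 - 1) F) := by
      rw [ind_of h4, mul_one]
      exact hm (by omega)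
    have h6 := Finset.single_le_sum hnn (Finset.mem_Ico.2 ⟨by omega, by omega⟩ : k0 - 1 ∈ Ico κ N)
    have h7 := h0 (T (2 * b) F + (z + 2 + 10 * κ))
    linarith

/-- the hypotheses on the function `h` and its bounds -/
structure Hyp (t : ℝ) (h : ℕ → ℝ) (A : ℕ → ℕ → ℝ) : Prop where
  mono : Monotone h
  nn : ∀ x, 0 ≤ h x
  up : ∀ b z : ℕ, 1 ≤ b → Ex P2 (B (2 * b)) (fun F => h (T (2 * b) F + z)) ≤ A b z
  sh : ∀ b z w : ℕ, 1 ≤ b → A b (z + w) ≤ t ^ w * A b z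
  inc : ∀ b b' z : ℕ, 1 ≤ b → b ≤ b' → A b z ≤ A b' z

theorem Hyp.A0 {t : ℝ} {h : ℕ → ℝ} {A : ℕ → ℕ → ℝ} (hh : Hyp t h A) {b : ℕ} (hb : 1 ≤ b) (z : ℕ) :
    0 ≤ A b z :=
  (Ex_nonneg ok2 fun _ _ => hh.nn _).trans (hh.up b z hb)

/-- the claim at the scale `b` -/
def Cl (K : ℝ) (h : ℕ → ℝ) (A : ℕ → ℕ → ℝ) (b : ℕ) : Prop :=
  ∀ S : Finset Edg, B (2 * b + 8) ⊆ S → ∀ φ : Finset Edg → ℝ, (∀ F, 0 ≤ φ F) →
    (∀ F, φ F = φ (F \ B (b - 1))) → ∀ z : ℕ,
    Ex P2 S (fun F => h (T (2 * b) F + z) * φ F) ≤ K * A b z * √(Ex P2 S (fun F => φ F ^ 2))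

theorem ind_pow (Q : Prop) : ind Q ^ 2 = ind Q := by
  rw [sq]
  exact ind_sq Q

/-- conditioning on the edges outside `D` -/
theorem cond {K : ℝ} {h : ℕ → ℝ} {A : ℕ → ℕ → ℝ} {b : ℕ} (ih : Cl K h A b) (hK : 0 ≤ K)
    {D S : Finset Edg} (hD : D ⊆ S) (hb : B (2 * b + 8) ⊆ D) {φ : Finset Edg → ℝ}
    (h0 : ∀ F, 0 ≤ φ F) (hφ : ∀ F, φ F = φ (F \ D)) {χ : Finset Edg → Prop}
    (hχ : ∀ F F' : Finset Edg, F \ B (b - 1) = F' \ B (b - 1) → (χ F ↔ χ F')) (z : ℕ)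
    (hA : 0 ≤ A b z) :
    Ex P2 S (fun F => h (T (2 * b) F + z) * (ind (χ F) * φ F)) ≤
      K * A b z * (√(Ex P2 S (fun F => φ F ^ 2)) * √(Ex P2 S (fun F => ind (χ F)))) := by
  have hS : S = (S \ D) ∪ D := by rw [Finset.sdiff_union_of_subset hD]
  have hd : Disjoint (S \ D) D := Finset.sdiff_disjoint
  have e0 : ∀ f : Finset Edg → ℝ, Ex P2 S f =
      Ex P2 (S \ D) (fun X => Ex P2 D (fun Y => f (X ∪ Y))) := by
    intro f
    conv_lhs => rw [hS]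
    exact Ex_union hd f
  have e1 : ∀ X, X ⊆ S \ D → ∀ Y, Y ⊆ D → φ (X ∪ Y) = φ X := by
    intro X hX Y hY
    rw [hφ (X ∪ Y), hφ X]
    congr 1
    ext e
    simp only [mem_sdiff, mem_union]
    constructor
    · rintro ⟨h1 | h1, h2⟩
      · exact ⟨h1, h2⟩
      · exact absurd (hY h1) h2
    · rintro ⟨h1, h2⟩
      exact ⟨Or.inl h1, h2⟩
  have e2 : ∀ X, X ⊆ S \ D → ∀ Y, Y ⊆ D → T (2 * b) (X ∪ Y) = T (2 * b) Y := by
    intro X hX Y hY
    apply T_congr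
    intro e he
    simp only [mem_union]
    constructor
    · rintro (h1 | h1)
      · exfalso
        have h2 : e ∈ D := hb (B_mono (by push_cast; omega) he)
        exact (mem_sdiff.1 (hX h1)).2 h2
      · exact h1
    · exact fun h1 => Or.inr h1
  have e3 : Ex P2 S (fun F => φ F ^ 2) = Ex P2 (S \ D) (fun X => φ X ^ 2) := by
    rw [e0]
    apply Ex_congr
    intro X hX
    have : Ex P2 D (fun Y => φ (X ∪ Y) ^ 2) = Ex P2 D (fun _ => φ X ^ 2) := by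
      apply Ex_congr
      intro Y hY
      rw [e1 X hX Y hY]
    rw [this, Ex_const]
  rw [e0, e3, e0 (fun F => ind (χ F))]
  have e4 : Ex P2 (S \ D) (fun X => Ex P2 D (fun Y =>
      h (T (2 * b) (X ∪ Y) + z) * (ind (χ (X ∪ Y)) * φ (X ∪ Y)))) ≤
      Ex P2 (S \ D) (fun X => K * A b z * (φ X * √(Ex P2 D (fun Y => ind (χ (X ∪ Y)))))) := by
    apply Ex_mono ok2
    intro X hX
    have k1 : Ex P2 D (fun Y => h (T (2 * b) (X ∪ Y) + z) * (ind (χ (X ∪ Y)) * φ (X ∪ Y))) =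
        Ex P2 D (fun Y => φ X * (h (T (2 * b) Y + z) * ind (χ (X ∪ Y)))) := by
      apply Ex_congr
      intro Y hY
      rw [e1 X hX Y hY, e2 X hX Y hY]
      ring
    rw [k1, Ex_mul_left]
    have k2 := ih D hb (fun Y => ind (χ (X ∪ Y))) (fun _ => ind_nonneg _) (fun Y => by
      apply ind_congr
      apply hχ
      ext e
      simp only [mem_sdiff, mem_union]
      constructor
      · rintro ⟨h1 | h1, h2⟩
        · exact ⟨Or.inl h1, h2⟩
        · exact ⟨Or.inr ⟨h1, h2⟩, h2⟩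
      · rintro ⟨h1 | h1, h2⟩
        · exact ⟨Or.inl h1, h2⟩
        · exact ⟨Or.inr h1.1, h2⟩) z
    simp only [ind_pow] at k2
    calc φ X * Ex P2 D (fun Y => h (T (2 * b) Y + z) * ind (χ (X ∪ Y))) ≤
          φ X * (K * A b z * √(Ex P2 D (fun Y => ind (χ (X ∪ Y))))) :=
          mul_le_mul_of_nonneg_left k2 (h0 X)
      _ = _ := by ring
  refine e4.trans ?_
  rw [Ex_mul_left]
  refine mul_le_mul_of_nonneg_left ?_ (mul_nonneg hK hA)
  refine (Ex_cs (S \ D) φ (fun X => √(Ex P2 D (fun Y => ind (χ (X ∪ Y)))))).trans ?_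
  have e5 : Ex P2 (S \ D) (fun X => √(Ex P2 D (fun Y => ind (χ (X ∪ Y)))) ^ 2) =
      Ex P2 (S \ D) (fun X => Ex P2 D (fun Y => ind (χ (X ∪ Y)))) := by
    apply Ex_congr
    intro X _
    exact Real.sq_sqrt (Ex_nonneg ok2 fun _ _ => ind_nonneg _)
  rw [e5]

/-- a geometric sum -/
theorem half_sum (κ N : ℕ) : ∑ k ∈ Finset.Ico κ N, (1 / 2 : ℝ) ^ k ≤ 2 * (1 / 2) ^ κ := by
  rcases le_or_gt N κ with h | h
  · rw [Finset.Ico_eq_empty_of_le h, Finset.sum_empty]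
    positivity
  · have h1 := geom_sum_Ico (x := (1 / 2 : ℝ)) (by norm_num) h.le
    rw [h1]
    have h2 : (0:ℝ) < (1 / 2) ^ N := by positivity
    have e : ((1 / 2 : ℝ) ^ N - (1 / 2) ^ κ) / (1 / 2 - 1) = 2 * (1 / 2) ^ κ - 2 * (1 / 2) ^ N := by
      ring
    rw [e]
    linarith

theorem lk_sdiff {b k : ℕ} (hb : 1 ≤ b) (F F' : Finset Edg)
    (h : F \ B (b - 1) = F' \ B (b - 1)) : ¬ Lk b k F ↔ ¬ Lk b k F' := by
  refine not_congr (lk_congr hb fun e _ he => ?_)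
  have h1 : e ∈ F \ B (b - 1) ↔ e ∈ F' \ B (b - 1) := by rw [h]
  simp only [mem_sdiff] at h1
  tauto

/-- the induction step -/
theorem cl_step {t : ℝ} (ht : 1 ≤ t) {C r : ℝ} (hC : 0 < C) (hr0 : 0 < r)
    (hr : t ^ 10 * r = 1 / 2)
    (htail : ∀ (b : ℕ) (S : Finset Edg), 1 ≤ b → B (8 * b) ⊆ S → ∀ k : ℕ,
      Ex P2 S (fun F => ind (¬ Lk b k F)) ≤ C * (r ^ 2) ^ k)
    {κ : ℕ} (hκ : t ^ 12 * √C * (2 * (1 / 2) ^ κ) ≤ 1 / 2) {K : ℝ}
    (hK : 2 * t ^ (2 + 10 * κ) ≤ K) {h : ℕ → ℝ} {A : ℕ → ℕ → ℝ} (hh : Hyp t h A) {b : ℕ}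
    (hb : 24 ≤ b) (ih : Cl K h A ((b + 3) / 4)) : Cl K h A b := by
  intro S hS φ h0 hφ z
  obtain ⟨b', hb'⟩ : ∃ b', b' = (b + 3) / 4 := ⟨_, rfl⟩
  rw [← hb'] at ih
  have b1 : 1 ≤ b' := by omega
  have b2 : 2 * b ≤ 8 * b' := by omega
  have b3 : 8 * b' ≤ 2 * b + 8 := by omega
  have b4 : 2 * b' + 9 ≤ b := by omega
  have ht0 : 0 < t := by linarith
  have hK0 : 0 ≤ K := le_trans (by positivity) hK
  obtain ⟨N, hN⟩ := lk_top b1
  have s1 : B (8 * b') ⊆ S := (B_mono (by omega)).trans hS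
  obtain ⟨D, hDd⟩ : ∃ D, D = B ((b : ℤ) - 1) := ⟨_, rfl⟩
  have hD : D ⊆ S := by rw [hDd]; exact (B_mono (by omega)).trans hS
  have hBD : B (2 * b' + 8) ⊆ D := by rw [hDd]; exact B_mono (by omega)
  rw [← hDd] at hφ
  obtain ⟨q, hq⟩ : ∃ q, q = √(Ex P2 S (fun F => φ F ^ 2)) := ⟨_, rfl⟩
  have hq0 : 0 ≤ q := by rw [hq]; exact Real.sqrt_nonneg _
  have hA0 := hh.A0 (b := b') b1
  have hAb : ∀ w, A b' (z + w) ≤ t ^ w * A b z := fun w =>
    (hh.sh b' z w b1).trans (mul_le_mul_of_nonneg_left (hh.inc b' b z b1 (by omega))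
      (by positivity))
  have hAz : 0 ≤ A b z := hh.A0 (by omega) z
  -- pointwise
  have p1 : Ex P2 S (fun F => h (T (2 * b) F + z) * φ F) ≤
      Ex P2 S (fun F => h (T (2 * b') F + (z + 2 + 10 * κ)) * φ F +
        ∑ k ∈ Finset.Ico κ N, h (T (2 * b') F + (z + 12 + 10 * k)) *
          (ind (¬ Lk b' k F) * φ F)) := by
    apply Ex_mono ok2
    intro F _
    have k1 := pt (κ := κ) b1 hN hh.mono hh.nn z F
    have k2 : h (T (2 * b) F + z) ≤ h (T (8 * b') F + z) :=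
      hh.mono (Nat.add_le_add_right (T_mono b2 F) z)
    calc h (T (2 * b) F + z) * φ F ≤ (h (T (2 * b') F + (z + 2 + 10 * κ)) +
          ∑ k ∈ Finset.Ico κ N, h (T (2 * b') F + (z + 12 + 10 * k)) * ind (¬ Lk b' k F)) * φ F :=
          mul_le_mul_of_nonneg_right (k2.trans k1) (h0 F)
      _ = _ := by
          rw [add_mul, Finset.sum_mul]
          congr 1
          apply Finset.sum_congr rfl
          intro k _
          ring
  rw [Ex_add, Ex_sum] at p1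
  -- the main term
  have p2 : Ex P2 S (fun F => h (T (2 * b') F + (z + 2 + 10 * κ)) * φ F) ≤
      t ^ (2 + 10 * κ) * A b z * q := by
    have i1 : Ex P2 S (fun F => h (T (2 * b') F + (z + 2 + 10 * κ)) * φ F) =
        Ex P2 S (fun F => h (T (2 * b') F + (z + 2 + 10 * κ))) * Ex P2 S φ := by
      refine Ex_mul_indep (S := B (2 * b')) (T := S \ D) ((B_mono (by omega)).trans s1)
        Finset.sdiff_subset ?_ ?_ ?_
      · rw [Finset.disjoint_left]
        intro e he he'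
        exact (mem_sdiff.1 he').2 (hBD (B_mono (by omega) he))
      · intro F _
        rw [T_congr (F := F) (F' := F ∩ B (2 * b')) (fun e he => by
          push_cast at he
          rw [mem_inter]
          exact ⟨fun h1 => ⟨h1, he⟩, fun h1 => h1.1⟩)]
      · intro F hF
        rw [hφ F]
        congr 1
        ext e
        simp only [mem_sdiff, mem_inter]
        exact ⟨fun h1 => ⟨h1.1, hF h1.1, h1.2⟩, fun h1 => ⟨h1.1, h1.2.2⟩⟩
    have i2 : Ex P2 S (fun F => h (T (2 * b') F + (z + 2 + 10 * κ))) =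
        Ex P2 (B (2 * b')) (fun F => h (T (2 * b') F + (z + 2 + 10 * κ))) := by
      apply Ex_local ((B_mono (by omega)).trans s1)
      intro F _
      rw [T_congr (F := F) (F' := F ∩ B (2 * b')) (fun e he => by
          push_cast at he
          rw [mem_inter]
          exact ⟨fun h1 => ⟨h1, he⟩, fun h1 => h1.1⟩)]
    rw [i1, i2]
    have i5 : A b' (z + 2 + 10 * κ) ≤ t ^ (2 + 10 * κ) * A b z := by
      have := hAb (2 + 10 * κ)
      rwa [← add_assoc] at this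
    have i3 := (hh.up b' (z + 2 + 10 * κ) b1).trans i5
    have i4 : Ex P2 S φ ≤ q := by rw [hq]; exact Ex_le_sqrt S φ
    exact mul_le_mul i3 i4 (Ex_nonneg ok2 fun F _ => h0 F) (by positivity)
  -- the other terms
  have p3 : ∀ k ∈ Finset.Ico κ N, Ex P2 S (fun F => h (T (2 * b') F + (z + 12 + 10 * k)) *
      (ind (¬ Lk b' k F) * φ F)) ≤ K * (A b z * q) * (t ^ 12 * √C) * (1 / 2) ^ k := by
    intro k _
    have i1 := cond ih hK0 hD hBD h0 hφ (χ := fun F => ¬ Lk b' k F) (lk_sdiff b1)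
      (z + 12 + 10 * k) (hA0 _)
    refine i1.trans ?_
    rw [← hq]
    have i2 : √(Ex P2 S (fun F => ind (¬ Lk b' k F))) ≤ √C * r ^ k := by
      have := Real.sqrt_le_sqrt (htail b' S b1 s1 k)
      rwa [Real.sqrt_mul hC.le, ← pow_mul, mul_comm 2 k, pow_mul, Real.sqrt_sq (by positivity)]
        at this
    have i3 : A b' (z + 12 + 10 * k) ≤ t ^ (12 + 10 * k) * A b z := by
      have := hAb (12 + 10 * k)
      rw [← add_assoc] at this
      exact this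
    calc K * A b' (z + 12 + 10 * k) * (q * √(Ex P2 S (fun F => ind (¬ Lk b' k F)))) ≤
        K * (t ^ (12 + 10 * k) * A b z) * (q * (√C * r ^ k)) := by
          apply mul_le_mul (mul_le_mul_of_nonneg_left i3 hK0) _ (by positivity) (by positivity)
          exact mul_le_mul_of_nonneg_left i2 hq0
      _ = K * (A b z * q) * (t ^ 12 * √C) * ((t ^ 10 * r) ^ k) := by
          rw [pow_add, pow_mul t 10 k, mul_pow]
          ring
      _ = _ := by rw [hr]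
  have p4 := Finset.sum_le_sum p3
  rw [← Finset.mul_sum] at p4
  have p5 : K * (A b z * q) * (t ^ 12 * √C) * ∑ k ∈ Finset.Ico κ N, (1 / 2 : ℝ) ^ k ≤
      K * (A b z * q) * (1 / 2) := by
    calc K * (A b z * q) * (t ^ 12 * √C) * ∑ k ∈ Finset.Ico κ N, (1 / 2 : ℝ) ^ k ≤
        K * (A b z * q) * (t ^ 12 * √C) * (2 * (1 / 2) ^ κ) :=
          mul_le_mul_of_nonneg_left (half_sum κ N) (by positivity)
      _ = K * (A b z * q) * (t ^ 12 * √C * (2 * (1 / 2) ^ κ)) := by ring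
      _ ≤ _ := mul_le_mul_of_nonneg_left hκ (by positivity)
  have p6 : t ^ (2 + 10 * κ) * (A b z * q) ≤ K / 2 * (A b z * q) :=
    mul_le_mul_of_nonneg_right (by linarith) (by positivity)
  rw [← hq]
  have e : K * A b z * q = K * (A b z * q) := by ring
  rw [e]
  have e2 : t ^ (2 + 10 * κ) * A b z * q = t ^ (2 + 10 * κ) * (A b z * q) := by ring
  rw [e2] at p2
  linarith

/-- the base case -/
theorem cl_base {t : ℝ} (ht : 1 ≤ t) {K : ℝ} (hK : t ^ 96 ≤ K) {h : ℕ → ℝ} {A : ℕ → ℕ → ℝ}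
    (hh : Hyp t h A) {b : ℕ} (hb1 : 1 ≤ b) (hb : b < 24) : Cl K h A b := by
  intro S hS φ h0 hφ z
  have ht0 : 0 < t := by linarith
  have hA := hh.A0 hb1 z
  have k1 : ∀ F, h (T (2 * b) F + z) ≤ t ^ 96 * A b z := by
    intro F
    have i1 : h (T (2 * b) F + z) ≤ h (z + 4 * b) := by
      apply hh.mono
      have := T_le (2 * b) F
      omega
    have i2 : h (z + 4 * b) ≤ A b (z + 4 * b) := by
      refine le_trans ?_ (hh.up b (z + 4 * b) hb1)
      rw [← Ex_const P2 (B (2 * b)) (h (z + 4 * b))]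
      exact Ex_mono ok2 fun F _ => hh.mono (by omega)
    have i3 := hh.sh b z (4 * b) hb1
    have i4 : t ^ (4 * b) ≤ t ^ 96 := pow_le_pow_right₀ ht (by omega)
    exact (i1.trans (i2.trans i3)).trans (mul_le_mul_of_nonneg_right i4 hA)
  have k2 : Ex P2 S (fun F => h (T (2 * b) F + z) * φ F) ≤ t ^ 96 * A b z * Ex P2 S φ := by
    rw [← Ex_mul_left]
    exact Ex_mono ok2 fun F _ => mul_le_mul_of_nonneg_right (k1 F) (h0 F)
  refine k2.trans ?_
  refine mul_le_mul (mul_le_mul_of_nonneg_right hK hA) (Ex_le_sqrt S φ)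
    (Ex_nonneg ok2 fun F _ => h0 F) (mul_nonneg (le_trans (by positivity) hK) hA)

/-- the decoupling inequality -/
theorem dec {t : ℝ} (ht : 1 ≤ t) : ∃ K : ℝ, 0 < K ∧ ∀ (h : ℕ → ℝ) (A : ℕ → ℕ → ℝ),
    Hyp t h A → ∀ b : ℕ, 1 ≤ b → Cl K h A b := by
  have ht0 : 0 < t := by linarith
  obtain ⟨r, hr⟩ : ∃ r : ℝ, r = 1 / (2 * t ^ 10) := ⟨_, rfl⟩
  have hr0 : 0 < r := by rw [hr]; positivity
  have hr1 : t ^ 10 * r = 1 / 2 := by rw [hr]; field_simp
  obtain ⟨C, hC, htail⟩ := lk_tail (ρ := r ^ 2) (by positivity)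
  obtain ⟨κ, hκ⟩ : ∃ κ : ℕ, t ^ 12 * √C * (2 * (1 / 2) ^ κ) ≤ 1 / 2 := by
    have h1 : 0 < 1 / (4 * (t ^ 12 * √C + 1)) := by positivity
    obtain ⟨κ, hκ⟩ := exists_pow_lt_of_lt_one h1 (show (1 / 2 : ℝ) < 1 by norm_num)
    refine ⟨κ, ?_⟩
    have h2 : (1 / 2 : ℝ) ^ κ * (4 * (t ^ 12 * √C + 1)) ≤ 1 := by
      have := (lt_div_iff₀ (by positivity)).1 hκ
      linarith
    have h3 : 0 ≤ (1 / 2 : ℝ) ^ κ := by positivity
    nlinarith
  refine ⟨max (t ^ 96) (2 * t ^ (2 + 10 * κ)), lt_max_of_lt_left (by positivity), ?_⟩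
  intro h A hh b
  induction b using Nat.strong_induction_on with
  | _ b ih =>
    intro hb
    rcases Nat.lt_or_ge b 24 with hb2 | hb2
    · exact cl_base ht (le_max_left _ _) hh hb hb2
    · exact cl_step ht hC hr0 hr1 htail hκ (le_max_right _ _) hh hb2
        (ih ((b + 3) / 4) (by omega) (by omega))

end Pool.Agent.U154.UT
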