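import Pool.Agent.U154.UT.Pl

/-!
The uniform upper tails.
-/

set_option autoImplicit false

namespace Pool.Agent.U154.UT

open MeasureTheory Real Filter Topology H974 Finset H906.Cyl
open Pool.Agent.H863R2.NL (EN ET IsPs cN vN ET_mono ET_const ET_le_ET ET_le changes prob_changes)
open Pool.Agent.H450R4.NL (Ph qt tilt_coef)
open Pool.Agent.W819.EN (dL nuc P2 LegA LegB Rate Lam gam)

theorem nonneg_of_log {x y : ℝ} (h : ∀ n : ℕ, 1 ≤ n → -y ≤ x * log n) : 0 ≤ x := by
  by_contra hx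
  have hx' : 0 < -x := by linarith [not_le.1 hx]
  have hLog : Tendsto (fun n : ℕ => log (n : ℝ)) atTop atTop :=
    tendsto_log_atTop.comp tendsto_natCast_atTop_atTop
  obtain ⟨n, h1, h2⟩ := ((hLog.eventually_ge_atTop ((y + 1) / (-x))).and
    (eventually_ge_atTop 1)).exists
  rw [div_le_iff₀ hx'] at h1
  have := h n h2
  nlinarith

/-- the shift of the mean by the tilt -/
theorem qt_shift {H h p : ℝ} (h0 : 0 ≤ h) (hH : h ≤ H) (hp0 : 0 < p) (hp1 : p ≤ 1 / 3) :
    p * (1 + 2 / 3 * exp (-H) * h) ≤ qt (exp h) p ∧ qt (exp h) p ≤ p * (1 + exp H * h) := by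
  have hE := exp_pos h
  have hE1 : 1 ≤ exp h := one_le_exp h0
  have hEH : exp h ≤ exp H := exp_le_exp.2 hH
  have hd := den_pos' hE hp0.le hp1
  have e1 : h ≤ exp h - 1 := by linarith [add_one_le_exp h]
  have e2 : exp h - 1 ≤ exp H * h := by
    have h1 : exp (-h) * exp h = 1 := by rw [← exp_add]; simp
    have h2 := add_one_le_exp (-h)
    have h3 : (-h + 1) * exp h ≤ 1 := by
      calc (-h + 1) * exp h ≤ exp (-h) * exp h := mul_le_mul_of_nonneg_right h2 hE.le
        _ = 1 := h1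
    have h4 : h * exp h ≤ h * exp H := mul_le_mul_of_nonneg_left hEH h0
    linarith
  have e3 : exp (-H) * exp H = 1 := by rw [← exp_add]; simp
  have e4 : 0 ≤ exp (-H) * h := by positivity
  unfold qt
  constructor
  · rw [le_div_iff₀ hd]
    -- `(1 + 2/3 e^{-H} h) (1 + p (e^h - 1)) ≤ e^h`
    have k1 : 1 + p * (exp h - 1) ≤ exp H := by nlinarith
    have k2 : 2 / 3 * exp (-H) * h * (1 + p * (exp h - 1)) ≤ 2 / 3 * h := by
      calc 2 / 3 * exp (-H) * h * (1 + p * (exp h - 1)) ≤ 2 / 3 * exp (-H) * h * exp H :=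
            mul_le_mul_of_nonneg_left k1 (by positivity)
        _ = 2 / 3 * h * (exp (-H) * exp H) := by ring
        _ = _ := by rw [e3, mul_one]
    have k3 : (1 + 2 / 3 * exp (-H) * h) * (1 + p * (exp h - 1)) ≤ exp h := by
      have k4 : p * (exp h - 1) ≤ 1 / 3 * (exp h - 1) :=
        mul_le_mul_of_nonneg_right hp1 (by linarith)
      have k5 : (1 + 2 / 3 * exp (-H) * h) * (1 + p * (exp h - 1)) =
        1 + p * (exp h - 1) + 2 / 3 * exp (-H) * h * (1 + p * (exp h - 1)) := by ring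
      rw [k5]
      linarith
    calc p * (1 + 2 / 3 * exp (-H) * h) * (1 + p * (exp h - 1)) =
        p * ((1 + 2 / 3 * exp (-H) * h) * (1 + p * (exp h - 1))) := by ring
      _ ≤ p * exp h := mul_le_mul_of_nonneg_left k3 hp0.le
  · rw [div_le_iff₀ hd]
    have k1 : 0 ≤ exp H * h := by positivity
    have k2 : 0 ≤ p * (exp h - 1) := mul_nonneg hp0.le (by linarith)
    have k3 : exp h ≤ (1 + exp H * h) * (1 + p * (exp h - 1)) := by nlinarith [mul_nonneg k1 k2]
    calc p * exp h ≤ p * ((1 + exp H * h) * (1 + p * (exp h - 1))) :=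
          mul_le_mul_of_nonneg_left k3 hp0.le
      _ = _ := by ring

theorem dL_two {H C c : ℝ} {ps : ℕ → Multiset ℝ} (hT : Tilts H C c ps) :
    ∃ a b : ℝ, 0 < a ∧ 0 < b ∧ ∀ h, 0 ≤ h → h ≤ H →
      a * h ≤ dL h - cN ∧ dL h - cN ≤ b * h := by
  have hc := cN_pos'
  refine ⟨cN * (2 / 3 * exp (-H)), cN * exp H, by positivity, by positivity, ?_⟩
  intro h h0 hhH
  have hh : |h| ≤ H := by rwa [abs_of_nonneg h0]
  have key : ∀ n : ℕ, 1 ≤ n →
      (1 + 2 / 3 * exp (-H) * h) * (ps n).sum ≤ ((ps n).map (qt (exp h))).sum ∧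
      ((ps n).map (qt (exp h))).sum ≤ (1 + exp H * h) * (ps n).sum := by
    intro n hn
    have h1 := fun p hp => qt_shift h0 hhH ((hT.isps n hn).1 p hp).1 ((hT.isps n hn).1 p hp).2
    have e : ∀ x : ℝ, x * (ps n).sum = ((ps n).map (fun p => p * x)).sum := by
      intro x
      rw [Multiset.sum_map_mul_right, Multiset.map_id', mul_comm]
    constructor
    · rw [e]
      exact Multiset.sum_map_le_sum_map _ _ fun p hp => (h1 p hp).1
    · rw [e]
      exact Multiset.sum_map_le_sum_map _ _ fun p hp => (h1 p hp).2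
  constructor
  · have : 0 ≤ dL h - cN - cN * (2 / 3 * exp (-H)) * h := by
      apply nonneg_of_log (y := C + (1 + 2 / 3 * exp (-H) * h) * C)
      intro n hn
      have k1 := (key n hn).1
      have k2 := abs_le.1 (hT.mean h hh n hn)
      have k3 := abs_le.1 (hT.sm n hn)
      have k4 : 0 ≤ 2 / 3 * exp (-H) * h := by positivity
      have k5 : (1 + 2 / 3 * exp (-H) * h) * (cN * log n - C) ≤
          (1 + 2 / 3 * exp (-H) * h) * (ps n).sum :=
        mul_le_mul_of_nonneg_left (by linarith [k3.1]) (by linarith)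
      nlinarith [k2.2]
    linarith
  · have : 0 ≤ cN + cN * exp H * h - dL h := by
      apply nonneg_of_log (y := C + (1 + exp H * h) * C)
      intro n hn
      have k1 := (key n hn).2
      have k2 := abs_le.1 (hT.mean h hh n hn)
      have k3 := abs_le.1 (hT.sm n hn)
      have k4 : 0 ≤ exp H * h := by positivity
      have k5 : (1 + exp H * h) * (ps n).sum ≤ (1 + exp H * h) * (cN * log n + C) :=
        mul_le_mul_of_nonneg_left (by linarith [k3.2]) (by linarith)
      nlinarith [k2.1]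
    linarith

/-- the upper tails, uniformly -/
theorem unif {ν2 : ℝ} (hν2 : nuc < ν2) : ∃ c C : ℝ, 0 < c ∧ 0 < C ∧ ∃ n0 : ℕ, ∀ n : ℕ, n0 ≤ n →
    ∀ ν : ℝ, nuc ≤ ν → ν ≤ ν2 →
      c * ((n : ℝ) ^ (-Rate ν) / (1 + (ν - nuc) * √(log n))) ≤
        (bondLaw hlf).real {ω | ν * log n ≤ changes n ω} ∧
      (bondLaw hlf).real {ω | ν * log n ≤ changes n ω} ≤
        C * ((n : ℝ) ^ (-Rate ν) / (1 + (ν - nuc) * √(log n))) := by
  have hnu0 : 0 < nuc := by rw [nuc_eq]; exact cN_pos'
  obtain ⟨H, hHd⟩ := legB.surj ν2 (by linarith)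
  have hH : 0 < H := by
    by_contra hle
    have := legA.mono.monotone (not_lt.1 hle)
    rw [legA.typ, hHd] at this
    linarith
  obtain ⟨C0, c0, ps, hT⟩ := tilts hH
  obtain ⟨K, hK, hup⟩ := pl_up hH hT
  obtain ⟨k, hk, hlow⟩ := pl_low hH hT
  obtain ⟨a, b, ha, hb, hab⟩ := dL_two hT
  have hx0 := x0_pos
  have hLog : Tendsto (fun n : ℕ => log (n : ℝ)) atTop atTop :=
    tendsto_log_atTop.comp tendsto_natCast_atTop_atTop
  obtain ⟨n0, hn0⟩ := eventually_atTop.1 (hlow.and ((hLog.eventually_ge_atTop (max x0 1)).and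
    (eventually_ge_atTop 1)))
  obtain ⟨w, hw⟩ : ∃ w : ℝ, w = 1 + b := ⟨_, rfl⟩
  obtain ⟨u, hu⟩ : ∃ u : ℝ, u = 1 + √2 / a := ⟨_, rfl⟩
  have hu1 : 1 ≤ u := by rw [hu]; have : 0 ≤ √2 / a := by positivity
                         linarith
  have hw1 : 1 ≤ w := by rw [hw]; linarith
  refine ⟨k * exp (-H) / u, K * w, by positivity, by positivity, n0, ?_⟩
  intro n hn ν hν1 hν2'
  obtain ⟨k1, k2, k3⟩ := hn0 n hn
  obtain ⟨h, hh⟩ := legB.surj ν (by linarith)
  have h0 : 0 ≤ h := by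
    by_contra hle
    have := legA.mono (not_le.1 hle)
    rw [legA.typ, hh] at this
    linarith
  have hhH : h ≤ H := by
    by_contra hle
    have := legA.mono (not_le.1 hle)
    rw [hh, hHd] at this
    linarith
  have hL1 : 1 ≤ log (n:ℝ) := (le_max_right _ _).trans k2
  have hLx : x0 ≤ log (n:ℝ) := (le_max_left _ _).trans k2
  have hn0 : (0:ℝ) < n := by exact_mod_cast (by omega : 0 < n)
  obtain ⟨M, hM⟩ : ∃ M : ℕ, M = ⌈ν * log n⌉₊ := ⟨_, rfl⟩
  have hν0 : 0 ≤ ν * log n := by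
    have : 0 ≤ ν := by linarith
    positivity
  have m1 : ν * log n ≤ M := by rw [hM]; exact Nat.le_ceil _
  have m2 : (M:ℝ) < ν * log n + 1 := by rw [hM]; exact Nat.ceil_lt_add_one hν0
  have e1 : (bondLaw hlf).real {ω | ν * log n ≤ changes n ω} = ET n (fun m => ind (M ≤ m)) := by
    rw [← prob_changes n (fun m => M ≤ m)]
    congr 1
    ext ω
    show ν * log n ≤ changes n ω ↔ M ≤ changes n ω
    rw [hM, Nat.ceil_le]
  rw [e1]
  have k4 : |dL h * log n - M| ≤ 1 := by
    rw [hh, abs_le]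
    constructor <;> linarith
  have k5 := k1 h h0 hhH M k4
  have k6 := hup n (by omega) h h0 hhH M
  obtain ⟨g1, g2⟩ := hab h h0 hhH
  rw [← dL_zero, legA.typ, hh] at g1 g2
  -- the rate
  have r1 : (n:ℝ) ^ (-Rate ν) = exp (-(h * (ν * log n)) + Lm h * log n) := by
    rw [← hh, legB.rate h, rpow_def_of_pos hn0]
    congr 1
    unfold gam Lm
    ring
  have s1 : √(log n) ≤ √(log n + x0) := sqrt_le_sqrt (by linarith)
  have s2 : √(log n + x0) ≤ √2 * √(log n) := by
    rw [← sqrt_mul (by norm_num)]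
    exact sqrt_le_sqrt (by linarith)
  have hs : 0 ≤ √(log (n:ℝ)) := sqrt_nonneg _
  have d1 : 1 + (ν - nuc) * √(log n) ≤ w * (1 + h * √(log n + x0)) := by
    have t1 : (ν - nuc) * √(log n) ≤ (b * h) * √(log n + x0) :=
      mul_le_mul g2 s1 hs (by positivity)
    have t2 : 0 ≤ h * √(log n + x0) := by positivity
    rw [hw]
    nlinarith
  have d2 : 1 + h * √(log n + x0) ≤ u * (1 + (ν - nuc) * √(log n)) := by
    have t0 : h ≤ (ν - nuc) / a := by rw [le_div_iff₀ ha]; linarith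
    have t1 : h * √(log n + x0) ≤ (ν - nuc) / a * (√2 * √(log n)) :=
      mul_le_mul t0 s2 (sqrt_nonneg _) (h0.trans t0)
    have t3 : (ν - nuc) / a * (√2 * √(log n)) = √2 / a * ((ν - nuc) * √(log n)) := by ring
    have t4 : 0 ≤ (ν - nuc) * √(log n) := mul_nonneg (by linarith) hs
    have t5 : 0 ≤ √2 / a := by positivity
    rw [hu]
    nlinarith
  have dp1 : 0 < 1 + (ν - nuc) * √(log n) := by
    have : 0 ≤ (ν - nuc) * √(log n) := mul_nonneg (by linarith) hs
    linarith
  have dp2 : 0 < 1 + h * √(log n + x0) := by positivity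
  have f1 : exp (-(h * M)) * pf0 h (log n) ≤
      exp (-(h * (ν * log n)) + Lm h * log n) / (1 + h * √(log n + x0)) := by
    rw [← pf_eq0]
    apply div_le_div_of_nonneg_right _ dp2.le
    apply exp_le_exp.2
    have := mul_le_mul_of_nonneg_left m1 h0
    linarith
  have f2 : exp (-H) * (exp (-(h * (ν * log n)) + Lm h * log n) / (1 + h * √(log n + x0))) ≤
      exp (-(h * M)) * pf0 h (log n) := by
    rw [← pf_eq0, ← mul_div_assoc, ← exp_add]
    apply div_le_div_of_nonneg_right _ dp2.le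
    apply exp_le_exp.2
    have := mul_le_mul_of_nonneg_left m2.le h0
    linarith
  rw [r1]
  obtain ⟨E, hE⟩ : ∃ E, E = exp (-(h * (ν * log n)) + Lm h * log n) := ⟨_, rfl⟩
  have hE0 : 0 < E := by rw [hE]; exact exp_pos _
  rw [← hE] at f1 f2 ⊢
  constructor
  · have : E / (1 + (ν - nuc) * √(log n)) / u ≤ E / (1 + h * √(log n + x0)) := by
      rw [div_div]
      apply div_le_div_of_nonneg_left hE0.le dp2
      linarith
    calc k * exp (-H) / u * (E / (1 + (ν - nuc) * √(log n))) =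
        k * (exp (-H) * (E / (1 + (ν - nuc) * √(log n)) / u)) := by ring
      _ ≤ k * (exp (-H) * (E / (1 + h * √(log n + x0)))) := by
          apply mul_le_mul_of_nonneg_left _ hk.le
          exact mul_le_mul_of_nonneg_left this (exp_pos _).le
      _ ≤ k * (exp (-(h * M)) * pf0 h (log n)) := mul_le_mul_of_nonneg_left f2 hk.le
      _ ≤ _ := k5
  · have : E / (1 + h * √(log n + x0)) ≤ w * (E / (1 + (ν - nuc) * √(log n))) := by
      rw [← mul_div_assoc, div_le_div_iff₀ dp2 dp1]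
      have := mul_le_mul_of_nonneg_left d1 hE0.le
      linarith
    calc ET n (fun m => ind (M ≤ m)) ≤ K * (exp (-(h * M)) * pf0 h (log n)) := k6
      _ ≤ K * (w * (E / (1 + (ν - nuc) * √(log n)))) :=
          mul_le_mul_of_nonneg_left (f1.trans this) hK.le
      _ = _ := by ring

end Pool.Agent.U154.UT
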