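import Pool.Agent.W819.EN.Bridge
import Pool.Agent.W320.EN.Tail
import Pool.Agent.W320.EN.Slab
import Pool.Agent.W554.EN2.Sum
import Pool.Agent.W108.EN.LTail
import Pool.Agent.W38.EN.Cir
import Pool.Agent.W21.EN.Tr
import Pool.Agent.W918.EN.Loc
import Pool.Agent.H863R2.NL.CutBK
import Pool.Agent.H863R2.NL.Bad

/-!
Cheap circuits and cheap crossings around the origin.
-/

set_option autoImplicit false

namespace Pool.Agent.U154.UT

open H974 Finset Pool.Agent.W819.EN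

theorem ok2 : Ok P2 := fun _ => ⟨by norm_num [P2], by norm_num [P2]⟩

theorem tailAll : Tail :=
  Pool.Agent.W320.EN.t_TAIL (Pool.Agent.W320.EN.t_SLAB
    (fun k a b c d => Pool.Agent.H863R2.NL.opn_LRc k a b c d) Pool.Agent.W554.EN2.t_SUM)

theorem ltail : LTail := Pool.Agent.W108.EN.t_LTAIL tailAll

/-- the box around the origin -/
noncomputable def B (k : ℤ) : Finset Edg := bx (0, 0) k

/-- the number of changes up to the distance `R` -/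
noncomputable def T (R : ℕ) (F : Finset Edg) : ℕ := NA F (0, 0) 0 R

/-- a circuit and a radial crossing with at most `k` closed edges -/
def Lk (b k : ℕ) (F : Finset Edg) : Prop := Cir (0, 0) b k F ∧ Rad (0, 0) b k F

theorem T_mono {R R' : ℕ} (h : R ≤ R') (F : Finset Edg) : T R F ≤ T R' F :=
  Pool.Agent.W21.EN.t_MONO.1 F (0, 0) 0 0 R R' le_rfl h

theorem T_le (R : ℕ) (F : Finset Edg) : T R F ≤ 2 * R :=
  Pool.Agent.W21.EN.t_MONO.2 F (0, 0) 0 R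

theorem lk_bound {b k : ℕ} (hb : 1 ≤ b) {F : Finset Edg} (h : Lk b k F) :
    T (8 * b) F ≤ T (2 * b) F + (2 + 10 * k) := by
  have h1 := Pool.Agent.W38.EN.t_CIR0 F (0, 0) b k 0 (8 * b) hb (by omega) (by omega) h.1
  have h2 := Pool.Agent.W38.EN.t_RAD F (0, 0) b k hb h.2
  unfold T
  omega

theorem opn_congr {T : Finset Edg} {A : Finset Edg → Prop} (hA : ∀ F, A F ↔ A (F ∩ T)) (k : ℕ)
    {F F' : Finset Edg} (h : F ∩ T = F' ∩ T) : Opn k T A F ↔ Opn k T A F' := by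
  rw [Pool.Agent.W108.EN.opn_local hA k F, Pool.Agent.W108.EN.opn_local hA k F', h]

theorem LR_congr (k : ℕ) (a b c d : ℤ) {F F' : Finset Edg}
    (h : F ∩ LRE a b c d = F' ∩ LRE a b c d) :
    Opn k (LRE a b c d) (LRc a b c d) F ↔ Opn k (LRE a b c d) (LRc a b c d) F' := by
  have hA : ∀ F, LRc a b c d F ↔ LRc a b c d (F ∩ LRE a b c d) :=
    fun F => LRc_local (Finset.Subset.refl _)
  exact opn_congr hA k h

theorem TB_congr (k : ℕ) (a b c d : ℤ) {F F' : Finset Edg}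
    (h : F ∩ TBE a b c d = F' ∩ TBE a b c d) :
    Opn k (TBE a b c d) (TBc a b c d) F ↔ Opn k (TBE a b c d) (TBc a b c d) F' := by
  have hA : ∀ F, TBc a b c d F ↔ TBc a b c d (F ∩ TBE a b c d) :=
    fun F => TBc_local (Finset.Subset.refl _)
  exact opn_congr hA k h

/-- `Lk` only depends on the annulus -/
theorem lk_congr {b k : ℕ} (hb : 1 ≤ b) {F F' : Finset Edg}
    (h : ∀ e, e ∈ B (8 * b) → e ∉ B (b - 1) → (e ∈ F ↔ e ∈ F')) : Lk b k F ↔ Lk b k F' := by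
  have hb' : (1 : ℤ) ≤ b := by exact_mod_cast hb
  have key : ∀ S : Finset Edg, (∀ e ∈ S, e ∈ B (8 * b) ∧ e ∉ B (b - 1)) → F ∩ S = F' ∩ S := by
    intro S hS
    ext e
    simp only [mem_inter]
    constructor
    · rintro ⟨h1, h2⟩
      exact ⟨(h e (hS e h2).1 (hS e h2).2).1 h1, h2⟩
    · rintro ⟨h1, h2⟩
      exact ⟨(h e (hS e h2).1 (hS e h2).2).2 h1, h2⟩
  unfold Lk Cir Rad
  refine and_congr (and_congr (and_congr (LR_congr _ _ _ _ _ (key _ ?_))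
    (LR_congr _ _ _ _ _ (key _ ?_))) (and_congr (TB_congr _ _ _ _ _ (key _ ?_))
    (TB_congr _ _ _ _ _ (key _ ?_)))) (LR_congr _ _ _ _ _ (key _ ?_))
  all_goals
    rintro ⟨x, y, _ | _⟩ he
    · simp only [B, bx, mem_LRE_false, mem_TBE_false, mem_RE_false] at he ⊢
      omega
    · simp only [B, bx, mem_LRE_true, mem_TBE_true, mem_RE_true] at he ⊢
      omega

theorem lk_top {b : ℕ} (hb : 1 ≤ b) : ∃ N : ℕ, ∀ k, N ≤ k → ∀ F, Lk b k F := by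
  have hb' : (1 : ℤ) ≤ b := by exact_mod_cast hb
  refine ⟨(LRE ((0:ℤ) - 2 * b) (0 + 2 * b) (0 + b) (0 + 2 * b)).card +
    (LRE ((0:ℤ) - 2 * b) (0 + 2 * b) (0 - 2 * b) (0 - b)).card +
    (TBE ((0:ℤ) + b) (0 + 2 * b) (0 - 2 * b) (0 + 2 * b)).card +
    (TBE ((0:ℤ) - 2 * b) (0 - b) (0 - 2 * b) (0 + 2 * b)).card +
    (LRE ((0:ℤ) + b) (0 + 8 * b) (0 - b) (0 + b)).card, fun k hk F => ?_⟩
  refine ⟨⟨⟨⟨_, Subset.rfl, ?_, Pool.Agent.H863R2.NL.BadAux.full_LR ?_ ?_ _⟩,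
    ⟨_, Subset.rfl, ?_, Pool.Agent.H863R2.NL.BadAux.full_LR ?_ ?_ _⟩⟩,
    ⟨⟨_, Subset.rfl, ?_, Pool.Agent.H863R2.NL.BadAux.full_TB ?_ ?_ _⟩,
    ⟨_, Subset.rfl, ?_, Pool.Agent.H863R2.NL.BadAux.full_TB ?_ ?_ _⟩⟩⟩,
    ⟨_, Subset.rfl, ?_, Pool.Agent.H863R2.NL.BadAux.full_LR ?_ ?_ _⟩⟩
  all_goals (try simp only) ; omega

/-- superexponential tails of the local cost -/
theorem lk_tail {ρ : ℝ} (hρ : 0 < ρ) : ∃ C : ℝ, 0 < C ∧ ∀ (b : ℕ) (S : Finset Edg), 1 ≤ b →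
    B (8 * b) ⊆ S → ∀ k : ℕ, Ex P2 S (fun F => ind (¬ Lk b k F)) ≤ C * ρ ^ k := by
  obtain ⟨C, hC, h⟩ := ltail ρ hρ
  refine ⟨C, hC, fun b S hb hS k => ?_⟩
  refine le_trans ?_ (h b (0, 0) S hb hS k)
  unfold Pr
  refine Ex_mono ok2 fun F _ => ind_mono fun h1 h2 => h1 ⟨h2.1, h2.2.2⟩

/-- `T R` only depends on the box of radius `R` -/
theorem T_congr {R : ℕ} {F F' : Finset Edg} (h : ∀ e, e ∈ B R → (e ∈ F ↔ e ∈ F')) :
    T R F = T R F' := by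
  unfold T
  rw [Pool.Agent.W918.EN.t_LOC F (0, 0) 0 R (Nat.zero_le _),
    Pool.Agent.W918.EN.t_LOC F' (0, 0) 0 R (Nat.zero_le _)]
  congr 1
  ext e
  simp only [mem_inter]
  constructor
  · rintro ⟨h1, h2⟩
    exact ⟨(h e (mem_sdiff.1 h2).1).1 h1, h2⟩
  · rintro ⟨h1, h2⟩
    exact ⟨(h e (mem_sdiff.1 h2).1).2 h1, h2⟩

theorem B_mono {k k' : ℤ} (h : k ≤ k') : B k ⊆ B k' := by
  rintro ⟨x, y, _ | _⟩ he
  · simp only [B, bx, mem_RE_false] at he ⊢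
    omega
  · simp only [B, bx, mem_RE_true] at he ⊢
    omega

/-- Cauchy-Schwarz -/
theorem Ex_cs (S : Finset Edg) (f g : Finset Edg → ℝ) :
    Ex P2 S (fun F => f F * g F) ≤ √(Ex P2 S (fun F => f F ^ 2)) * √(Ex P2 S (fun F => g F ^ 2)) := by
  unfold Ex
  have hw : ∀ F : Finset Edg, 0 ≤ (∏ e ∈ F, P2 e) * (∏ e ∈ S \ F, (1 - P2 e)) := by
    intro F
    apply mul_nonneg
    · exact Finset.prod_nonneg fun e _ => (ok2 e).1
    · exact Finset.prod_nonneg fun e _ => by linarith [(ok2 e).2]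
  have h := Real.sum_mul_le_sqrt_mul_sqrt S.powerset
    (fun F => √((∏ e ∈ F, P2 e) * (∏ e ∈ S \ F, (1 - P2 e))) * f F)
    (fun F => √((∏ e ∈ F, P2 e) * (∏ e ∈ S \ F, (1 - P2 e))) * g F)
  have e1 : ∀ F : Finset Edg, √((∏ e ∈ F, P2 e) * (∏ e ∈ S \ F, (1 - P2 e))) * f F *
      (√((∏ e ∈ F, P2 e) * (∏ e ∈ S \ F, (1 - P2 e))) * g F) =
      (∏ e ∈ F, P2 e) * (∏ e ∈ S \ F, (1 - P2 e)) * (f F * g F) := by
    intro F
    have := Real.mul_self_sqrt (hw F)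
    calc _ = (√((∏ e ∈ F, P2 e) * (∏ e ∈ S \ F, (1 - P2 e))) *
        √((∏ e ∈ F, P2 e) * (∏ e ∈ S \ F, (1 - P2 e)))) * (f F * g F) := by ring
      _ = _ := by rw [this]
  have e2 : ∀ (f : Finset Edg → ℝ) (F : Finset Edg),
      (√((∏ e ∈ F, P2 e) * (∏ e ∈ S \ F, (1 - P2 e))) * f F) ^ 2 =
      (∏ e ∈ F, P2 e) * (∏ e ∈ S \ F, (1 - P2 e)) * f F ^ 2 := by
    intro f F
    rw [mul_pow, Real.sq_sqrt (hw F)]
  simp only [e1, e2] at h
  exact h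

theorem Ex_le_sqrt (S : Finset Edg) (f : Finset Edg → ℝ) :
    Ex P2 S f ≤ √(Ex P2 S (fun F => f F ^ 2)) := by
  have h := Ex_cs S f (fun _ => 1)
  simp only [mul_one, one_pow, Ex_const, Real.sqrt_one] at h
  exact h

end Pool.Agent.U154.UT
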