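import Pool.Agent.H450R4.NLCyl2

/-!
A local limit theorem for sums of independent Bernoulli variables, uniform in the parameters.
-/

set_option autoImplicit false

namespace Pool.Agent.U154.UT

open MeasureTheory Real Filter Topology
open Pool.Agent.H450R4.NL (Ph one_norm cos_up Ph_cont)
open Pool.Agent.H863R2.NL.CLTAux (taylor prod_diff norm_r)

/-- one factor -/
theorem factor' {p w : ℝ} (hp0 : 0 ≤ p) (hp1 : p ≤ 1) (hw : |w| ≤ 1 / 2) :
    ‖(1 + (p : ℂ) * (Complex.exp (w * Complex.I) - 1)) -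
      Complex.exp ((p * w : ℝ) * Complex.I - (p * (1 - p) * w ^ 2 / 2 : ℝ))‖ ≤ 6 * p * |w| ^ 3 := by
  obtain ⟨z, hz⟩ : ∃ z : ℂ, z = (p * w : ℝ) * Complex.I - (p * (1 - p) * w ^ 2 / 2 : ℝ) := ⟨_, rfl⟩
  rw [← hz]
  have hw0 := abs_nonneg w
  have hw1 : |w| ≤ 1 := by linarith
  have hwn : ‖(w : ℂ) * Complex.I‖ = |w| := by simp
  have hw2 : w ^ 2 = |w| ^ 2 := (sq_abs w).symm
  have hzn : ‖z‖ ≤ 3 / 2 * p * |w| := by
    rw [hz]
    refine (norm_sub_le _ _).trans ?_
    rw [norm_mul, Complex.norm_I, mul_one, Complex.norm_real, Complex.norm_real, Real.norm_eq_abs,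
      Real.norm_eq_abs, abs_mul, abs_of_nonneg hp0]
    have h1 : |p * (1 - p) * w ^ 2 / 2| ≤ p * |w| / 2 := by
      have h2 : 0 ≤ p * (1 - p) * w ^ 2 / 2 := by
        have : 0 ≤ 1 - p := by linarith
        positivity
      rw [abs_of_nonneg h2, hw2]
      have h3 : (1 - p) * |w| ^ 2 ≤ |w| := by nlinarith
      have := mul_le_mul_of_nonneg_left h3 hp0
      linarith
    linarith
  have hpw : p * |w| ≤ 1 / 2 := by nlinarith
  have hz1 : ‖z‖ ≤ 1 := by linarith
  have t1 := taylor (z := (w : ℂ) * Complex.I) (by rw [hwn]; exact hw1)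
  have t2 := taylor hz1
  rw [hwn] at t1
  have hzz : z ^ 2 / 2 + (p ^ 2 * w ^ 2 / 2 : ℝ) =
      (-(p ^ 2 * (1 - p) * w ^ 3 / 2) : ℝ) * Complex.I + (p ^ 2 * (1 - p) ^ 2 * w ^ 4 / 8 : ℝ) := by
    rw [hz]
    push_cast
    ring_nf
    simp only [Complex.I_sq]
    ring
  have hid : (1 + (p : ℂ) * (Complex.exp (w * Complex.I) - 1)) - Complex.exp z =
      (p : ℂ) * (Complex.exp (w * Complex.I) - (1 + w * Complex.I + (w * Complex.I) ^ 2 / 2)) -
      (z ^ 2 / 2 + (p ^ 2 * w ^ 2 / 2 : ℝ)) - (Complex.exp z - (1 + z + z ^ 2 / 2)) := by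
    rw [hz]
    push_cast
    ring_nf
    simp only [Complex.I_sq]
    ring
  rw [hid]
  refine (norm_sub_le _ _).trans ?_
  have hp3 : 0 ≤ 1 - p := by linarith
  have b1 : ‖(p : ℂ) * (Complex.exp (w * Complex.I) - (1 + w * Complex.I + (w * Complex.I) ^ 2 / 2))‖ ≤
      p * |w| ^ 3 := by
    rw [norm_mul, Complex.norm_real, Real.norm_eq_abs, abs_of_nonneg hp0]
    exact mul_le_mul_of_nonneg_left t1 hp0
  have b2 : ‖z ^ 2 / 2 + (p ^ 2 * w ^ 2 / 2 : ℝ)‖ ≤ p * |w| ^ 3 := by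
    rw [hzz]
    refine (norm_add_le _ _).trans ?_
    rw [norm_mul, Complex.norm_I, mul_one, Complex.norm_real, Complex.norm_real, Real.norm_eq_abs,
      Real.norm_eq_abs, abs_neg]
    have c1 : |p ^ 2 * (1 - p) * w ^ 3 / 2| ≤ p * |w| ^ 3 / 2 := by
      rw [abs_div, abs_mul, abs_pow, abs_of_nonneg (by positivity : 0 ≤ p ^ 2 * (1 - p)), abs_two]
      have : p ^ 2 * (1 - p) ≤ p := by nlinarith
      have := mul_le_mul_of_nonneg_right this (by positivity : 0 ≤ |w| ^ 3)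
      linarith
    have c2 : |p ^ 2 * (1 - p) ^ 2 * w ^ 4 / 8| ≤ p * |w| ^ 3 / 8 := by
      rw [abs_div, abs_mul, abs_pow, abs_of_nonneg (by positivity : 0 ≤ p ^ 2 * (1 - p) ^ 2)]
      have h5 : p ^ 2 * (1 - p) ^ 2 ≤ p := by nlinarith [sq_nonneg (1 - p), mul_nonneg hp0 hp3]
      have h6 : |w| ^ 4 ≤ |w| ^ 3 := pow_le_pow_of_le_one hw0 hw1 (by norm_num)
      have h7 : p ^ 2 * (1 - p) ^ 2 * |w| ^ 4 ≤ p * |w| ^ 3 :=
        mul_le_mul h5 h6 (by positivity) hp0
      rw [abs_of_nonneg (by norm_num : (0:ℝ) ≤ 8)]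
      linarith
    have : 0 ≤ p * |w| ^ 3 := by positivity
    linarith
  have b3 : ‖Complex.exp z - (1 + z + z ^ 2 / 2)‖ ≤ 4 * (p * |w| ^ 3) := by
    refine t2.trans ?_
    have h1 : ‖z‖ ^ 3 ≤ (3 / 2 * p * |w|) ^ 3 := pow_le_pow_left₀ (norm_nonneg _) hzn 3
    have h2 : (3 / 2 * p * |w|) ^ 3 = (27 / 8 * p ^ 2) * (p * |w| ^ 3) := by ring
    rw [h2] at h1
    have h3 : 27 / 8 * p ^ 2 ≤ 4 := by nlinarith
    have h4 : 0 ≤ p * |w| ^ 3 := by positivity
    have := mul_le_mul_of_nonneg_right h3 h4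
    linarith
  have b4 := norm_sub_le ((p : ℂ) * (Complex.exp (w * Complex.I) -
    (1 + w * Complex.I + (w * Complex.I) ^ 2 / 2))) (z ^ 2 / 2 + (p ^ 2 * w ^ 2 / 2 : ℝ))
  linarith

theorem norm_q' {p w : ℝ} (hp0 : 0 ≤ p) (hp1 : p ≤ 1) :
    ‖1 + (p : ℂ) * (Complex.exp (w * Complex.I) - 1)‖ ≤ 1 := by
  have e : 1 + (p : ℂ) * (Complex.exp (w * Complex.I) - 1) =
      ((1 - p : ℝ) : ℂ) + (p : ℂ) * Complex.exp (w * Complex.I) := by
    push_cast
    ring
  rw [e]
  refine (norm_add_le _ _).trans ?_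
  rw [norm_mul, Complex.norm_exp_ofReal_mul_I, mul_one, Complex.norm_real, Complex.norm_real,
    Real.norm_eq_abs, Real.norm_eq_abs, abs_of_nonneg hp0, abs_of_nonneg (by linarith)]
  linarith

theorem char_approx' (s : Multiset ℝ) (hs : ∀ p ∈ s, 0 < p ∧ p ≤ 1) {w : ℝ} (hw : |w| ≤ 1 / 2) :
    ‖Ph s w - Complex.exp ((w * s.sum : ℝ) * Complex.I -
        (w ^ 2 * (s.map (fun p => p * (1 - p))).sum / 2 : ℝ))‖ ≤ 6 * |w| ^ 3 * s.sum := by
  have h := (prod_diff s (fun p : ℝ => 1 + (p : ℂ) * (Complex.exp (w * Complex.I) - 1))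
    (fun p : ℝ => Complex.exp ((p * w : ℝ) * Complex.I - (p * (1 - p) * w ^ 2 / 2 : ℝ)))
    (fun p => 6 * p * |w| ^ 3)
    (fun p hp => norm_q' (hs p hp).1.le (hs p hp).2)
    (fun p hp => norm_r (by
      have h1 := hs p hp
      have : 0 ≤ 1 - p := by linarith [h1.2]
      have := h1.1
      positivity))
    (fun p hp => factor' (hs p hp).1.le (hs p hp).2 hw)).2.2
  have e1 : ∀ s : Multiset ℝ, (s.map (fun p : ℝ =>
      Complex.exp ((p * w : ℝ) * Complex.I - (p * (1 - p) * w ^ 2 / 2 : ℝ)))).prod =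
      Complex.exp ((w * s.sum : ℝ) * Complex.I -
        (w ^ 2 * (s.map (fun p => p * (1 - p))).sum / 2 : ℝ)) := by
    intro s
    induction s using Multiset.induction_on with
    | empty => simp
    | cons a s ih =>
      simp only [Multiset.map_cons, Multiset.prod_cons, Multiset.sum_cons]
      rw [ih, ← Complex.exp_add]
      congr 1
      push_cast
      ring
  have e2 : ∀ s : Multiset ℝ, (s.map (fun p : ℝ => 6 * p * |w| ^ 3)).sum = 6 * |w| ^ 3 * s.sum := by
    intro s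
    induction s using Multiset.induction_on with
    | empty => simp
    | cons a s ih =>
      simp only [Multiset.map_cons, Multiset.sum_cons]
      rw [ih]
      ring
  rw [e1, e2] at h
  exact h

theorem Ph_norm' (s : Multiset ℝ) (hs : ∀ p ∈ s, 0 < p ∧ p ≤ 1) (u : ℝ) :
    ‖Ph s u‖ ≤ exp (-(s.map (fun p => p * (1 - p))).sum * (1 - cos u)) := by
  unfold Ph
  induction s using Multiset.induction_on with
  | empty => simp
  | cons a s ih =>
    have ih' := ih (fun p hp => hs p (Multiset.mem_cons_of_mem hp))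
    have ha := hs a (Multiset.mem_cons_self a s)
    simp only [Multiset.map_cons, Multiset.prod_cons, Multiset.sum_cons]
    rw [norm_mul]
    calc _ ≤ exp (-(a * (1 - a)) * (1 - cos u)) *
          exp (-(s.map (fun p => p * (1 - p))).sum * (1 - cos u)) :=
          mul_le_mul (one_norm ha.1.le ha.2) ih' (norm_nonneg _) (exp_pos _).le
      _ = _ := by
          rw [← exp_add]
          congr 1
          ring

/-- the Gaussian integral -/
theorem gauss_int {V m : ℝ} (hV : 0 < V) :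
    ∫ u : ℝ, Complex.exp ((m * u : ℝ) * Complex.I - (V * u ^ 2 / 2 : ℝ)) =
      ((√(2 * π / V) * exp (-(m ^ 2 / (2 * V))) : ℝ) : ℂ) := by
  have h := integral_cexp_quadratic (b := ((-(V / 2) : ℝ) : ℂ)) (by
    rw [Complex.ofReal_re]; linarith) ((m : ℂ) * Complex.I) 0
  have e1 : ∀ u : ℝ, Complex.exp ((m * u : ℝ) * Complex.I - (V * u ^ 2 / 2 : ℝ)) =
      Complex.exp (((-(V / 2) : ℝ) : ℂ) * (u : ℂ) ^ 2 + (m : ℂ) * Complex.I * u + 0) := by
    intro u
    congr 1
    push_cast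
    ring
  simp_rw [e1]
  rw [h]
  have hVc : (V : ℂ) ≠ 0 := by exact_mod_cast hV.ne'
  have e2 : (π : ℂ) / -(((-(V / 2) : ℝ) : ℂ)) = ((2 * π / V : ℝ) : ℂ) := by
    push_cast
    field_simp
  have e3 : (0 : ℂ) - ((m : ℂ) * Complex.I) ^ 2 / (4 * ((-(V / 2) : ℝ) : ℂ)) =
      ((-(m ^ 2 / (2 * V)) : ℝ) : ℂ) := by
    rw [mul_pow, Complex.I_sq]
    push_cast
    field_simp
    ring
  rw [e2, e3, ← Complex.ofReal_exp]
  have e4 : (((2 * π / V : ℝ) : ℂ)) ^ (1 / 2 : ℂ) = ((√(2 * π / V) : ℝ) : ℂ) := by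
    rw [Real.sqrt_eq_rpow, Complex.ofReal_cpow (by positivity)]
    norm_num
  rw [e4]
  push_cast
  ring

/-- the local limit theorem -/
theorem llt {c ε : ℝ} (hc : 0 < c) (hε : 0 < ε) : ∃ V0 : ℝ, 0 < V0 ∧ ∀ (s : Multiset ℝ),
    (∀ p ∈ s, 0 < p ∧ p ≤ 1) → ∀ V : ℝ, V = (s.map (fun p => p * (1 - p))).sum → V0 ≤ V →
    s.sum ≤ c * V → ∀ (k : ℕ) (P : ℝ),
    ∫ u in (-π)..π, Ph s u * Complex.exp (-(k * (u * Complex.I))) = (P : ℂ) * (2 * π) →
    |P - exp (-((s.sum - k) ^ 2 / (2 * V))) / √(2 * π * V)| ≤ ε / √V := by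
  have hpi := pi_pos
  have hpi3 := pi_gt_three
  obtain ⟨b, hb⟩ : ∃ b : ℝ, b = 2 / π ^ 2 := ⟨_, rfl⟩
  have hb0 : 0 < b := by rw [hb]; positivity
  have hb1 : b ≤ 1 / 2 := by
    rw [hb, div_le_iff₀ (by positivity)]
    nlinarith
  -- the choice of `R`
  obtain ⟨R, hR0, hR⟩ : ∃ R : ℝ, 0 < R ∧ 2 * exp (-(b / 2) * R ^ 2) * √(2 * π / b) ≤ ε / 2 := by
    have h1 : Tendsto (fun R : ℝ => 2 * exp (-(b / 2) * R ^ 2) * √(2 * π / b)) atTop
        (𝓝 (2 * 0 * √(2 * π / b))) := by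
      apply Tendsto.mul_const
      apply Tendsto.const_mul
      apply tendsto_exp_atBot.comp
      exact (tendsto_pow_atTop (by norm_num : (2:ℕ) ≠ 0)).const_mul_atTop_of_neg (by linarith)
    rw [mul_zero, zero_mul] at h1
    obtain ⟨R, hR1, hR2⟩ := ((h1.eventually_le_const (show 0 < ε / 2 by positivity)).and
      (eventually_gt_atTop 0)).exists
    exact ⟨R, hR2, hR1⟩
  obtain ⟨D, hD⟩ : ∃ D : ℝ, D = 6 * c * R ^ 3 * exp (R ^ 2) * √π := ⟨_, rfl⟩
  have hD0 : 0 < D := by rw [hD]; positivity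
  refine ⟨max ((2 * R) ^ 2) ((2 * D / ε) ^ 2), lt_max_of_lt_left (by positivity), ?_⟩
  intro s hs V hV hV0 hsum k P h
  have v1 : (2 * R) ^ 2 ≤ V := (le_max_left _ _).trans hV0
  have v2 : (2 * D / ε) ^ 2 ≤ V := (le_max_right _ _).trans hV0
  have hVp : 0 < V := lt_of_lt_of_le (by positivity) v1
  have hq : 0 < √V := sqrt_pos.2 hVp
  have hqq : √V ^ 2 = V := sq_sqrt hVp.le
  have q1 : 2 * R ≤ √V := (le_sqrt (by positivity) hVp.le).2 v1
  have q2 : 2 * D / ε ≤ √V := (le_sqrt (by positivity) hVp.le).2 v2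
  obtain ⟨m, hm⟩ : ∃ m : ℝ, m = s.sum - k := ⟨_, rfl⟩
  obtain ⟨f, hf⟩ : ∃ f : ℝ → ℂ, f = fun u => Ph s u * Complex.exp (-(k * (u * Complex.I))) :=
    ⟨_, rfl⟩
  obtain ⟨G, hG⟩ : ∃ G : ℝ → ℂ, G = fun u =>
    Complex.exp ((m * u : ℝ) * Complex.I - (V * u ^ 2 / 2 : ℝ)) := ⟨_, rfl⟩
  obtain ⟨H, hH⟩ : ∃ H : ℝ → ℝ, H = fun u =>
    (6 * c * R ^ 3 * exp (R ^ 2) / √V) * exp (-V * u ^ 2) +
      2 * exp (-(b / 2) * R ^ 2) * exp (-(b * V / 2) * u ^ 2) := ⟨_, rfl⟩
  have hfn : ∀ u, |u| ≤ π → ‖f u‖ ≤ exp (-(b * V) * u ^ 2) := by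
    intro u hu
    have e : ‖Complex.exp (-(k * (u * Complex.I)))‖ = 1 := by
      rw [show (-(k * (u * Complex.I)) : ℂ) = ((-(k * u) : ℝ) : ℂ) * Complex.I by push_cast; ring]
      exact Complex.norm_exp_ofReal_mul_I _
    rw [hf]
    simp only
    rw [norm_mul, e, mul_one]
    refine (Ph_norm' s hs u).trans ?_
    rw [← hV]
    apply exp_le_exp.2
    have := mul_le_mul_of_nonneg_left (cos_up hu) hVp.le
    rw [← hb] at this
    linarith
  have hGn : ∀ u, ‖G u‖ = exp (-(V / 2) * u ^ 2) := by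
    intro u
    rw [hG]
    simp only
    rw [Complex.norm_exp]
    congr 1
    simp only [Complex.sub_re, Complex.mul_re, Complex.ofReal_re, Complex.I_re, mul_zero,
      Complex.ofReal_im, Complex.I_im, mul_one, sub_self, zero_sub]
    ring
  have hGb : ∀ u : ℝ, exp (-(V / 2) * u ^ 2) ≤ exp (-(b * V) * u ^ 2) := by
    intro u
    apply exp_le_exp.2
    have : b * V * u ^ 2 ≤ 1 / 2 * V * u ^ 2 := by
      apply mul_le_mul_of_nonneg_right _ (sq_nonneg u)
      exact mul_le_mul_of_nonneg_right hb1 hVp.le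
    linarith
  have hfar : ∀ u : ℝ, R / √V < |u| → exp (-(b * V) * u ^ 2) ≤
      exp (-(b / 2) * R ^ 2) * exp (-(b * V / 2) * u ^ 2) := by
    intro u hu
    rw [← exp_add]
    apply exp_le_exp.2
    have h1 : R ^ 2 ≤ V * u ^ 2 := by
      rw [div_lt_iff₀ hq] at hu
      have h2 : R ^ 2 ≤ (|u| * √V) ^ 2 := pow_le_pow_left₀ hR0.le hu.le 2
      rw [mul_pow, sq_abs, hqq] at h2
      linarith
    nlinarith
  -- the pointwise bound
  have key : ∀ u, ‖(Set.Ioc (-π) π).indicator f u - G u‖ ≤ H u := by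
    intro u
    have hn1 : 0 ≤ (6 * c * R ^ 3 * exp (R ^ 2) / √V) * exp (-V * u ^ 2) := by positivity
    have hn2 : 0 ≤ 2 * exp (-(b / 2) * R ^ 2) * exp (-(b * V / 2) * u ^ 2) := by positivity
    rw [hH]
    simp only
    rcases le_or_gt |u| (R / √V) with hu | hu
    · have hu1 : |u| ≤ 1 / 2 := by
        refine hu.trans ?_
        rw [div_le_iff₀ hq]
        linarith
      have hmem : u ∈ Set.Ioc (-π) π := by
        have := abs_le.1 hu1
        exact ⟨by linarith [this.1], by linarith [this.2]⟩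
      rw [Set.indicator_of_mem hmem]
      have e : ‖Complex.exp (-(k * (u * Complex.I)))‖ = 1 := by
        rw [show (-(k * (u * Complex.I)) : ℂ) = ((-(k * u) : ℝ) : ℂ) * Complex.I by
          push_cast; ring]
        exact Complex.norm_exp_ofReal_mul_I _
      have h1 := char_approx' s hs hu1
      rw [← hV] at h1
      have h2 : f u - G u = (Ph s u - Complex.exp ((u * s.sum : ℝ) * Complex.I -
          (u ^ 2 * V / 2 : ℝ))) * Complex.exp (-(k * (u * Complex.I))) := by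
        rw [sub_mul, ← Complex.exp_add, hf, hG, hm]
        simp only
        congr 2
        push_cast
        ring
      rw [h2, norm_mul, e, mul_one]
      have h3 : 6 * |u| ^ 3 * s.sum ≤ 6 * (R / √V) ^ 3 * (c * V) := by
        apply mul_le_mul _ hsum _ (by positivity)
        · exact mul_le_mul_of_nonneg_left (pow_le_pow_left₀ (abs_nonneg _) hu 3) (by norm_num)
        · apply Multiset.sum_nonneg
          intro p hp
          exact (hs p hp).1.le
      have h4 : 6 * (R / √V) ^ 3 * (c * V) = 6 * c * R ^ 3 / √V := by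
        rw [← hqq]
        field_simp
        rw [Real.sqrt_sq hq.le]
      have h5 : 1 ≤ exp (R ^ 2) * exp (-V * u ^ 2) := by
        rw [← exp_add]
        apply one_le_exp
        have h6 : (|u| * √V) ^ 2 ≤ R ^ 2 := by
          apply pow_le_pow_left₀ (by positivity)
          rwa [le_div_iff₀ hq] at hu
        rw [mul_pow, sq_abs, hqq] at h6
        linarith
      have h7 : 6 * c * R ^ 3 / √V ≤ (6 * c * R ^ 3 * exp (R ^ 2) / √V) * exp (-V * u ^ 2) := by
        have h8 : 0 ≤ 6 * c * R ^ 3 / √V := by positivity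
        calc 6 * c * R ^ 3 / √V = 6 * c * R ^ 3 / √V * 1 := by ring
          _ ≤ 6 * c * R ^ 3 / √V * (exp (R ^ 2) * exp (-V * u ^ 2)) :=
              mul_le_mul_of_nonneg_left h5 h8
          _ = _ := by ring
      linarith
    · have h1 := hfar u hu
      have h2 := hGb u
      have h3 : ‖(Set.Ioc (-π) π).indicator f u‖ ≤ exp (-(b * V) * u ^ 2) := by
        by_cases hmem : u ∈ Set.Ioc (-π) π
        · rw [Set.indicator_of_mem hmem]
          exact hfn u (abs_le.2 ⟨hmem.1.le, hmem.2⟩)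
        · rw [Set.indicator_of_notMem hmem, norm_zero]
          exact (exp_pos _).le
      have h4 := norm_sub_le ((Set.Ioc (-π) π).indicator f u) (G u)
      rw [hGn] at h4
      linarith
  -- integrability
  have hfc : Continuous f := by
    rw [hf]
    exact (Ph_cont s).mul (by fun_prop)
  have i1 : Integrable ((Set.Ioc (-π) π).indicator f) := by
    rw [integrable_indicator_iff measurableSet_Ioc]
    exact (hfc.intervalIntegrable (μ := volume) (-π) π).1
  have i3 : Integrable H := by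
    rw [hH]
    exact ((integrable_exp_neg_mul_sq hVp).const_mul _).add
      ((integrable_exp_neg_mul_sq (show 0 < b * V / 2 by positivity)).const_mul _)
  have hGc : Continuous G := by
    rw [hG]
    fun_prop
  have i2 : Integrable G := by
    refine (integrable_exp_neg_mul_sq (show 0 < V / 2 by positivity)).mono'
      hGc.aestronglyMeasurable ?_
    exact Eventually.of_forall fun u => (hGn u).le
  have j1 := norm_integral_le_of_norm_le i3 (Eventually.of_forall key)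
  rw [integral_sub i1 i2, integral_indicator measurableSet_Ioc,
    ← intervalIntegral.integral_of_le (by linarith)] at j1
  have j2 : ∫ u in (-π)..π, f u = (P : ℂ) * (2 * π) := by
    rw [hf]
    exact h
  have j3 : ∫ u, G u = ((√(2 * π / V) * exp (-(m ^ 2 / (2 * V))) : ℝ) : ℂ) := by
    rw [hG]
    exact gauss_int hVp
  rw [j2, j3] at j1
  have j4 : ∫ u, H u = 6 * c * R ^ 3 * exp (R ^ 2) / √V * √(π / V) +
      2 * exp (-(b / 2) * R ^ 2) * √(π / (b * V / 2)) := by
    rw [hH, integral_add ((integrable_exp_neg_mul_sq hVp).const_mul _)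
      ((integrable_exp_neg_mul_sq (show 0 < b * V / 2 by positivity)).const_mul _),
      integral_const_mul, integral_const_mul, integral_gaussian, integral_gaussian]
  rw [j4] at j1
  have j5 : ‖(P : ℂ) * (2 * π) - ((√(2 * π / V) * exp (-(m ^ 2 / (2 * V))) : ℝ) : ℂ)‖ =
      |P * (2 * π) - √(2 * π / V) * exp (-(m ^ 2 / (2 * V)))| := by
    rw [← Real.norm_eq_abs, ← Complex.norm_real]
    congr 1
    push_cast
    ring
  rw [j5] at j1
  have j6 : 6 * c * R ^ 3 * exp (R ^ 2) / √V * √(π / V) = D / √V / √V := by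
    rw [Real.sqrt_div hpi.le, hD]
    ring
  have j7 : 2 * exp (-(b / 2) * R ^ 2) * √(π / (b * V / 2)) =
      2 * exp (-(b / 2) * R ^ 2) * √(2 * π / b) / √V := by
    have : π / (b * V / 2) = 2 * π / b / V := by field_simp
    rw [this, Real.sqrt_div (by positivity)]
    ring
  have j8 : D / √V ≤ ε / 2 := by
    rw [div_le_iff₀ hε] at q2
    rw [div_le_iff₀ hq]
    linarith
  have j9 : 6 * c * R ^ 3 * exp (R ^ 2) / √V * √(π / V) +
      2 * exp (-(b / 2) * R ^ 2) * √(π / (b * V / 2)) ≤ ε / √V := by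
    rw [j6, j7, ← add_div]
    exact div_le_div_of_nonneg_right (by linarith) hq.le
  have j10 : √(2 * π / V) = (2 * π) / √(2 * π * V) := by
    have h3 : √(2 * π / V) = √(2 * π) / √V := Real.sqrt_div (by positivity) V
    have h4 : √(2 * π * V) = √(2 * π) * √V := Real.sqrt_mul (by positivity) V
    have h2 : 0 < √(2 * π) := sqrt_pos.2 (by positivity)
    rw [h3, h4, div_eq_div_iff hq.ne' (by positivity)]
    have : √(2 * π) * √(2 * π) = 2 * π := Real.mul_self_sqrt (by positivity)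
    calc √(2 * π) * (√(2 * π) * √V) = (√(2 * π) * √(2 * π)) * √V := by ring
      _ = _ := by rw [this]
  have j11 : P * (2 * π) - √(2 * π / V) * exp (-(m ^ 2 / (2 * V))) =
      (P - exp (-(m ^ 2 / (2 * V))) / √(2 * π * V)) * (2 * π) := by
    rw [j10]
    ring
  rw [j11, abs_mul, abs_of_pos (show 0 < 2 * π by positivity)] at j1
  rw [← hm]
  have j12 := j1.trans j9
  have h0 := abs_nonneg (P - exp (-(m ^ 2 / (2 * V))) / √(2 * π * V))
  nlinarith

end Pool.Agent.U154.UT
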