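import Pool.Agent.H863R2.NL.PsSum

/-!
Sums over the parameters of the law on the cylinder, uniformly in the function.
-/

set_option autoImplicit false

namespace Pool.Agent.U154.UT

open Finset MeasureTheory Filter
open Pool.Agent.H160R2.OA (J IsMu)
open Pool.Agent.H160R2.SA (dens_u Z_core Z_exp Z_nonneg Z_le Z_even)
open Pool.Agent.H863R2.NL (IsPs bern)
open Pool.Agent.H863R2.NL.IntAux
open Pool.Agent.H863R2.NL.SumAux
open scoped Real

theorem int_le {G h : ℝ → ℝ} {K : ℝ} (h0 : ∀ x, 0 ≤ x → 0 ≤ h x)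
    (hK : ∀ x, 0 ≤ x → h x ≤ K * Real.exp (-x)) (hG : ∀ x, HasDerivAt G (-h x) x)
    (heven : ∀ x, G (-x) = G x) (hlim : Tendsto G atTop (nhds 0)) :
    ∫ x, G x ≤ 2 * K := by
  have hGc : Continuous G := continuous_iff_continuousAt.2 fun x => (hG x).continuousAt
  have e1 : ∫ x, G x = 2 * ∫ x in Set.Ioi (0 : ℝ), G x := by
    rw [← integral_comp_abs]
    refine integral_congr_ae (Eventually.of_forall fun x => ?_)
    exact (Z_even heven x).symm
  have hexp : IntegrableOn (fun x : ℝ => K * Real.exp (-x)) (Set.Ioi 0) :=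
    (integrableOn_exp_neg_Ioi 0).const_mul K
  have hGi : IntegrableOn G (Set.Ioi 0) := by
    refine hexp.mono' hGc.aestronglyMeasurable ?_
    refine (ae_restrict_iff' measurableSet_Ioi).2 (Eventually.of_forall fun t ht => ?_)
    have ht' : (0 : ℝ) ≤ t := le_of_lt ht
    rw [Real.norm_eq_abs, abs_of_nonneg (Z_nonneg h0 hG heven hlim t)]
    exact Z_le h0 hK hG hlim t ht'
  have e2 : ∫ x in Set.Ioi (0 : ℝ), G x ≤ K := by
    have : ∫ x in Set.Ioi (0 : ℝ), G x ≤ ∫ x in Set.Ioi (0 : ℝ), K * Real.exp (-x) := by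
      refine setIntegral_mono_on hGi hexp measurableSet_Ioi fun t ht => ?_
      exact Z_le h0 hK hG hlim t (le_of_lt ht)
    refine this.trans (le_of_eq ?_)
    rw [integral_const_mul, integral_exp_neg_Ioi]
    simp
  rw [e1]
  linarith

theorem sum_u' : ∃ C : ℝ, 0 ≤ C ∧ ∀ (G h : ℝ → ℝ) (K : ℝ), Continuous h →
    (∀ x, 0 ≤ x → 0 ≤ h x) → (∀ x, 0 ≤ x → h x ≤ K * Real.exp (-x)) →
    (∀ x, HasDerivAt G (-h x) x) → (∀ x, G (-x) = G x) → Tendsto G atTop (nhds 0) →
    ∀ L : ℕ, 1 ≤ L → ∀ (hJ : (J L).IsHermitian) (μ : Fin L → ℝ), IsMu L hJ μ →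
      3 / (2 * π ^ 2) * (∫ x, G x) * Real.log L - C * K ≤ ∑ i, G (Real.log (μ i)) := by
  obtain ⟨C0, c, hC0, hc, L0, hd⟩ := dens_u
  obtain ⟨α, hα⟩ : ∃ α : ℝ, α = 3 / π ^ 2 := ⟨_, rfl⟩
  have hα0 : 0 ≤ α := by rw [hα]; positivity
  have hα2 : 3 / (2 * π ^ 2) = α / 2 := by rw [hα]; field_simp
  have hlog0 : 0 ≤ Real.log (L0 : ℝ) := Real.log_natCast_nonneg L0
  refine ⟨8 * α / c + 5 * C0 + α * Real.log L0, by positivity, ?_⟩
  intro G h K hh h0 hK hG heven hlim L hL hJ μ hμ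
  have hK0 : 0 ≤ K := by
    have := (h0 0 le_rfl).trans (hK 0 le_rfl)
    simpa using this
  have hG0 : ∀ x, 0 ≤ G x := Z_nonneg h0 hG heven hlim
  have hI : 0 ≤ ∫ x, G x := integral_nonneg hG0
  have hI2 := int_le h0 hK hG heven hlim
  rw [hα2]
  have h1 : 0 ≤ 8 * α * K / c := by positivity
  have h2 : 0 ≤ 5 * C0 * K := by positivity
  have h3 : 0 ≤ α / 2 * (∫ x, G x) := by positivity
  have h3' : α / 2 * (∫ x, G x) * Real.log L0 ≤ α * K * Real.log L0 := by
    apply mul_le_mul_of_nonneg_right _ hlog0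
    have := mul_le_mul_of_nonneg_left hI2 (show 0 ≤ α / 2 by positivity)
    linarith
  have e0 : (8 * α / c + 5 * C0 + α * Real.log L0) * K =
      8 * α * K / c + 5 * C0 * K + α * K * Real.log L0 := by ring
  rw [e0]
  rcases le_or_gt L0 L with hLL | hLL
  · obtain ⟨Λ, hΛ⟩ : ∃ Λ, Λ = Real.log (L : ℝ) := ⟨_, rfl⟩
    rw [← hΛ]
    have hΛ0 : 0 ≤ Λ := by rw [hΛ]; exact Real.log_natCast_nonneg L
    obtain ⟨T, hT⟩ : ∃ T, T = √(c * Λ) := ⟨_, rfl⟩
    have hT0 : 0 ≤ T := by rw [hT]; exact Real.sqrt_nonneg _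
    have hT2 : T ^ 2 = c * Λ := by rw [hT]; exact Real.sq_sqrt (by positivity)
    have key := Z_core hh h0 hK hG heven hlim (fun i => Real.log (μ i)) T α Λ C0 hT0 hα0 hΛ0 hC0.le
      (fun t ht htT => by
        rw [hΛ, hα]
        refine hd L hLL hJ μ hμ t ht ?_
        rw [← hΛ, ← hT2]
        exact pow_le_pow_left₀ ht htT 2)
    have h4 : α * Λ * K * ((1 + T) * Real.exp (-T)) ≤ 8 * α * K / c := by
      have h5 := Z_exp T hT0
      rw [hT2] at h5
      have h6 : α * Λ * K * ((1 + T) * Real.exp (-T)) =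
          α * K / c * (c * Λ * ((1 + T) * Real.exp (-T))) := by
        field_simp
      rw [h6]
      have h7 := mul_le_mul_of_nonneg_left h5 (show 0 ≤ α * K / c by positivity)
      refine h7.trans (le_of_eq ?_)
      ring
    have h5 : 0 ≤ α * K * Real.log L0 := by positivity
    linarith
  · have h4 : 0 ≤ ∑ i, G (Real.log (μ i)) := Finset.sum_nonneg fun i _ => hG0 _
    have h5 : Real.log (L : ℝ) ≤ Real.log (L0 : ℝ) :=
      Real.log_le_log (by exact_mod_cast hL) (by exact_mod_cast hLL.le)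
    have h6 := mul_le_mul_of_nonneg_left h5 h3
    linarith

open Pool.Agent.H160R2.NE (cal cal_eq cal_nonneg cal_cont cal_int cal_integral cal_sum) in
theorem sum_two' : ∃ C : ℝ, 0 ≤ C ∧ ∀ (H H' : ℝ → ℝ) (B : ℝ),
    (∀ p, 0 ≤ p → p ≤ 1 / 3 → HasDerivAt H (H' p) p) →
    ContinuousOn H' (Set.Icc 0 (1 / 3)) → H 0 = 0 → (∀ p ∈ Set.Icc (0:ℝ) (1 / 3), |H' p| ≤ B) →
    ∀ L : ℕ, 1 ≤ L → ∀ (hJ : (J L).IsHermitian) (μ : Fin L → ℝ), IsMu L hJ μ →
      |∑ i, H (1 / (2 * Real.cosh (Real.log (μ i)) + 1)) -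
        3 / (2 * π ^ 2) * (∫ x, H (1 / (2 * Real.cosh x + 1))) * Real.log L| ≤ C * B := by
  have hπ := Real.pi_pos
  obtain ⟨C, hC0, hC⟩ := sum_u'
  have hlog2 : 0 ≤ Real.log 2 := Real.log_nonneg (by norm_num)
  refine ⟨12 * C + 2 * Real.log 2, by positivity, ?_⟩
  intro H H' B hH hH' h0 hB L hL hJ μ hμ
  have hB0 : 0 ≤ B := (abs_nonneg _).trans (hB 0 (by constructor <;> norm_num))
  obtain ⟨P, hP⟩ : ∃ P : ℝ → ℝ, P = fun x => 1 / (2 * Real.cosh x + 1) := ⟨_, rfl⟩
  obtain ⟨G, hG⟩ : ∃ G : ℝ → ℝ, G = fun x => H (P x) := ⟨_, rfl⟩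
  obtain ⟨h, hh⟩ : ∃ h : ℝ → ℝ, h = fun x => H' (P x) *
    (2 * Real.sinh x / (2 * Real.cosh x + 1) ^ 2) := ⟨_, rfl⟩
  have hPmem : ∀ x, P x ∈ Set.Icc (0:ℝ) (1 / 3) := by rw [hP]; exact p_mem
  have hGd : ∀ x, HasDerivAt G (-h x) x := by
    intro x
    have h1 := hH (P x) (hPmem x).1 (hPmem x).2
    have h1' : HasDerivAt P (-(2 * Real.sinh x / (2 * Real.cosh x + 1) ^ 2)) x := by
      rw [hP]; exact p_deriv x
    have h2 := h1.comp x h1'
    have h3 : G = H ∘ P := by rw [hG]; rfl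
    rw [h3]
    refine h2.congr_deriv ?_
    rw [hh]
    ring
  have hGc : Continuous G := continuous_iff_continuousAt.2 fun x => (hGd x).continuousAt
  have hPc : Continuous P := by rw [hP]; exact p_cont
  have hhc : Continuous h := by
    rw [hh]
    apply Continuous.mul
    · exact hH'.comp_continuous hPc hPmem
    · apply Continuous.div
      · exact continuous_const.mul Real.continuous_sinh
      · exact ((continuous_const.mul Real.continuous_cosh).add continuous_const).pow 2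
      · intro x
        have := den_pos x
        positivity
  have hhk : ∀ x, 0 ≤ x → |h x| ≤ B * kc x := by
    intro x hx
    have hs : 0 ≤ Real.sinh x := Real.sinh_nonneg_iff.2 hx
    have h1 := pos1 x
    have h2 := pos2 x
    have h3 := den_pos x
    rw [hh]
    simp only
    rw [abs_mul]
    have a1 : |H' (P x)| ≤ B := hB _ (hPmem x)
    have a2 : |2 * Real.sinh x / (2 * Real.cosh x + 1) ^ 2| ≤ kc x := by
      rw [abs_of_nonneg (by positivity)]
      unfold kc
      apply div_le_div₀ (by positivity) (by linarith) (mul_pos h1 h2)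
      have := Real.one_le_cosh x
      nlinarith
    exact mul_le_mul a1 a2 (abs_nonneg _) hB0
  have hHle : ∀ p ∈ Set.Icc (0:ℝ) (1 / 3), |H p| ≤ B * p := by
    intro p hp
    have h1 := (convex_Icc (0:ℝ) (1 / 3)).norm_image_sub_le_of_norm_hasDerivWithin_le
      (f := H) (f' := H') (C := B) (x := 0) (y := p)
      (fun y hy => (hH y hy.1 hy.2).hasDerivWithinAt) (fun y hy => hB y hy)
      (by constructor <;> norm_num) hp
    rw [h0, sub_zero, sub_zero, Real.norm_eq_abs, Real.norm_eq_abs, abs_of_nonneg hp.1] at h1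
    exact h1
  have hPi : Integrable P := by rw [hP]; exact p_int
  have hPn : ∀ x, 0 ≤ P x := fun x => (hPmem x).1
  have hGi : Integrable G := by
    apply Integrable.mono (hPi.const_mul B) hGc.aestronglyMeasurable
    filter_upwards with x
    rw [Real.norm_eq_abs, Real.norm_eq_abs, abs_of_nonneg (mul_nonneg hB0 (hPn x)), hG]
    exact hHle _ (hPmem x)
  have hGeven : ∀ x, G (-x) = G x := by
    intro x
    rw [hG, hP]
    simp only [Real.cosh_neg]
  have hPt : Tendsto P atTop (nhds 0) := by rw [hP]; exact p_tendsto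
  have hGlim : Tendsto G atTop (nhds 0) := by
    have h1 : Tendsto (fun x => B * P x) atTop (nhds (B * 0)) := hPt.const_mul B
    rw [mul_zero] at h1
    refine squeeze_zero_norm (fun x => ?_) h1
    rw [hG]
    exact hHle _ (hPmem x)
  have hci : Integrable (fun x => B * cal x) := cal_int.const_mul B
  have hI : ∫ x, B * cal x = B * (4 * π ^ 2 / 9) := by rw [integral_const_mul, cal_integral]
  have hsgn : ∀ σ : ℝ, (σ = 1 ∨ σ = -1) →
      σ * (3 / (2 * π ^ 2) * (∫ x, G x) * Real.log L) - (12 * C + 2 * Real.log 2) * B ≤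
        σ * ∑ i, G (Real.log (μ i)) := by
    intro σ hσ
    have hσ1 : |σ| = 1 := by rcases hσ with h | h <;> simp [h]
    have h1 := hC (fun x => B * cal x + σ * G x)
      (fun x => B * kc x + σ * h x) (12 * B)
      ((kc_cont.const_mul B).add (hhc.const_mul σ))
      (by
        intro x hx
        have h1 := hhk x hx
        have h2 : |σ * h x| ≤ B * kc x := by rw [abs_mul, hσ1, one_mul]; exact h1
        have := (abs_le.1 h2).1
        linarith)
      (by
        intro x hx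
        have h1 := hhk x hx
        have h2 : |σ * h x| ≤ B * kc x := by rw [abs_mul, hσ1, one_mul]; exact h1
        have h3 := (abs_le.1 h2).2
        have h4 := mul_le_mul_of_nonneg_left (kc_le hx) hB0
        linarith)
      (by
        intro x
        refine (((cal_deriv x).const_mul B).add ((hGd x).const_mul σ)).congr_deriv ?_
        ring)
      (by
        intro x
        simp only [cal_even, hGeven])
      (by
        have h1 := (cal_tendsto.const_mul B).add (hGlim.const_mul σ)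
        simpa using h1) L hL hJ μ hμ
    have hcs := mul_le_mul_of_nonneg_left (cal_sum hL hμ) hB0
    rw [integral_add hci (hGi.const_mul σ), hI, integral_const_mul, Finset.sum_add_distrib,
      ← Finset.mul_sum, ← Finset.mul_sum] at h1
    have e : 3 / (2 * π ^ 2) * (B * (4 * π ^ 2 / 9) + σ * ∫ x, G x) * Real.log L =
        2 / 3 * B * Real.log L + σ * (3 / (2 * π ^ 2) * (∫ x, G x) * Real.log L) := by
      field_simp
      ring
    rw [e] at h1
    linarith
  have a1 := hsgn 1 (Or.inl rfl)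
  have a2 := hsgn (-1) (Or.inr rfl)
  have e1 : ∀ x, H (1 / (2 * Real.cosh x + 1)) = G x := by
    intro x
    rw [hG, hP]
  simp only [e1]
  rw [abs_le]
  constructor <;> linarith

/-- sums over the parameters, uniformly in the function -/
theorem ps_unif : ∃ ps : ℕ → Multiset ℝ, (∀ n, 1 ≤ n → IsPs n (ps n)) ∧
    ∃ C : ℝ, 0 ≤ C ∧ ∀ (H H' : ℝ → ℝ) (B : ℝ),
      (∀ p, 0 ≤ p → p ≤ 1 / 3 → HasDerivAt H (H' p) p) →
      ContinuousOn H' (Set.Icc 0 (1 / 3)) → H 0 = 0 →
      (∀ p ∈ Set.Icc (0:ℝ) (1 / 3), |H' p| ≤ B) → ∀ n : ℕ, 1 ≤ n →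
      |((ps n).map H).sum - (3 / (4 * π ^ 2) * (∫ x, H (1 / (2 * Real.cosh x + 1)))) *
        Real.log n| ≤ C * B := by
  classical
  have hπ := Real.pi_pos
  have hex : ∀ n : ℕ, ∃ s : Multiset ℝ, 1 ≤ n → IsPs n s ∧
      ∃ (hJ : (J (2 * n)).IsHermitian) (ν : Fin (2 * n) → ℝ), IsMu (2 * n) hJ ν ∧
      ∀ g : ℝ → ℝ, 2 * (s.map g).sum =
        ∑ i, g (1 / (2 * Real.cosh (Real.log (ν i)) + 1)) := by
    intro n
    by_cases hn : 1 ≤ n
    · obtain ⟨s, h1, h2, h3⟩ := bern hn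
      exact ⟨s, fun _ => ⟨⟨h1, h2⟩, h3⟩⟩
    · exact ⟨0, fun h => absurd h hn⟩
  choose ps hps using hex
  obtain ⟨C, hC0, hC⟩ := sum_two'
  have hint : ∀ x : ℝ, 0 ≤ 1 / (2 * Real.cosh x + 1) := fun x => (p_mem x).1
  obtain ⟨I0, hI0⟩ : ∃ I0 : ℝ, I0 = ∫ x : ℝ, 1 / (2 * Real.cosh x + 1) := ⟨_, rfl⟩
  have hI00 : 0 ≤ I0 := by rw [hI0]; exact integral_nonneg hint
  have hlog2 : 0 ≤ Real.log 2 := Real.log_nonneg (by norm_num)
  refine ⟨ps, fun n hn => (hps n hn).1, C / 2 + 3 / (4 * π ^ 2) * I0 * Real.log 2,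
    by positivity, ?_⟩
  intro H H' B hH hH' h0 hB n hn
  obtain ⟨-, hJ, ν, hν, hg⟩ := hps n hn
  have hB0 : 0 ≤ B := (abs_nonneg _).trans (hB 0 (by constructor <;> norm_num))
  have h1 := hC H H' B hH hH' h0 hB (2 * n) (by omega) hJ ν hν
  rw [← hg H] at h1
  have hn0 : (0:ℝ) < n := by exact_mod_cast hn
  have h2 : Real.log ((2 * n : ℕ) : ℝ) = Real.log 2 + Real.log n := by
    push_cast
    rw [Real.log_mul (by norm_num) hn0.ne']
  obtain ⟨I, hI⟩ : ∃ I : ℝ, I = ∫ x, H (1 / (2 * Real.cosh x + 1)) := ⟨_, rfl⟩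
  rw [← hI] at h1 ⊢
  have hHle : ∀ p ∈ Set.Icc (0:ℝ) (1 / 3), |H p| ≤ B * p := by
    intro p hp
    have h1 := (convex_Icc (0:ℝ) (1 / 3)).norm_image_sub_le_of_norm_hasDerivWithin_le
      (f := H) (f' := H') (C := B) (x := 0) (y := p)
      (fun y hy => (hH y hy.1 hy.2).hasDerivWithinAt) (fun y hy => hB y hy)
      (by constructor <;> norm_num) hp
    rw [h0, sub_zero, sub_zero, Real.norm_eq_abs, Real.norm_eq_abs, abs_of_nonneg hp.1] at h1
    exact h1
  have hI1 : |I| ≤ B * I0 := by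
    rw [hI, hI0, ← integral_const_mul, ← Real.norm_eq_abs]
    apply norm_integral_le_of_norm_le (p_int.const_mul B)
    exact Eventually.of_forall fun x => hHle _ (p_mem x)
  rw [h2] at h1
  have e : ((ps n).map H).sum - 3 / (4 * π ^ 2) * I * Real.log n =
      (2 * ((ps n).map H).sum - 3 / (2 * π ^ 2) * I * (Real.log 2 + Real.log n)) / 2 +
        3 / (4 * π ^ 2) * I * Real.log 2 := by
    field_simp
    ring
  rw [e]
  refine (abs_add_le _ _).trans ?_
  rw [abs_div, abs_two]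
  have h3 : |3 / (4 * π ^ 2) * I * Real.log 2| ≤ 3 / (4 * π ^ 2) * I0 * Real.log 2 * B := by
    rw [abs_mul, abs_mul, abs_of_nonneg (by positivity : (0:ℝ) ≤ 3 / (4 * π ^ 2)),
      abs_of_nonneg hlog2]
    calc 3 / (4 * π ^ 2) * |I| * Real.log 2 ≤ 3 / (4 * π ^ 2) * (B * I0) * Real.log 2 := by
          apply mul_le_mul_of_nonneg_right _ hlog2
          exact mul_le_mul_of_nonneg_left hI1 (by positivity)
      _ = _ := by ring
  have e2 : (C / 2 + 3 / (4 * π ^ 2) * I0 * Real.log 2) * B =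
      C * B / 2 + 3 / (4 * π ^ 2) * I0 * Real.log 2 * B := by ring
  rw [e2]
  linarith

end Pool.Agent.U154.UT
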