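import Pool.Agent.U154.UT.Llt
import Pool.Agent.U154.UT.Sum
import Pool.Agent.W762.EN.Int
import Pool.Agent.W333.EN.LegA

/-!
The tilted law on the cylinder, uniformly in the tilt.
-/

set_option autoImplicit false

namespace Pool.Agent.U154.UT

open MeasureTheory Real Filter Topology
open Pool.Agent.H863R2.NL (EN IsPs cN vN)
open Pool.Agent.H863R2.NL (int_p int_p2)
open Pool.Agent.H863R2.NL.IntAux (p_int p2_int)
open Pool.Agent.H450R4.NL (Ph qt qt_fac tilt_coef msum_le msum_add msum_mul)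
open Pool.Agent.W819.EN (dL nuc SInt LegA Psi)

/-- the exponent of `E exp (h N)` -/
noncomputable def Lm (h : ℝ) : ℝ := Pool.Agent.W819.EN.Lam h

theorem legA : LegA := Pool.Agent.W333.EN.t_LEGA

theorem nuc_eq : nuc = cN := by
  unfold nuc cN
  rfl

theorem den_ge {t p : ℝ} (ht : 0 < t) (h0 : 0 ≤ p) (h1 : p ≤ 1 / 3) : 2 / 3 ≤ 1 + p * (t - 1) := by
  nlinarith

theorem den_pos' {t p : ℝ} (ht : 0 < t) (h0 : 0 ≤ p) (h1 : p ≤ 1 / 3) : 0 < 1 + p * (t - 1) := by
  have := den_ge ht h0 h1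
  linarith

theorem qt_mem' {t p : ℝ} (ht : 0 < t) (h0 : 0 < p) (h1 : p ≤ 1 / 3) :
    0 < qt t p ∧ qt t p ≤ 1 := by
  have h := den_pos' ht h0.le h1
  unfold qt
  refine ⟨by positivity, ?_⟩
  rw [div_le_one h]
  linarith

theorem qt_le {t p : ℝ} (ht : 0 < t) (h0 : 0 < p) (h1 : p ≤ 1 / 3) : qt t p ≤ 3 / 2 * t * p := by
  have h := den_pos' ht h0.le h1
  have h2 := den_ge ht h0.le h1
  unfold qt
  rw [div_le_iff₀ h]
  have : 0 < t * p := by positivity
  nlinarith

theorem qv_eq {t p : ℝ} (ht : 0 < t) (h0 : 0 ≤ p) (h1 : p ≤ 1 / 3) :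
    qt t p * (1 - qt t p) = p * (1 - p) * (t / (1 + p * (t - 1)) ^ 2) := by
  have h := (den_pos' ht h0 h1).ne'
  unfold qt
  field_simp
  ring

theorem exp_sub_le (h : ℝ) : |exp h - 1| ≤ |h| * exp |h| := by
  rcases le_total 0 h with h0 | h0
  · rw [abs_of_nonneg h0, abs_of_nonneg (by linarith [one_le_exp h0])]
    have h1 := add_one_le_exp (-h)
    have h2 : exp (-h) * exp h = 1 := by rw [← exp_add]; simp
    have h3 := mul_le_mul_of_nonneg_right h1 (exp_pos h).le
    linarith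
  · have h1 : exp h ≤ 1 := exp_le_one_iff.2 h0
    rw [abs_of_nonpos h0, abs_of_nonpos (by linarith)]
    have h2 := add_one_le_exp h
    have h3 : 1 ≤ exp (-h) := one_le_exp (by linarith)
    nlinarith

/-- convexity -/
theorem tilt_conv' {t h p : ℝ} (ht0 : 0 < t) (hp0 : 0 < p) (hp1 : p ≤ 1 / 3) :
    log (1 + p * (t - 1)) + h * qt t p ≤ log (1 + p * (t * exp h - 1)) := by
  have h1 := den_pos' ht0 hp0.le hp1
  have hq := qt_mem' ht0 hp0 hp1
  have e : 1 + p * (t * exp h - 1) = (1 + p * (t - 1)) * (1 + qt t p * (exp h - 1)) := by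
    unfold qt
    field_simp
    ring
  have h2 : exp (h * qt t p) ≤ 1 + qt t p * (exp h - 1) := by
    have := convexOn_exp.2 (Set.mem_univ h) (Set.mem_univ 0) hq.1.le
      (show 0 ≤ 1 - qt t p by linarith [hq.2]) (by ring)
    simp only [smul_eq_mul, mul_zero, add_zero, exp_zero, mul_one] at this
    rw [mul_comm h]
    linarith
  rw [e, log_mul h1.ne' (lt_of_lt_of_le (exp_pos _) h2).ne']
  have h3 : h * qt t p ≤ log (1 + qt t p * (exp h - 1)) := by
    have := log_le_log (exp_pos _) h2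
    rwa [log_exp] at this
  linarith

/-- the sums under the tilted laws -/
structure Tilts (H C c : ℝ) (ps : ℕ → Multiset ℝ) : Prop where
  C0 : 0 ≤ C
  c0 : 0 < c
  isps : ∀ n, 1 ≤ n → IsPs n (ps n)
  lg : ∀ h, |h| ≤ H → ∀ n : ℕ, 1 ≤ n →
    |((ps n).map (fun p => log (1 + p * (exp h - 1)))).sum - Lm h * log n| ≤ C * |h|
  mean : ∀ h, |h| ≤ H → ∀ n : ℕ, 1 ≤ n →
    |((ps n).map (qt (exp h))).sum - dL h * log n| ≤ C
  var : ∀ h, |h| ≤ H → ∀ n : ℕ, 1 ≤ n →
    |(((ps n).map (qt (exp h))).map (fun q => q * (1 - q))).sum - vN * log n| ≤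
      C * (1 + |h| * log n)
  sm : ∀ n : ℕ, 1 ≤ n → |(ps n).sum - cN * log n| ≤ C
  lo : ∀ h, |h| ≤ H → ∀ n : ℕ, 1 ≤ n → c * (ps n).sum ≤
    (((ps n).map (qt (exp h))).map (fun q => q * (1 - q))).sum
  hi : ∀ h, |h| ≤ H → ∀ n : ℕ, 1 ≤ n →
    (((ps n).map (qt (exp h))).map (fun q => q * (1 - q))).sum ≤ C * (ps n).sum
  mv : ∀ h, |h| ≤ H → ∀ n : ℕ, 1 ≤ n → ((ps n).map (qt (exp h))).sum ≤
    C * (((ps n).map (qt (exp h))).map (fun q => q * (1 - q))).sum
  mem : ∀ h, |h| ≤ H → ∀ n : ℕ, 1 ≤ n → ∀ q ∈ (ps n).map (qt (exp h)), 0 < q ∧ q ≤ 1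

theorem der_log {t : ℝ} (ht0 : 0 < t) (p : ℝ) (h1 : 0 ≤ p) (h2 : p ≤ 1 / 3) :
    HasDerivAt (fun p => log (1 + p * (t - 1))) ((t - 1) / (1 + p * (t - 1))) p := by
  have h3 := den_pos' ht0 h1 h2
  have h4 : HasDerivAt (fun p : ℝ => 1 + p * (t - 1)) (1 * (t - 1)) p :=
    ((hasDerivAt_id p).mul_const (t - 1)).const_add 1
  refine (h4.log h3.ne').congr_deriv ?_
  ring

theorem der_qt {t : ℝ} (ht0 : 0 < t) (p : ℝ) (h1 : 0 ≤ p) (h2 : p ≤ 1 / 3) :
    HasDerivAt (qt t) (t / (1 + p * (t - 1)) ^ 2) p := by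
  have h3 := den_pos' ht0 h1 h2
  have h4 : HasDerivAt (fun p : ℝ => 1 + p * (t - 1)) (1 * (t - 1)) p :=
    ((hasDerivAt_id p).mul_const (t - 1)).const_add 1
  have h5 : HasDerivAt (fun p : ℝ => p * t) (1 * t) p := (hasDerivAt_id p).mul_const t
  refine (h5.div h4 h3.ne').congr_deriv ?_
  congr 1
  ring

theorem tilts {H : ℝ} (hH : 0 < H) : ∃ (C c : ℝ) (ps : ℕ → Multiset ℝ), Tilts H C c ps := by
  obtain ⟨ps, hps, C, hC0, hC⟩ := ps_unif
  have hI : SInt := Pool.Agent.W762.EN.t_INT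
  have hπ := pi_pos
  have hE : 0 < exp H := exp_pos H
  have hE1 : 1 ≤ exp H := one_le_exp hH.le
  have ht : ∀ h, |h| ≤ H → exp h ≤ exp H ∧ exp (-H) ≤ exp h := by
    intro h hh
    have := abs_le.1 hh
    exact ⟨exp_le_exp.2 this.2, exp_le_exp.2 this.1⟩
  have hht : ∀ h, |h| ≤ H → |exp h - 1| ≤ |h| * exp H := by
    intro h hh
    exact (exp_sub_le h).trans (mul_le_mul_of_nonneg_left (exp_le_exp.2 hh) (abs_nonneg h))
  have hcontlog : ∀ t : ℝ, 0 < t → ContinuousOn (fun p => (t - 1) / (1 + p * (t - 1)))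
      (Set.Icc 0 (1 / 3)) := by
    intro t ht0
    apply ContinuousOn.div
    · fun_prop
    · fun_prop
    · intro p hp
      exact (den_pos' ht0 hp.1 hp.2).ne'
  have hcontqt : ∀ t : ℝ, 0 < t → ContinuousOn (fun p => t / (1 + p * (t - 1)) ^ 2)
      (Set.Icc 0 (1 / 3)) := by
    intro t ht0
    apply ContinuousOn.div
    · fun_prop
    · fun_prop
    · intro p hp
      exact (pow_pos (den_pos' ht0 hp.1 hp.2) 2).ne'
  -- logarithms
  have hlog : ∀ (t D : ℝ), 0 < t → |t - 1| ≤ D → ∀ n : ℕ, 1 ≤ n →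
      |((ps n).map (fun p => log (1 + p * (t - 1)))).sum - Psi t * log n| ≤ C * (3 / 2 * D) := by
    intro t D ht0 hD n hn
    have h1 := hC (fun p => log (1 + p * (t - 1))) (fun p => (t - 1) / (1 + p * (t - 1)))
      (3 / 2 * D) (der_log ht0) (hcontlog t ht0) (by simp) (by
        intro p hp
        have h3 := den_ge ht0 hp.1 hp.2
        rw [abs_div, abs_of_pos (den_pos' ht0 hp.1 hp.2), div_le_iff₀ (den_pos' ht0 hp.1 hp.2)]
        have hD0 : 0 ≤ D := (abs_nonneg _).trans hD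
        nlinarith) n hn
    rw [hI t ht0] at h1
    exact h1
  -- the tilted parameters
  have hqt : ∀ (t D : ℝ), 0 < t → t ≤ D → ∀ n : ℕ, 1 ≤ n →
      |((ps n).map (qt t)).sum - (3 / (4 * π ^ 2) *
        (∫ x, qt t (1 / (2 * Real.cosh x + 1)))) * log n| ≤ C * (9 / 4 * D) := by
    intro t D ht0 hD n hn
    refine hC (qt t) (fun p => t / (1 + p * (t - 1)) ^ 2) (9 / 4 * D) (der_qt ht0)
      (hcontqt t ht0) (by simp [qt]) ?_ n hn
    intro p hp
    have h3 := den_ge ht0 hp.1 hp.2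
    have h4 := den_pos' ht0 hp.1 hp.2
    rw [abs_of_nonneg (by positivity), div_le_iff₀ (by positivity)]
    have h5 : (2 / 3 : ℝ) ^ 2 ≤ (1 + p * (t - 1)) ^ 2 := pow_le_pow_left₀ (by norm_num) h3 2
    have hD0 : 0 < D := lt_of_lt_of_le ht0 hD
    nlinarith
  have hLog : Tendsto (fun n : ℕ => log (n : ℝ)) atTop atTop :=
    tendsto_log_atTop.comp tendsto_natCast_atTop_atTop
  -- identification of the mean
  have hκ : ∀ h : ℝ, 3 / (4 * π ^ 2) * (∫ x, qt (exp h) (1 / (2 * Real.cosh x + 1))) = dL h := by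
    intro h
    obtain ⟨t, htd⟩ : ∃ t, t = exp h := ⟨_, rfl⟩
    have ht0 : 0 < t := by rw [htd]; exact exp_pos h
    obtain ⟨κ, hκ⟩ : ∃ κ, κ = 3 / (4 * π ^ 2) * (∫ x, qt t (1 / (2 * Real.cosh x + 1))) := ⟨_, rfl⟩
    rw [← htd, ← hκ]
    have hineq : ∀ h' : ℝ, Psi t + h' * κ ≤ Psi (t * exp h') := by
      intro h'
      have ht1 : 0 < t * exp h' := by positivity
      obtain ⟨D1, hD1⟩ : ∃ D1, D1 = C * (3 / 2 * |t - 1|) := ⟨_, rfl⟩
      obtain ⟨D3, hD3⟩ : ∃ D3, D3 = C * (9 / 4 * t) := ⟨_, rfl⟩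
      obtain ⟨D4, hD4⟩ : ∃ D4, D4 = C * (3 / 2 * |t * exp h' - 1|) := ⟨_, rfl⟩
      by_contra hcon
      push Not at hcon
      have hd : 0 < Psi t + h' * κ - Psi (t * exp h') := by linarith
      have hev := (hLog.const_mul_atTop hd).eventually_gt_atTop (D1 + |h'| * D3 + D4)
      obtain ⟨n, hn1, hn2⟩ := (hev.and (eventually_ge_atTop 1)).exists
      have k1 := (abs_le.1 (hlog t _ ht0 le_rfl n hn2)).1
      have k3 : |h' * (((ps n).map (qt t)).sum - κ * log n)| ≤ |h'| * D3 := by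
        rw [abs_mul, hD3, hκ]
        exact mul_le_mul_of_nonneg_left (hqt t t ht0 le_rfl n hn2) (abs_nonneg _)
      have k3' := (abs_le.1 k3).1
      have k4 := (abs_le.1 (hlog (t * exp h') _ ht1 le_rfl n hn2)).2
      have k5 : ((ps n).map (fun p => log (1 + p * (t - 1)))).sum + h' * ((ps n).map (qt t)).sum ≤
          ((ps n).map (fun p => log (1 + p * (t * exp h' - 1)))).sum := by
        rw [← msum_mul, ← msum_add]
        apply msum_le
        intro p hp
        have hp' := (hps n hn2).1 p hp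
        exact tilt_conv' ht0 hp'.1 hp'.2
      rw [← hD1] at k1
      rw [← hD4] at k4
      nlinarith
    have hd := legA.der h
    have hd2 : HasDerivAt (fun s : ℝ => Pool.Agent.W819.EN.Lam s - s * κ) (dL h - 1 * κ) h :=
      hd.sub ((hasDerivAt_id _).mul_const κ)
    have hmin : IsLocalMin (fun s : ℝ => Pool.Agent.W819.EN.Lam s - s * κ) h := by
      refine Eventually.of_forall fun s => ?_
      have e : t * exp (s - h) = exp s := by
        rw [htd, ← exp_add]
        congr 1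
        ring
      have h2 := hineq (s - h)
      rw [e, htd] at h2
      show Pool.Agent.W819.EN.Lam h - h * κ ≤ Pool.Agent.W819.EN.Lam s - s * κ
      unfold Pool.Agent.W819.EN.Lam
      linarith
    have := hmin.hasDerivAt_eq_zero hd2
    linarith
  -- variance at zero
  have hv0 : ∀ n : ℕ, 1 ≤ n →
      |((ps n).map (fun p => p * (1 - p))).sum - vN * log n| ≤ C := by
    intro n hn
    have h1 := hC (fun p => p * (1 - p)) (fun p => 1 - 2 * p) 1
      (fun p _ _ => by
        refine ((hasDerivAt_id p).mul ((hasDerivAt_id p).const_sub 1)).congr_deriv ?_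
        simp only [id]
        ring) (by fun_prop) (by norm_num) (by
        intro p hp
        rw [abs_le]
        constructor <;> linarith [hp.1, hp.2]) n hn
    have e : 3 / (4 * π ^ 2) * (∫ x : ℝ, 1 / (2 * Real.cosh x + 1) *
        (1 - 1 / (2 * Real.cosh x + 1))) = vN := by
      have e1 : ∀ x : ℝ, 1 / (2 * Real.cosh x + 1) * (1 - 1 / (2 * Real.cosh x + 1)) =
          1 / (2 * Real.cosh x + 1) - (1 / (2 * Real.cosh x + 1)) ^ 2 := fun x => by ring
      simp only [e1]
      rw [integral_sub p_int p2_int, int_p, int_p2]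
      unfold vN
      field_simp
      ring
    rw [e, mul_one] at h1
    exact h1
  have hsm : ∀ n : ℕ, 1 ≤ n → |(ps n).sum - cN * log n| ≤ C := by
    intro n hn
    have h1 := hC (fun p => p) (fun _ => 1) 1 (fun p _ _ => hasDerivAt_id p) continuousOn_const rfl
      (by intro p _; simp) n hn
    have e : 3 / (4 * π ^ 2) * (∫ x : ℝ, 1 / (2 * Real.cosh x + 1)) = cN := by
      rw [int_p]
      unfold cN
      field_simp
      ring
    rw [e, mul_one, Multiset.map_id'] at h1
    exact h1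
  obtain ⟨D, hD⟩ : ∃ D, D = 9 / 4 * ((1 + exp H) * exp H) := ⟨_, rfl⟩
  have hD0 : 0 < D := by rw [hD]; positivity
  obtain ⟨c, hc⟩ : ∃ c, c = 2 / 3 * (exp (-H) / exp H ^ 2) := ⟨_, rfl⟩
  have hc0 : 0 < c := by rw [hc]; positivity
  obtain ⟨K, hK⟩ : ∃ K, K = C * (9 / 4 * exp H) + C + D * (cN + C) * (1 + H) + 9 / 4 * exp H +
      (3 / 2 * exp H) / c := ⟨_, rfl⟩
  have hcN : 0 < cN := by unfold cN; positivity
  have z1 : 0 ≤ C * (9 / 4 * exp H) := by positivity
  have z2 : 0 ≤ D * (cN + C) * (1 + H) := by positivity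
  have z3 : 0 ≤ 9 / 4 * exp H := by positivity
  have z4 : 0 ≤ (3 / 2 * exp H) / c := by positivity
  have hplo : ∀ h, |h| ≤ H → ∀ p, 0 < p → p ≤ 1 / 3 → c * p ≤ qt (exp h) p * (1 - qt (exp h) p) := by
    intro h hh p hp0 hp1
    have ht0 := exp_pos h
    rw [qv_eq ht0 hp0.le hp1]
    have h4 := den_pos' ht0 hp0.le hp1
    have h5 : 1 + p * (exp h - 1) ≤ exp H := by
      have := (ht h hh).1
      nlinarith
    have h6 : (1 + p * (exp h - 1)) ^ 2 ≤ exp H ^ 2 := pow_le_pow_left₀ h4.le h5 2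
    have h7 : exp (-H) / exp H ^ 2 ≤ exp h / (1 + p * (exp h - 1)) ^ 2 :=
      div_le_div₀ ht0.le (ht h hh).2 (by positivity) h6
    have h8 : 2 / 3 * p ≤ p * (1 - p) := by nlinarith
    calc c * p = (2 / 3 * p) * (exp (-H) / exp H ^ 2) := by rw [hc]; ring
      _ ≤ _ := mul_le_mul h8 h7 (by positivity) (by nlinarith)
  have hphi : ∀ h, |h| ≤ H → ∀ p, 0 < p → p ≤ 1 / 3 →
      qt (exp h) p * (1 - qt (exp h) p) ≤ 9 / 4 * exp H * p := by
    intro h hh p hp0 hp1
    have ht0 := exp_pos h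
    rw [qv_eq ht0 hp0.le hp1]
    have h3 := den_ge ht0 hp0.le hp1
    have h4 := den_pos' ht0 hp0.le hp1
    have h5 : (2 / 3 : ℝ) ^ 2 ≤ (1 + p * (exp h - 1)) ^ 2 := pow_le_pow_left₀ (by norm_num) h3 2
    have h7 : exp h / (1 + p * (exp h - 1)) ^ 2 ≤ exp H / (2 / 3) ^ 2 :=
      div_le_div₀ hE.le (ht h hh).1 (by positivity) h5
    have h8 : p * (1 - p) ≤ p := by nlinarith
    calc p * (1 - p) * (exp h / (1 + p * (exp h - 1)) ^ 2) ≤ p * (exp H / (2 / 3) ^ 2) :=
          mul_le_mul h8 h7 (by positivity) hp0.le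
      _ = _ := by ring
  have hpdiff : ∀ h, |h| ≤ H → ∀ p, 0 < p → p ≤ 1 / 3 →
      |qt (exp h) p * (1 - qt (exp h) p) - p * (1 - p)| ≤ D * |h| * p := by
    intro h hh p hp0 hp1
    have ht0 := exp_pos h
    have h3 := den_ge ht0 hp0.le hp1
    have h4 := den_pos' ht0 hp0.le hp1
    have e : qt (exp h) p * (1 - qt (exp h) p) - p * (1 - p) = p * (1 - p) *
        ((exp h - 1) * (1 - 2 * p - p ^ 2 * (exp h - 1)) / (1 + p * (exp h - 1)) ^ 2) := by
      rw [qv_eq ht0 hp0.le hp1]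
      field_simp
      ring
    rw [e, abs_mul (p * (1 - p)), abs_div, abs_mul (exp h - 1),
      abs_of_nonneg (by nlinarith : 0 ≤ p * (1 - p)),
      abs_of_pos (by positivity : 0 < (1 + p * (exp h - 1)) ^ 2)]
    have h5 : (2 / 3 : ℝ) ^ 2 ≤ (1 + p * (exp h - 1)) ^ 2 := pow_le_pow_left₀ (by norm_num) h3 2
    have h6 : |1 - 2 * p - p ^ 2 * (exp h - 1)| ≤ 1 + exp H := by
      have h7 := (ht h hh).1
      rw [abs_le]
      constructor
      · nlinarith [sq_nonneg p]
      · nlinarith [sq_nonneg p]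
    have h8 : p * (1 - p) ≤ p := by nlinarith
    have h9 : |exp h - 1| * |1 - 2 * p - p ^ 2 * (exp h - 1)| / (1 + p * (exp h - 1)) ^ 2 ≤
        (|h| * exp H) * (1 + exp H) / (2 / 3) ^ 2 := by
      apply div_le_div₀ (by positivity) _ (by norm_num) h5
      exact mul_le_mul (hht h hh) h6 (abs_nonneg _) (by positivity)
    calc p * (1 - p) * (|exp h - 1| * |1 - 2 * p - p ^ 2 * (exp h - 1)| /
          (1 + p * (exp h - 1)) ^ 2) ≤ p * ((|h| * exp H) * (1 + exp H) / (2 / 3) ^ 2) :=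
          mul_le_mul h8 h9 (by positivity) hp0.le
      _ = _ := by rw [hD]; ring
  refine ⟨K, c, ps, ⟨?_, hc0, hps, ?_, ?_, ?_, ?_, ?_, ?_, ?_, ?_⟩⟩
  · rw [hK]; linarith
  · intro h hh n hn
    have h1 := hlog (exp h) _ (exp_pos h) (hht h hh) n hn
    refine h1.trans ?_
    have : C * (3 / 2 * (|h| * exp H)) ≤ C * (9 / 4 * exp H) * |h| := by
      have : 0 ≤ C * (exp H * |h|) := by positivity
      linarith
    refine this.trans (mul_le_mul_of_nonneg_right ?_ (abs_nonneg h))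
    rw [hK]
    linarith
  · intro h hh n hn
    have h1 := hqt (exp h) (exp H) (exp_pos h) (ht h hh).1 n hn
    rw [hκ h] at h1
    refine h1.trans ?_
    rw [hK]
    linarith
  · intro h hh n hn
    have hln : 0 ≤ log (n : ℝ) := log_nonneg (by exact_mod_cast hn)
    have h1 := hv0 n hn
    have h2 : |(((ps n).map (qt (exp h))).map (fun q => q * (1 - q))).sum -
        ((ps n).map (fun p => p * (1 - p))).sum| ≤ D * |h| * (ps n).sum := by
      rw [Multiset.map_map]
      have key : ∀ s : Multiset ℝ, (∀ p ∈ s, 0 < p ∧ p ≤ 1 / 3) →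
          |(s.map (fun x => qt (exp h) x * (1 - qt (exp h) x))).sum -
            (s.map (fun p => p * (1 - p))).sum| ≤ D * |h| * s.sum := by
        intro s
        induction s using Multiset.induction_on with
        | empty => simp
        | cons a s ih =>
          intro hs
          have ih' := ih (fun p hp => hs p (Multiset.mem_cons_of_mem hp))
          have ha := hs a (Multiset.mem_cons_self a s)
          have hd := hpdiff h hh a ha.1 ha.2
          simp only [Multiset.map_cons, Multiset.sum_cons]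
          obtain ⟨x, hx⟩ : ∃ x, x = (s.map (fun x => qt (exp h) x * (1 - qt (exp h) x))).sum :=
            ⟨_, rfl⟩
          obtain ⟨y, hy⟩ : ∃ y, y = (s.map (fun p => p * (1 - p))).sum := ⟨_, rfl⟩
          rw [← hx, ← hy] at ih' ⊢
          have := abs_add_le (qt (exp h) a * (1 - qt (exp h) a) - a * (1 - a)) (x - y)
          have e : qt (exp h) a * (1 - qt (exp h) a) + x - (a * (1 - a) + y) =
              (qt (exp h) a * (1 - qt (exp h) a) - a * (1 - a)) + (x - y) := by ring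
          rw [e]
          linarith
      exact key (ps n) (hps n hn).1
    have h3 : D * |h| * (ps n).sum ≤ D * |h| * (cN * log n + C) := by
      apply mul_le_mul_of_nonneg_left _ (by positivity)
      linarith [(abs_le.1 (hsm n hn)).2]
    have h4 : D * |h| * (cN * log n + C) ≤ D * (cN + C) * (H + |h| * log n) := by
      have a1 : 0 ≤ D * cN * H := by positivity
      have a2 : 0 ≤ D * C * (|h| * log n) := by positivity
      have a3 : D * C * |h| ≤ D * C * H := mul_le_mul_of_nonneg_left hh (by positivity)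
      nlinarith
    have h5 := abs_add_le ((((ps n).map (qt (exp h))).map (fun q => q * (1 - q))).sum -
        ((ps n).map (fun p => p * (1 - p))).sum)
        (((ps n).map (fun p => p * (1 - p))).sum - vN * log n)
    have e : (((ps n).map (qt (exp h))).map (fun q => q * (1 - q))).sum - vN * log n =
        ((((ps n).map (qt (exp h))).map (fun q => q * (1 - q))).sum -
        ((ps n).map (fun p => p * (1 - p))).sum) +
        (((ps n).map (fun p => p * (1 - p))).sum - vN * log n) := by ring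
    rw [e]
    have h6 : D * (cN + C) * (H + |h| * log n) + C ≤ K * (1 + |h| * log n) := by
      have b0 : 0 ≤ |h| * log n := by positivity
      have b1 : 0 ≤ D * (cN + C) := by positivity
      have b2 : D * (cN + C) * (1 + H) + C ≤ K := by rw [hK]; linarith
      have b3 := mul_le_mul_of_nonneg_right b2 (show 0 ≤ 1 + |h| * log n by linarith)
      have b4 : 0 ≤ D * (cN + C) * H * (|h| * log n) := by positivity
      have b5 : 0 ≤ C * (|h| * log n) := by positivity
      nlinarith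
    linarith
  · intro n hn
    refine (hsm n hn).trans ?_
    rw [hK]
    linarith
  · intro h hh n hn
    rw [Multiset.map_map, ← Multiset.map_id' (ps n), ← msum_mul, Multiset.map_id']
    exact msum_le _ fun p hp => hplo h hh p ((hps n hn).1 p hp).1 ((hps n hn).1 p hp).2
  · intro h hh n hn
    rw [Multiset.map_map, ← Multiset.map_id' (ps n), ← msum_mul, Multiset.map_id']
    refine msum_le _ fun p hp => ?_
    have hp' := (hps n hn).1 p hp
    refine (hphi h hh p hp'.1 hp'.2).trans (mul_le_mul_of_nonneg_right ?_ hp'.1.le)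
    rw [hK]
    linarith
  · intro h hh n hn
    rw [Multiset.map_map, ← msum_mul]
    refine msum_le _ fun p hp => ?_
    have hp' := (hps n hn).1 p hp
    have h1 := qt_le (exp_pos h) hp'.1 hp'.2
    have h2 := hplo h hh p hp'.1 hp'.2
    simp only [Function.comp_apply]
    have h3 : 3 / 2 * exp h * p ≤ (3 / 2 * exp H) / c * (c * p) := by
      have e : (3 / 2 * exp H) / c * (c * p) = 3 / 2 * exp H * p := by field_simp
      rw [e]
      apply mul_le_mul_of_nonneg_right _ hp'.1.le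
      linarith [(ht h hh).1]
    have h4 : (3 / 2 * exp H) / c * (c * p) ≤ K * (qt (exp h) p * (1 - qt (exp h) p)) := by
      apply mul_le_mul _ h2 (by have := hp'.1; positivity) (by rw [hK]; linarith)
      rw [hK]
      linarith
    linarith
  · intro h hh n hn q hq
    obtain ⟨p, hp, rfl⟩ := Multiset.mem_map.1 hq
    have hp' := (hps n hn).1 p hp
    exact qt_mem' (exp_pos h) hp'.1 hp'.2

end Pool.Agent.U154.UT
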